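import Mathlib

set_option autoImplicit false

/-! Automatic structures in the sense of two-tape automata on padded pairs. -/

namespace Run7.h463.Padded

/-- The element represented by a word `w` over `α`, for `ι : α → H`. -/
def ev {H : Type} [Group H] {α : Type} (ι : α → H) (w : List α) : H := (w.map ι).prod

/-- The padded pair of two words: the list of the pairs of the `i`-th letters, `none` being the
padding symbol. -/
def pad {α : Type} (v w : List α) : List (Option α × Option α) :=
  (List.range (max v.length w.length)).map (fun i => (v[i]?, w[i]?))

/-- The padded pairs of words of `L` whose values differ by `x` on the right. -/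
def pairs {H : Type} [Group H] {α : Type} (ι : α → H) (L : Language α) (x : H) :
    Language (Option α × Option α) :=
  {p | ∃ v ∈ L, ∃ w ∈ L, ev ι v * x = ev ι w ∧ p = pad v w}

/-- `L` is the language of an automatic structure over `ι : α → H`. -/
def IsAutomaticStructure {H : Type} [Group H] {α : Type} (ι : α → H) (L : Language α) : Prop :=
  L.IsRegular ∧ (∀ g : H, ∃ w ∈ L, ev ι w = g) ∧
    (pairs ι L 1).IsRegular ∧ ∀ a : α, (pairs ι L (ι a)).IsRegular

/-- `ι : α → H` is a monoid generating family. -/
def Generates {H : Type} [Group H] {α : Type} (ι : α → H) : Prop :=
  Submonoid.closure (Set.range ι) = ⊤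

/-- The group `H` is automatic. -/
def IsAutomatic (H : Type) [Group H] : Prop :=
  ∃ (α : Type) (_ : Fintype α) (ι : α → H), Generates ι ∧
    ∃ L : Language α, IsAutomaticStructure ι L

/-- A word is geodesic. -/
def IsGeodesic {H : Type} [Group H] {α : Type} (ι : α → H) (w : List α) : Prop :=
  ∀ v : List α, ev ι v = ev ι w → w.length ≤ v.length

section

variable {H : Type} [Group H] {α : Type} (ι : α → H)

@[simp] theorem ev_nil : ev ι [] = 1 := rfl
@[simp] theorem ev_append (u v : List α) : ev ι (u ++ v) = ev ι u * ev ι v := by simp [ev]
@[simp] theorem ev_single (a : α) : ev ι [a] = ι a := by simp [ev]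

omit [Group H] in
theorem pad_snoc_both (v w : List α) (a c : α) (h : v.length = w.length) :
    pad (v ++ [a]) (w ++ [c]) = pad v w ++ [(some a, some c)] := by
  unfold pad
  have e1 : max (v ++ [a]).length (w ++ [c]).length = max v.length w.length + 1 := by
    simp [h]
  rw [e1, List.range_succ, List.map_append]
  congr 1
  · apply List.map_congr_left
    intro i hi
    rw [List.mem_range] at hi
    rw [List.getElem?_append_left (by omega), List.getElem?_append_left (by omega)]
  · have h1 : max v.length w.length = v.length := by omega
    rw [h1]
    simp [h]

omit [Group H] in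
theorem pad_snoc_left (v w : List α) (a : α) (h : w.length ≤ v.length) :
    pad (v ++ [a]) w = pad v w ++ [(some a, none)] := by
  unfold pad
  have e1 : max (v ++ [a]).length w.length = max v.length w.length + 1 := by
    simp only [List.length_append, List.length_cons, List.length_nil]; omega
  rw [e1, List.range_succ, List.map_append]
  congr 1
  · apply List.map_congr_left
    intro i hi
    rw [List.mem_range] at hi
    rw [List.getElem?_append_left (by omega)]
  · have h1 : max v.length w.length = v.length := by omega
    rw [h1]
    simp [h]

omit [Group H] in
theorem pad_snoc_right (v w : List α) (c : α) (h : v.length ≤ w.length) :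
    pad v (w ++ [c]) = pad v w ++ [(none, some c)] := by
  unfold pad
  have e1 : max v.length (w ++ [c]).length = max v.length w.length + 1 := by
    simp only [List.length_append, List.length_cons, List.length_nil]; omega
  rw [e1, List.range_succ, List.map_append]
  congr 1
  · apply List.map_congr_left
    intro i hi
    rw [List.mem_range] at hi
    rw [List.getElem?_append_left (by omega)]
  · have h1 : max v.length w.length = w.length := by omega
    rw [h1]
    simp [h]

variable {ι}

open Classical in
/-- transitions of the comparison automaton -/
noncomputable def cstep {σ : Type} (M : DFA α σ) (B : Finset H) :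
    Option (σ × σ × {b : H // b ∈ B} × Bool × Bool) → Option α × Option α →
      (ι : α → H) → Option (σ × σ × {b : H // b ∈ B} × Bool × Bool)
  | some (p, q, b, false, false), (some a, some c), ι =>
    if h : (ι a)⁻¹ * b.1 * ι c ∈ B then
      some (M.step p a, M.step q c, ⟨_, h⟩, false, false) else none
  | some (p, q, b, false, _), (some a, none), ι =>
    if h : (ι a)⁻¹ * b.1 ∈ B then some (M.step p a, q, ⟨_, h⟩, false, true) else none
  | some (p, q, b, _, false), (none, some c), ι =>
    if h : b.1 * ι c ∈ B then some (p, M.step q c, ⟨_, h⟩, true, false) else none
  | _, _, _ => none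

/-- the comparison automaton -/
noncomputable def cdfa {σ : Type} (M : DFA α σ) (B : Finset H) (hB : (1 : H) ∈ B) (ι : α → H)
    (x : H) : DFA (Option α × Option α) (Option (σ × σ × {b : H // b ∈ B} × Bool × Bool)) where
  step s a := cstep M B s a ι
  start := some (M.start, M.start, ⟨1, hB⟩, false, false)
  accept := {s | ∃ p q b e e', s = some (p, q, b, e, e') ∧ p ∈ M.accept ∧ q ∈ M.accept ∧ b.1 = x}

open Classical in
theorem cdfa_sound {σ : Type} (M : DFA α σ) (B : Finset H) (hB : (1 : H) ∈ B) (ι : α → H) (x : H)
    (l : List (Option α × Option α)) : ∀ p q b e e',
    (cdfa M B hB ι x).eval l = some (p, q, b, e, e') →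
    ∃ v w : List α, l = pad v w ∧ M.eval v = p ∧ M.eval w = q ∧ b.1 = (ev ι v)⁻¹ * ev ι w ∧
      (e = true → v.length < w.length) ∧ (e' = true → w.length < v.length) ∧
      (e = false → e' = false → v.length = w.length) := by
  induction l using List.reverseRecOn with
  | nil =>
    intro p q b e e' h
    change some (M.start, M.start, (⟨1, hB⟩ : {b : H // b ∈ B}), false, false) =
      some (p, q, b, e, e') at h
    simp only [Option.some.injEq, Prod.mk.injEq] at h
    obtain ⟨rfl, rfl, rfl, rfl, rfl⟩ := h
    exact ⟨[], [], rfl, rfl, rfl, by simp, by simp, by simp, by simp⟩
  | append_singleton l a ih =>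
    intro p q b e e' h
    rw [DFA.eval_append_singleton] at h
    cases hs : (cdfa M B hB ι x).eval l with
    | none => rw [hs] at h; exact absurd h (by simp [cdfa, cstep])
    | some st =>
      obtain ⟨p₀, q₀, b₀, e₀, e₀'⟩ := st
      obtain ⟨v, w, rfl, hp, hq, hb, h1, h2, h3⟩ := ih p₀ q₀ b₀ e₀ e₀' hs
      rw [hs] at h
      change cstep M B (some (p₀, q₀, b₀, e₀, e₀')) a ι = some (p, q, b, e, e') at h
      obtain ⟨oa, oc⟩ := a
      cases oa with
      | none =>
        cases oc with
        | none => cases e₀ <;> cases e₀' <;> simp [cstep] at h
        | some c =>
          cases e₀' with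
          | true => cases e₀ <;> simp [cstep] at h
          | false =>
            have hlen : v.length ≤ w.length := by
              cases e₀ with
              | true => exact (h1 rfl).le
              | false => exact (h3 rfl rfl).le
            have h' : (if h : b₀.1 * ι c ∈ B then
                some (p₀, M.step q₀ c, (⟨_, h⟩ : {b : H // b ∈ B}), true, false) else none) =
                some (p, q, b, e, e') := by
              cases e₀ <;> exact h
            split_ifs at h' with hm
            simp only [Option.some.injEq, Prod.mk.injEq] at h'
            obtain ⟨rfl, rfl, rfl, rfl, rfl⟩ := h'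
            refine ⟨v, w ++ [c], (pad_snoc_right v w c hlen).symm, hp, ?_, ?_, ?_, by simp, by simp⟩
            · rw [DFA.eval_append_singleton, hq]
            · simp only [ev_append, ev_single, hb, mul_assoc]
            · intro _; simp only [List.length_append, List.length_cons, List.length_nil]; omega
      | some a =>
        cases oc with
        | none =>
          cases e₀ with
          | true => cases e₀' <;> simp [cstep] at h
          | false =>
            have hlen : w.length ≤ v.length := by
              cases e₀' with
              | true => exact (h2 rfl).le
              | false => exact (h3 rfl rfl).ge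
            have h' : (if h : (ι a)⁻¹ * b₀.1 ∈ B then
                some (M.step p₀ a, q₀, (⟨_, h⟩ : {b : H // b ∈ B}), false, true) else none) =
                some (p, q, b, e, e') := by
              cases e₀' <;> exact h
            split_ifs at h' with hm
            simp only [Option.some.injEq, Prod.mk.injEq] at h'
            obtain ⟨rfl, rfl, rfl, rfl, rfl⟩ := h'
            refine ⟨v ++ [a], w, (pad_snoc_left v w a hlen).symm, ?_, hq, ?_, by simp, ?_, by simp⟩
            · rw [DFA.eval_append_singleton, hp]
            · simp only [ev_append, ev_single, hb, mul_assoc, mul_inv_rev]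
            · intro _; simp only [List.length_append, List.length_cons, List.length_nil]; omega
        | some c =>
          cases e₀ with
          | true => cases e₀' <;> simp [cstep] at h
          | false =>
            cases e₀' with
            | true => simp [cstep] at h
            | false =>
              have hlen := h3 rfl rfl
              have h' : (if h : (ι a)⁻¹ * b₀.1 * ι c ∈ B then
                  some (M.step p₀ a, M.step q₀ c, (⟨_, h⟩ : {b : H // b ∈ B}), false, false)
                  else none) = some (p, q, b, e, e') := h
              split_ifs at h' with hm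
              simp only [Option.some.injEq, Prod.mk.injEq] at h'
              obtain ⟨rfl, rfl, rfl, rfl, rfl⟩ := h'
              refine ⟨v ++ [a], w ++ [c], (pad_snoc_both v w a c hlen).symm, ?_, ?_, ?_, by simp,
                by simp, by simp [hlen]⟩
              · rw [DFA.eval_append_singleton, hp]
              · rw [DFA.eval_append_singleton, hq]
              · simp only [ev_append, ev_single, hb, mul_assoc, mul_inv_rev]

open Classical in
theorem cdfa_complete {σ : Type} (M : DFA α σ) (B : Finset H) (hB : (1 : H) ∈ B) (ι : α → H)
    (x : H) (v w : List α) (hvw : ∀ t, (ev ι (v.take t))⁻¹ * ev ι (w.take t) ∈ B) (n : ℕ) :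
    (cdfa M B hB ι x).eval (pad (v.take n) (w.take n)) =
      some (M.eval (v.take n), M.eval (w.take n), ⟨_, hvw n⟩,
        decide ((v.take n).length < (w.take n).length),
        decide ((w.take n).length < (v.take n).length)) := by
  induction n with
  | zero =>
    simp only [List.take_zero]
    change some (M.start, M.start, (⟨1, hB⟩ : {b : H // b ∈ B}), false, false) = _
    simp
  | succ n ih =>
    have hm := hvw (n + 1)
    by_cases hv : n < v.length
    · have ev1 : v.take (n + 1) = v.take n ++ [v[n]] := by
        rw [List.take_add_one, List.getElem?_eq_getElem hv]; rfl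
      have lv : (v.take n).length = n := by rw [List.length_take]; omega
      by_cases hw : n < w.length
      · have ew1 : w.take (n + 1) = w.take n ++ [w[n]] := by
          rw [List.take_add_one, List.getElem?_eq_getElem hw]; rfl
        have lw : (w.take n).length = n := by rw [List.length_take]; omega
        have hd1 : decide ((v.take n).length < (w.take n).length) = false := by simp [lv, lw]
        have hd2 : decide ((w.take n).length < (v.take n).length) = false := by simp [lv, lw]
        rw [hd1, hd2] at ih
        simp only [ev1, ew1] at hm ⊢
        rw [pad_snoc_both _ _ _ _ (by rw [lv, lw]), DFA.eval_append_singleton, ih]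
        have hm' : (ι v[n])⁻¹ * ((ev ι (v.take n))⁻¹ * ev ι (w.take n)) * ι w[n] ∈ B := by
          have e : (ι v[n])⁻¹ * ((ev ι (v.take n))⁻¹ * ev ι (w.take n)) * ι w[n] =
              (ev ι (v.take n ++ [v[n]]))⁻¹ * ev ι (w.take n ++ [w[n]]) := by
            simp only [ev_append, ev_single]; group
          rw [e]; exact hm
        change (if h : (ι v[n])⁻¹ * ((ev ι (v.take n))⁻¹ * ev ι (w.take n)) * ι w[n] ∈ B then
            some (M.step (M.eval (v.take n)) v[n], M.step (M.eval (w.take n)) w[n],
              (⟨_, h⟩ : {b : H // b ∈ B}), false, false) else none) = _
        rw [dif_pos hm']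
        simp only [DFA.eval_append_singleton, List.length_append, lv, lw, List.length_cons,
          List.length_nil, lt_irrefl, decide_false, Option.some.injEq, Prod.mk.injEq,
          Subtype.mk.injEq, and_true, true_and]
        simp only [ev_append, ev_single]; group
      · have ew1 : w.take (n + 1) = w.take n := by
          rw [List.take_of_length_le (by omega), List.take_of_length_le (by omega)]
        have lw : (w.take n).length = w.length := by rw [List.length_take]; omega
        have hd1 : decide ((v.take n).length < (w.take n).length) = false := by
          simp only [lv, lw, decide_eq_false_iff_not]; omega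
        rw [hd1] at ih
        simp only [ev1, ew1] at hm ⊢
        rw [pad_snoc_left _ _ _ (by omega), DFA.eval_append_singleton, ih]
        have hm' : (ι v[n])⁻¹ * ((ev ι (v.take n))⁻¹ * ev ι (w.take n)) ∈ B := by
          have e : (ι v[n])⁻¹ * ((ev ι (v.take n))⁻¹ * ev ι (w.take n)) =
              (ev ι (v.take n ++ [v[n]]))⁻¹ * ev ι (w.take n) := by
            simp only [ev_append, ev_single]; group
          rw [e]; exact hm
        have hstep : cstep M B (some (M.eval (v.take n), M.eval (w.take n), ⟨_, hvw n⟩, false,
            decide ((w.take n).length < (v.take n).length))) (some v[n], none) ι =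
            (if h : (ι v[n])⁻¹ * ((ev ι (v.take n))⁻¹ * ev ι (w.take n)) ∈ B then
            some (M.step (M.eval (v.take n)) v[n], M.eval (w.take n),
              (⟨_, h⟩ : {b : H // b ∈ B}), false, true) else none) := by
          cases decide ((w.take n).length < (v.take n).length) <;> rfl
        change cstep M B (some (M.eval (v.take n), M.eval (w.take n), ⟨_, hvw n⟩, false,
            decide ((w.take n).length < (v.take n).length))) (some v[n], none) ι = _
        rw [hstep, dif_pos hm']
        simp only [DFA.eval_append_singleton, List.length_append, lv, lw, List.length_cons,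
          List.length_nil, Option.some.injEq, Prod.mk.injEq, Subtype.mk.injEq, true_and]
        refine ⟨?_, ?_, ?_⟩
        · simp only [ev_append, ev_single]; group
        · symm; rw [decide_eq_false_iff_not]; omega
        · symm; rw [decide_eq_true_eq]; omega
    · have ev1 : v.take (n + 1) = v.take n := by
        rw [List.take_of_length_le (by omega), List.take_of_length_le (by omega)]
      have lv : (v.take n).length = v.length := by rw [List.length_take]; omega
      by_cases hw : n < w.length
      · have ew1 : w.take (n + 1) = w.take n ++ [w[n]] := by
          rw [List.take_add_one, List.getElem?_eq_getElem hw]; rfl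
        have lw : (w.take n).length = n := by rw [List.length_take]; omega
        have hd2 : decide ((w.take n).length < (v.take n).length) = false := by
          simp only [lv, lw, decide_eq_false_iff_not]; omega
        rw [hd2] at ih
        simp only [ev1, ew1] at hm ⊢
        rw [pad_snoc_right _ _ _ (by omega), DFA.eval_append_singleton, ih]
        have hm' : ((ev ι (v.take n))⁻¹ * ev ι (w.take n)) * ι w[n] ∈ B := by
          have e : ((ev ι (v.take n))⁻¹ * ev ι (w.take n)) * ι w[n] =
              (ev ι (v.take n))⁻¹ * ev ι (w.take n ++ [w[n]]) := by
            simp only [ev_append, ev_single]; group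
          rw [e]; exact hm
        have hstep : cstep M B (some (M.eval (v.take n), M.eval (w.take n), ⟨_, hvw n⟩,
            decide ((v.take n).length < (w.take n).length), false)) (none, some w[n]) ι =
            (if h : ((ev ι (v.take n))⁻¹ * ev ι (w.take n)) * ι w[n] ∈ B then
            some (M.eval (v.take n), M.step (M.eval (w.take n)) w[n],
              (⟨_, h⟩ : {b : H // b ∈ B}), true, false) else none) := by
          cases decide ((v.take n).length < (w.take n).length) <;> rfl
        change cstep M B (some (M.eval (v.take n), M.eval (w.take n), ⟨_, hvw n⟩,
            decide ((v.take n).length < (w.take n).length), false)) (none, some w[n]) ι = _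
        rw [hstep, dif_pos hm']
        simp only [DFA.eval_append_singleton, List.length_append, lv, lw, List.length_cons,
          List.length_nil, Option.some.injEq, Prod.mk.injEq, Subtype.mk.injEq, true_and]
        refine ⟨?_, ?_, ?_⟩
        · simp only [ev_append, ev_single]; group
        · symm; rw [decide_eq_true_eq]; omega
        · symm; rw [decide_eq_false_iff_not]; omega
      · have ew1 : w.take (n + 1) = w.take n := by
          rw [List.take_of_length_le (by omega), List.take_of_length_le (by omega)]
        simp only [ev1, ew1]
        exact ih

/-- Fellow travelling gives regularity of the padded pairs. -/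
theorem pairs_regular {σ : Type} [Fintype σ] (M : DFA α σ) (ι : α → H) (x : H) (B : Finset H)
    (hB : (1 : H) ∈ B)
    (h : ∀ v ∈ M.accepts, ∀ w ∈ M.accepts, ev ι v * x = ev ι w →
      ∀ t, (ev ι (v.take t))⁻¹ * ev ι (w.take t) ∈ B) :
    (pairs ι M.accepts x).IsRegular := by
  classical
  refine ⟨Option (σ × σ × {b : H // b ∈ B} × Bool × Bool), inferInstance, cdfa M B hB ι x, ?_⟩
  ext l
  constructor
  · rintro ⟨p, q, b, e, e', hs, hp, hq, hb⟩
    obtain ⟨v, w, rfl, rfl, rfl, hb', -, -, -⟩ := cdfa_sound M B hB ι x l p q b e e' hs
    refine ⟨v, hp, w, hq, ?_, rfl⟩
    rw [← hb, hb']; group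
  · rintro ⟨v, hv, w, hw, hx, rfl⟩
    have h1 := cdfa_complete M B hB ι x v w (h v hv w hw hx) (max v.length w.length)
    have e1 : v.take (max v.length w.length) = v := List.take_of_length_le (le_max_left _ _)
    have e2 : w.take (max v.length w.length) = w := List.take_of_length_le (le_max_right _ _)
    simp only [e1, e2] at h1
    refine ⟨_, _, _, _, _, h1, hv, hw, ?_⟩
    change (ev ι v)⁻¹ * ev ι w = x
    rw [← hx]; group

end

end Run7.h463.Padded
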