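import Pool.Agent.Run7.h463.Asym

set_option autoImplicit false

/-! The pairing argument for length functions which need not be symmetric. -/

namespace Run7.h463

open Filter Topology

/-- The exchange property of crossings. -/
def EX (ℓ : G → ℝ) : Prop :=
  ∃ (Q : Finset G) (S : Type) (_ : Fintype S) (T : S → G → G → Prop),
    (∀ σ x y, T σ x y → ℓ (x * y) = ℓ x + ℓ y) ∧
    (∀ σ x y x' y', T σ x y → T σ x' y' → ℓ (x * y') = ℓ x + ℓ y') ∧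
    ∀ g k, F g ≠ F k → ∃ m : ℤ, ∃ q ∈ Q, ∃ σ,
      T σ (g⁻¹ * vec (3 * m) 0 * q⁻¹) (q * vec (3 * (-m)) 0 * k)

namespace AL

variable {ℓ : G → ℝ} (hℓ : AL ℓ)
include hℓ

omit hℓ in
theorem target_eq (h : G) (m : ℤ) : ℓ (cc (-m) * (h * zz)⁻¹) = rev ℓ (h * cc m * zz) := by
  have : cc (-m) * (h * zz)⁻¹ = (h * cc m * zz)⁻¹ := by
    rw [mul_assoc h, ← zz_comm, ← cc_inv]; group
  rw [this]; rfl

/-- the size bound on the crossing parameter -/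
theorem size_bound {g h f : G} {σ E κ : ℝ} {m : ℤ}
    (hκ : κ * |(m : ℝ)| ≤ m * σ + ℓ (cc (-m)))
    (hlo : ∀ m : ℤ, ℓ g + m * σ - E ≤ ℓ (g * cc m))
    (hcr : ℓ (g * (h * zz)⁻¹) = ℓ (g * cc m * f) + ℓ (f⁻¹ * cc (-m) * (h * zz)⁻¹)) :
    κ * |(m : ℝ)| ≤ nu ℓ h + 2 * nu ℓ zz + E + 2 * nu ℓ f := by
  have h1 := hℓ.mul g (h * zz)⁻¹
  have h1' : ℓ (h * zz)⁻¹ ≤ ℓ h⁻¹ + nu ℓ zz := by
    rw [mul_inv_rev]
    have := hℓ.mul zz⁻¹ h⁻¹
    have := hℓ.le_nu' zz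
    linarith
  have h2 := hℓ.mul' h zz
  have h3 := hℓ.sub_le (g * cc m) f
  have h4 := hlo m
  have h5 := hℓ.sub_le' f⁻¹ (cc (-m) * (h * zz)⁻¹)
  rw [← mul_assoc] at h5
  have hnf : nu ℓ f⁻¹ = nu ℓ f := by unfold nu; rw [inv_inv]; ring
  rw [hnf] at h5
  have h6 := hℓ.mul (cc (-m) * (h * zz)⁻¹) (h * zz)
  rw [inv_mul_cancel_right] at h6
  have hnu : nu ℓ h = ℓ h + ℓ h⁻¹ := rfl
  linarith

/-- the key inequality -/
theorem key_ineq {g h f : G} {σ σ' E E' : ℝ} {m m' i : ℤ} {Λ T : ℝ}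
    (hlo : ∀ m : ℤ, ℓ g + m * σ - E ≤ ℓ (g * cc m))
    (hup : ∀ m : ℤ, |(m : ℝ)| ≤ Λ → ℓ (g * cc m) ≤ ℓ g + m * σ + E)
    (tlo : ∀ m : ℤ, rev ℓ h + m * (-σ') - E' ≤ rev ℓ (h * cc m))
    (tup : ∀ m : ℤ, |(m : ℝ)| ≤ T → rev ℓ (h * cc m) ≤ rev ℓ h + m * (-σ') + E')
    (hcone : ℓ (g * cc m * f * (f⁻¹ * cc (-m') * (h * zz)⁻¹)) =
      ℓ (g * cc m * f) + ℓ (f⁻¹ * cc (-m') * (h * zz)⁻¹))
    (hi : |((m + i : ℤ) : ℝ)| ≤ Λ) (hi' : |((m' + i : ℤ) : ℝ)| ≤ T) :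
    0 ≤ i * (σ - σ') + 2 * E + 2 * E' + 2 * nu ℓ zz + 2 * nu ℓ f := by
  have hR := hℓ.reversed
  have hnz : nu (rev ℓ) zz = nu ℓ zz := by unfold nu rev; rw [inv_inv]; ring
  have e : g * cc m * f * (f⁻¹ * cc (-m') * (h * zz)⁻¹) =
      (g * cc (m + i)) * (cc (-(m' + i)) * (h * zz)⁻¹) := by
    have h1 : cc m * cc (-m') = cc (m + i) * cc (-(m' + i)) := by
      rw [cc_mul, cc_mul]; congr 1; ring
    calc g * cc m * f * (f⁻¹ * cc (-m') * (h * zz)⁻¹) =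
        g * (cc m * cc (-m')) * (h * zz)⁻¹ := by group
      _ = _ := by rw [h1]; group
  have a1 := hℓ.mul (g * cc (m + i)) (cc (-(m' + i)) * (h * zz)⁻¹)
  rw [← e, hcone, target_eq (ℓ := ℓ)] at a1
  have a2 := hup (m + i) hi
  have a3 := hR.mul' (h * cc (m' + i)) zz
  have a4 := tup (m' + i) hi'
  have a5 := hℓ.sub_le (g * cc m) f
  have a6 := hlo m
  have a7 := hℓ.sub_le' f⁻¹ (cc (-m') * (h * zz)⁻¹)
  have hnf : nu ℓ f⁻¹ = nu ℓ f := by unfold nu; rw [inv_inv]; ring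
  rw [← mul_assoc, hnf, target_eq (ℓ := ℓ)] at a7
  have a8 := hR.sub_le (h * cc m') zz
  have a9 := tlo m'
  rw [hnz] at a3 a8
  push_cast at a2 a4
  linarith

theorem card_bound (hinv : ∃ C : ℝ, 0 ≤ C ∧ ∀ g, ℓ g ≤ C * ℓ g⁻¹) (hEX : EX ℓ) :
    ∃ N : ℕ, ∀ S : Finset ℝ,
    (∀ σ ∈ S, RealC ℓ (1 * σ) ∧ RealC (rev ℓ) (-1 * σ) ∧ σ < tp ℓ ∧ -tp (rev ℓ) < σ) →
      S.card ≤ N := by
  classical
  obtain ⟨Q, St, _, TT, hT1, hT2, hT3⟩ := hEX
  obtain ⟨Ci, hCi0, hCi⟩ := hinv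
  set F' : Finset G := Q.image (fun q => s⁻¹ * q⁻¹) with hF'def
  have hF' : ∀ g h, G0 g → G0 h → ∃ m : ℤ, ∃ f ∈ F', ∃ σ : St,
      TT σ (g * cc m * f) (f⁻¹ * cc (-m) * (h * zz)⁻¹) := by
    intro g h hg hh
    have hF : F (s * g⁻¹) ≠ F (s * (h * zz)⁻¹) := by
      rw [hg.2.2, F_s_zz hh]; norm_num
    obtain ⟨m, q, hq, σ, hm⟩ := hT3 _ _ hF
    refine ⟨m, s⁻¹ * q⁻¹, Finset.mem_image.2 ⟨q, hq, rfl⟩, σ, ?_⟩
    have e2 : (s * g⁻¹)⁻¹ * vec (3 * m) 0 * q⁻¹ = g * cc m * (s⁻¹ * q⁻¹) := by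
      have h1 : s⁻¹ * vec (3 * m) 0 = cc m * s⁻¹ := sinv_mul_vec m
      calc (s * g⁻¹)⁻¹ * vec (3 * m) 0 * q⁻¹ = g * (s⁻¹ * vec (3 * m) 0) * q⁻¹ := by group
        _ = _ := by rw [h1]; group
    have e3 : q * vec (3 * (-m)) 0 * (s * (h * zz)⁻¹) =
        (s⁻¹ * q⁻¹)⁻¹ * cc (-m) * (h * zz)⁻¹ := by
      have h1 : vec (3 * (-m)) 0 * s = s * cc (-m) := (s_mul_cc (-m)).symm
      calc q * vec (3 * (-m)) 0 * (s * (h * zz)⁻¹) =
          q * (vec (3 * (-m)) 0 * s) * (h * zz)⁻¹ := by group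
        _ = _ := by rw [h1]; group
    rw [e2, e3] at hm
    exact hm
  refine ⟨(F' ×ˢ (Finset.univ : Finset Bool) ×ˢ (Finset.univ : Finset St)).card, fun S hS => ?_⟩
  -- constants
  obtain ⟨γ, hγ0, hγ⟩ : ∃ γ : ℝ, 0 < γ ∧ ∀ σ ∈ S, ∀ σ' ∈ S, σ' < σ → γ ≤ σ - σ' := by
    obtain ⟨γ, h0, h1⟩ := exists_pos_lb
      (((S ×ˢ S).filter (fun p => p.2 < p.1)).image (fun p => p.1 - p.2)) (by
        intro t ht
        rw [Finset.mem_image] at ht
        obtain ⟨p, hp, rfl⟩ := ht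
        rw [Finset.mem_filter] at hp
        linarith [hp.2])
    refine ⟨γ, h0, fun σ hσ σ' hσ' hlt => h1 _ ?_⟩
    rw [Finset.mem_image]
    exact ⟨(σ, σ'), by rw [Finset.mem_filter, Finset.mem_product]; exact ⟨⟨hσ, hσ'⟩, hlt⟩, rfl⟩
  obtain ⟨κ, hκ0, hκ⟩ : ∃ κ : ℝ, 0 < κ ∧ ∀ σ ∈ S, κ ≤ tp ℓ - σ ∧ κ ≤ σ + tp (rev ℓ) := by
    obtain ⟨κ, h0, h1⟩ := exists_pos_lb
      (S.image (fun σ => tp ℓ - σ) ∪ S.image (fun σ => σ + tp (rev ℓ))) (by
        intro t ht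
        rw [Finset.mem_union, Finset.mem_image, Finset.mem_image] at ht
        rcases ht with ⟨σ, hσ, rfl⟩ | ⟨σ, hσ, rfl⟩
        · linarith [(hS σ hσ).2.2.1]
        · linarith [(hS σ hσ).2.2.2])
    refine ⟨κ, h0, fun σ hσ => ⟨h1 _ ?_, h1 _ ?_⟩⟩
    · exact Finset.mem_union_left _ (Finset.mem_image.2 ⟨σ, hσ, rfl⟩)
    · exact Finset.mem_union_right _ (Finset.mem_image.2 ⟨σ, hσ, rfl⟩)
  have hκ' : ∀ σ ∈ S, ∀ m : ℤ, κ * |(m : ℝ)| ≤ m * σ + ℓ (cc (-m)) := by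
    intro σ hσ m
    have b1 := hℓ.tp_le_int (-m)
    have b2 := hℓ.tm_le_int (-m)
    obtain ⟨b3, b4⟩ := hκ σ hσ
    push_cast at b1 b2
    rcases abs_cases (m : ℝ) with ⟨e, h0⟩ | ⟨e, h0⟩
    · rw [e]; nlinarith
    · rw [e]; nlinarith
  set ε := γ / 8 with hε
  have hε0 : 0 < ε := by positivity
  obtain ⟨K₁, hK₁0, L₁, hT⟩ := uniform S (-1) (fun σ hσ => (hS σ hσ).2.1) ε hε0
  set Cf := ∑ f ∈ F', nu ℓ f with hCf
  have hCf0 : 0 ≤ Cf := Finset.sum_nonneg fun f _ => hℓ.nu_nonneg f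
  have hCf1 : ∀ f ∈ F', nu ℓ f ≤ Cf := fun f hf =>
    Finset.single_le_sum (f := fun f => nu ℓ f) (fun i _ => hℓ.nu_nonneg _) hf
  have hz0 := hℓ.nu_nonneg zz
  -- K₃
  obtain ⟨K₃, hK₃⟩ := exists_nat_ge (1 + 2 * ((Ci + 1) * K₁ + 1 + ε) / κ)
  have hCK : 0 ≤ (Ci + 1) * K₁ := mul_nonneg (by linarith) hK₁0
  have hK₃1 : (1 : ℝ) ≤ K₃ := by
    have : 0 ≤ 2 * ((Ci + 1) * K₁ + 1 + ε) / κ := by positivity
    linarith
  have hK₃0 : (0 : ℝ) < K₃ := by linarith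
  obtain ⟨_, _, L₂, hSrc⟩ := uniform S 1 (fun σ hσ => (hS σ hσ).1) (ε / K₃) (by positivity)
  obtain ⟨N₁, hN₁⟩ := exists_nat_gt (2 * nu ℓ zz + 2 * Cf)
  obtain ⟨N₂, hN₂⟩ := exists_nat_gt ((2 * nu ℓ zz + 2 * Cf) * 2 / γ)
  set T := L₁ + L₂ + N₁ + N₂ + 1 with hTdef
  have hTT1 : (1 : ℝ) ≤ T := by
    have : 1 ≤ T := by omega
    exact_mod_cast this
  have hTN₁ : (N₁ : ℝ) ≤ T := by
    have : N₁ ≤ T := by omega
    exact_mod_cast this
  have hTN₂ : (N₂ : ℝ) ≤ T := by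
    have : N₂ ≤ T := by omega
    exact_mod_cast this
  have hK₃1' : 1 ≤ K₃ := by exact_mod_cast hK₃1
  -- choose data
  have data : ∀ σ : S, ∃ g h f : G, ∃ m : ℤ, ∃ q : St, G0 g ∧ G0 h ∧ f ∈ F' ∧
      (∀ m : ℤ, ℓ g + m * σ - ε * T ≤ ℓ (g * cc m)) ∧
      (∀ m : ℤ, |(m : ℝ)| ≤ K₃ * T → ℓ (g * cc m) ≤ ℓ g + m * σ + ε * T) ∧
      (∀ m : ℤ, rev ℓ h + m * (-σ) - ε * T ≤ rev ℓ (h * cc m)) ∧
      (∀ m : ℤ, |(m : ℝ)| ≤ T → rev ℓ (h * cc m) ≤ rev ℓ h + m * (-σ) + ε * T) ∧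
      TT q (g * cc m * f) (f⁻¹ * cc (-m) * (h * zz)⁻¹) ∧
      2 * |(m : ℝ)| + T ≤ K₃ * T := by
    rintro ⟨σ, hσ⟩
    obtain ⟨g, hg, -, g1, g2⟩ := hSrc σ hσ (K₃ * T) (by nlinarith)
    obtain ⟨h, hh, hhK, h1, h2⟩ := hT σ hσ T (by omega)
    obtain ⟨m, f, hf, q, hcr⟩ := hF' g h hg hh
    have hc : ε / K₃ * ((K₃ * T : ℕ) : ℝ) = ε * T := by
      push_cast; field_simp
    have hc2 : ((K₃ * T : ℕ) : ℝ) = K₃ * T := by push_cast; ring
    rw [hc] at g1 g2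
    rw [hc2] at g2
    have hcr' := hT1 _ _ _ hcr
    have e : g * cc m * f * (f⁻¹ * cc (-m) * (h * zz)⁻¹) = g * (h * zz)⁻¹ := by
      rw [← cc_inv]; group
    rw [e] at hcr'
    have hs := hℓ.size_bound (κ := κ) (hκ' σ hσ m) (fun m => by
        have := g1 m
        rwa [one_mul] at this) hcr'
    have hf1 := hCf1 f hf
    have hnuh : nu ℓ h ≤ (Ci + 1) * K₁ * T := by
      have a1 := hCi h
      have a2 : ℓ h⁻¹ ≤ K₁ * T := hhK
      have a3 : Ci * ℓ h⁻¹ ≤ Ci * (K₁ * T) := mul_le_mul_of_nonneg_left a2 hCi0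
      unfold nu
      linarith
    refine ⟨g, h, f, m, q, hg, hh, hf, ?_, ?_, ?_, ?_, hcr, ?_⟩
    · intro m; have := g1 m; rwa [one_mul] at this
    · intro m hm; have := g2 m hm; rwa [one_mul] at this
    · intro m; have := h1 m; rwa [neg_one_mul] at this
    · intro m hm; have := h2 m hm; rwa [neg_one_mul] at this
    · have a1 : κ * |(m : ℝ)| ≤ ((Ci + 1) * K₁ + 1 + ε) * T := by
        have : 2 * nu ℓ zz + 2 * Cf ≤ T := le_trans hN₁.le hTN₁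
        nlinarith
      have a2 : 2 * |(m : ℝ)| ≤ 2 * ((Ci + 1) * K₁ + 1 + ε) / κ * T := by
        rw [div_mul_eq_mul_div, le_div_iff₀ hκ0]
        linarith
      have a3 : (1 + 2 * ((Ci + 1) * K₁ + 1 + ε) / κ) * T ≤ K₃ * T :=
        mul_le_mul_of_nonneg_right hK₃ (by linarith)
      linarith
  choose g h f m q hg hh hf gl gu hl hu hcr hsz using data
  -- the invariant
  let inv : S → G × Bool × St := fun σ => (f σ, decide (0 < m σ), q σ)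
  have hinj : ∀ σ σ' : S, (σ' : ℝ) < σ → inv σ ≠ inv σ' := by
    intro σ σ' hlt heq
    simp only [inv, Prod.mk.injEq, decide_eq_decide] at heq
    obtain ⟨e1, e2, e3⟩ := heq
    have hgap := hγ σ σ.2 σ' σ'.2 hlt
    have hTc : (2 * nu ℓ zz + 2 * Cf) * 2 < γ * T := by
      have := lt_of_lt_of_le hN₂ hTN₂
      rw [div_lt_iff₀ hγ0] at this
      linarith
    -- cone transfers
    have cone : ∀ a b : S, f a = f b → q a = q b →
        ℓ (g b * cc (m b) * f b * ((f b)⁻¹ * cc (-(m a)) * (h a * zz)⁻¹)) =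
        ℓ (g b * cc (m b) * f b) + ℓ ((f b)⁻¹ * cc (-(m a)) * (h a * zz)⁻¹) := by
      intro a b hfab hqab
      have c1 := hcr a
      have c2 := hcr b
      rw [hfab, hqab] at c1
      exact hT2 _ _ _ _ _ c2 c1
    have size : ∀ a : S, 2 * |(m a : ℝ)| + T ≤ K₃ * T := hsz
    by_cases hpos : 0 < m σ
    · have hpos' : 0 < m σ' := e2.1 hpos
      have c := cone σ' σ e1.symm e3.symm
      have k := hℓ.key_ineq (i := -(T : ℤ) - m σ') (gl σ) (gu σ) (hl σ') (hu σ') c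
        (by
          have s1 := size σ
          have s2 := size σ'
          have t1 : |((m σ + (-(T : ℤ) - m σ') : ℤ) : ℝ)| ≤ |(m σ : ℝ)| + T + |(m σ' : ℝ)| := by
            push_cast
            rw [abs_le]
            have := neg_abs_le (m σ : ℝ)
            have := le_abs_self (m σ : ℝ)
            have := neg_abs_le (m σ' : ℝ)
            have := le_abs_self (m σ' : ℝ)
            constructor <;> linarith
          linarith)
        (by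
          push_cast
          have : (m σ' : ℝ) + (-(T : ℝ) - m σ') = -T := by ring
          rw [this, abs_neg, Nat.abs_cast])
      have hfb := hCf1 (f σ) (hf σ)
      have hm' : (0 : ℝ) < m σ' := by exact_mod_cast hpos'
      push_cast at k
      have b1 : (-(T : ℝ) - m σ') * (σ - σ') ≤ -T * γ := by nlinarith
      nlinarith
    · have hpos' : ¬ 0 < m σ' := fun hh => hpos (e2.2 hh)
      have c := cone σ σ' e1 e3
      have k := hℓ.key_ineq (i := (T : ℤ) - m σ) (gl σ') (gu σ') (hl σ) (hu σ) c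
        (by
          have s1 := size σ
          have s2 := size σ'
          have t1 : |((m σ' + ((T : ℤ) - m σ) : ℤ) : ℝ)| ≤ |(m σ : ℝ)| + T + |(m σ' : ℝ)| := by
            push_cast
            rw [abs_le]
            have := neg_abs_le (m σ : ℝ)
            have := le_abs_self (m σ : ℝ)
            have := neg_abs_le (m σ' : ℝ)
            have := le_abs_self (m σ' : ℝ)
            constructor <;> linarith
          linarith)
        (by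
          push_cast
          have : (m σ : ℝ) + ((T : ℝ) - m σ) = T := by ring
          rw [this, Nat.abs_cast])
      have hfb := hCf1 (f σ') (hf σ')
      have hm' : (m σ : ℝ) ≤ 0 := by
        have : m σ ≤ 0 := by omega
        exact_mod_cast this
      push_cast at k
      have b1 : ((T : ℝ) - m σ) * (σ' - σ) ≤ -T * γ := by nlinarith
      nlinarith
  have hinj' : Function.Injective inv := by
    intro a b hab
    by_contra hne
    rcases lt_or_gt_of_ne (fun hh : (a : ℝ) = b => hne (Subtype.ext hh)) with h1 | h1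
    · exact hinj b a h1 hab.symm
    · exact hinj a b h1 hab
  have hcard : (Finset.univ.image inv).card = S.card := by
    rw [Finset.card_image_of_injective _ hinj', Finset.card_univ, Fintype.card_coe]
  rw [← hcard]
  apply Finset.card_le_card
  intro p hp
  rw [Finset.mem_image] at hp
  obtain ⟨σ, -, rfl⟩ := hp
  simp only [inv, Finset.mem_product, Finset.mem_univ, and_true]
  exact hf σ

end AL

/-- the set of slopes -/
def ASig (ℓ : G → ℝ) : Set ℝ := {σ | RealL ℓ σ ∧ RealL (rev ℓ) (-σ)}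

namespace AL

variable {ℓ : G → ℝ} (hℓ : AL ℓ)
include hℓ

theorem sig_step {σ : ℝ} (hσ : σ ∈ ASig ℓ) :
    RealC ℓ σ ∧ RealC (rev ℓ) (-σ) ∧
      ∃ σ' ∈ ASig ℓ, ∃ σ'' ∈ ASig ℓ, 3 * σ = 2 * (σ' + σ'') := by
  obtain ⟨θ, h1, h2⟩ := hℓ.half_plane (hℓ.slope_cc (hℓ.slope_le hσ.1))
  have r1 := h1 hσ.1
  have r2 := h2 hσ.2
  refine ⟨?_, ?_, ?_⟩
  · have := realC_of_real2 r1
    have e : 2 * (θ + (σ / 2 - θ)) = σ := by ring
    rwa [e] at this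
  · have := realC_of_real2 r2
    have e : 2 * (-θ + -(σ / 2 - θ)) = -σ := by ring
    rwa [e] at this
  · have u1 := hℓ.up r1
    have u2 := hℓ.reversed.up r2
    refine ⟨3 * θ, ⟨u1.1, ?_⟩, 3 * (σ / 2 - θ), ⟨u1.2, ?_⟩, by ring⟩
    · have := u2.1; rwa [mul_neg] at this
    · have := u2.2; rwa [mul_neg] at this

theorem sig_finite (hinv : ∃ C : ℝ, 0 ≤ C ∧ ∀ g, ℓ g ≤ C * ℓ g⁻¹) (hEX : EX ℓ) :
    (ASig ℓ).Finite := by
  obtain ⟨N, hN⟩ := hℓ.card_bound hinv hEX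
  have h1 : ({σ | σ ∈ ASig ℓ ∧ σ < tp ℓ ∧ -tp (rev ℓ) < σ} : Set ℝ).Finite := by
    by_contra hinf
    obtain ⟨S, hS, hcard⟩ := Set.Infinite.exists_subset_card_eq hinf (N + 1)
    have := hN S (fun σ hσ => by
      have h := hS hσ
      have h2 := hℓ.sig_step h.1
      rw [one_mul, neg_one_mul]
      exact ⟨h2.1, h2.2.1, h.2⟩)
    omega
  refine (h1.union (Set.toFinite ({tp ℓ, -tp (rev ℓ)} : Set ℝ))).subset fun σ hσ => ?_
  have hle := hℓ.slope_le hσ.1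
  rcases lt_or_eq_of_le hle.1 with h | h
  · rcases lt_or_eq_of_le hle.2 with h' | h'
    · exact Or.inl ⟨hσ, h, h'⟩
    · right; right; exact h'.symm
  · right; left; exact h

theorem contra (hinv : ∃ C : ℝ, 0 ≤ C ∧ ∀ g, ℓ g ≤ C * ℓ g⁻¹) (hEX : EX ℓ) : False := by
  have hfin := hℓ.sig_finite hinv hEX
  set N : Submodule ℤ ℝ := Submodule.span ℤ (ASig ℓ) with hN
  have hfg : N.FG := by
    have := Submodule.fg_span (R := ℤ) hfin
    exact this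
  have hle : N ≤ (Ideal.span {(2 : ℤ)}) • N := by
    rw [hN, Submodule.span_le]
    intro σ hσ
    obtain ⟨-, -, σ', h', σ'', h'', e⟩ := hℓ.sig_step hσ
    have e2 : σ = (2 : ℤ) • (σ' + σ'' - σ) := by
      rw [zsmul_eq_mul]; push_cast; linarith
    have hmem : σ' + σ'' - σ ∈ Submodule.span ℤ (ASig ℓ) :=
      Submodule.sub_mem _ (Submodule.add_mem _ (Submodule.subset_span h') (Submodule.subset_span h''))
        (Submodule.subset_span hσ)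
    have := Submodule.smul_mem_smul (I := Ideal.span {(2 : ℤ)})
      (Ideal.mem_span_singleton_self (2 : ℤ)) hmem
    rw [← e2] at this
    exact this
  obtain ⟨r, hr, hr2⟩ := Submodule.exists_sub_one_mem_and_smul_eq_zero_of_fg_of_le_smul _ N hfg hle
  have h3 := hr2 (tp ℓ) (Submodule.subset_span ⟨hℓ.base_pos, hℓ.base_neg⟩)
  have htc := hℓ.tp_pos
  rw [zsmul_eq_mul] at h3
  have h4 : (r : ℝ) = 0 := by
    rcases mul_eq_zero.1 h3 with h | h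
    · exact h
    · exact (htc.ne' h).elim
  have h5 : r = 0 := by exact_mod_cast h4
  rw [h5, Ideal.mem_span_singleton] at hr
  omega

end AL

end Run7.h463
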