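import Pool.Agent.Run7.h463.Finish

set_option autoImplicit false

/-! The analysis for length functions which need not be symmetric. -/

namespace Run7.h463

open Filter Topology

/-- The reversed length. -/
def rev (ℓ : G → ℝ) : G → ℝ := fun g => ℓ g⁻¹

theorem rev_rev (ℓ : G → ℝ) : rev (rev ℓ) = ℓ := by
  funext g; simp [rev]

/-- Hypotheses on a length function, not assumed symmetric. -/
structure AL (ℓ : G → ℝ) : Prop where
  one : ℓ 1 = 0
  nonneg : ∀ g, 0 ≤ ℓ g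
  mul : ∀ g h, ℓ (g * h) ≤ ℓ g + ℓ h
  cross : ∃ Q : Finset G, ∀ g k, F g ≠ F k → ∃ m : ℤ, ∃ q ∈ Q,
    ℓ (g⁻¹ * k) = ℓ (g⁻¹ * vec (3 * m) 0 * q⁻¹) + ℓ (q * vec (3 * (-m)) 0 * k)
  undist : ∃ κ : ℝ, 0 < κ ∧ ∀ m : ℤ, κ * |(m : ℝ)| ≤ ℓ (vec (2 * m) (2 * m))

/-- symmetrised length, used for constants -/
def nu (ℓ : G → ℝ) (g : G) : ℝ := ℓ g + ℓ g⁻¹

/-- translation length in the positive direction -/
noncomputable def tp (ℓ : G → ℝ) : ℝ := sInf ((fun n : ℕ => ℓ (cc n) / n) '' Set.Ici 1)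

namespace AL

theorem reversed {ℓ : G → ℝ} (hℓ : AL ℓ) : AL (rev ℓ) where
  one := by simp [rev, hℓ.one]
  nonneg g := hℓ.nonneg _
  mul g h := by
    unfold rev
    rw [mul_inv_rev]
    have := hℓ.mul h⁻¹ g⁻¹
    linarith
  cross := by
    obtain ⟨Q, hQ⟩ := hℓ.cross
    refine ⟨Q, fun g k hgk => ?_⟩
    obtain ⟨m, q, hq, h⟩ := hQ k g hgk.symm
    refine ⟨m, q, hq, ?_⟩
    unfold rev
    have e1 : (g⁻¹ * k)⁻¹ = k⁻¹ * g := by group
    have e2 : (g⁻¹ * vec (3 * m) 0 * q⁻¹)⁻¹ = q * vec (3 * (-m)) 0 * g := by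
      have : vec (3 * (-m)) 0 = (vec (3 * m) 0)⁻¹ := by rw [vec_inv, mul_neg, neg_zero]
      rw [this]; group
    have e3 : (q * vec (3 * (-m)) 0 * k)⁻¹ = k⁻¹ * vec (3 * m) 0 * q⁻¹ := by
      have : vec (3 * (-m)) 0 = (vec (3 * m) 0)⁻¹ := by rw [vec_inv, mul_neg, neg_zero]
      rw [this]; group
    rw [e1, e2, e3, h]; ring
  undist := by
    obtain ⟨κ, hκ, h⟩ := hℓ.undist
    refine ⟨κ, hκ, fun m => ?_⟩
    have := h (-m)
    unfold rev
    have e : (vec (2 * m) (2 * m))⁻¹ = vec (2 * (-m)) (2 * (-m)) := by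
      rw [vec_inv]; congr 1 <;> ring
    rw [e]
    push_cast at this
    rwa [abs_neg] at this

variable {ℓ : G → ℝ} (hℓ : AL ℓ)
include hℓ

theorem nu_nonneg (g : G) : 0 ≤ nu ℓ g := add_nonneg (hℓ.nonneg _) (hℓ.nonneg _)

theorem le_nu (g : G) : ℓ g ≤ nu ℓ g := by
  have := hℓ.nonneg g⁻¹
  unfold nu; linarith

theorem le_nu' (g : G) : ℓ g⁻¹ ≤ nu ℓ g := by
  have := hℓ.nonneg g
  unfold nu; linarith

theorem mul' (g h : G) : ℓ (g * h) ≤ ℓ g + nu ℓ h := by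
  have := hℓ.mul g h
  have := hℓ.le_nu h
  linarith

theorem sub_le (g h : G) : ℓ g - nu ℓ h ≤ ℓ (g * h) := by
  have := hℓ.mul (g * h) h⁻¹
  rw [mul_inv_cancel_right] at this
  have := hℓ.le_nu' h
  linarith

theorem sub_le' (g h : G) : ℓ h - nu ℓ g ≤ ℓ (g * h) := by
  have := hℓ.mul g⁻¹ (g * h)
  rw [inv_mul_cancel_left] at this
  have := hℓ.le_nu' g
  linarith

theorem vec_mul_nat (x y : ℤ) (n : ℕ) : ℓ (vec (n * x) (n * y)) ≤ n * ℓ (vec x y) := by
  induction n with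
  | zero => simp [hℓ.one]
  | succ n ih =>
    have h := hℓ.mul (vec (n * x) (n * y)) (vec x y)
    rw [vec_mul] at h
    have e1 : ((n + 1 : ℕ) : ℤ) * x = n * x + x := by push_cast; ring
    have e2 : ((n + 1 : ℕ) : ℤ) * y = n * y + y := by push_cast; ring
    rw [e1, e2]
    push_cast
    linarith

theorem vecx_bound (x : ℤ) : ℓ (vec x 0) ≤ |(x : ℝ)| * nu ℓ (vec 1 0) := by
  obtain ⟨n, rfl | rfl⟩ := Int.eq_nat_or_neg x
  · have h1 := hℓ.vec_mul_nat 1 0 n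
    have h2 := hℓ.le_nu (vec 1 0)
    have h3 : (0 : ℝ) ≤ n := Nat.cast_nonneg n
    simp only [mul_one, mul_zero] at h1
    simp only [Int.cast_natCast, Nat.abs_cast]
    nlinarith
  · have h1 := hℓ.vec_mul_nat (-1) 0 n
    have h2 := hℓ.le_nu' (vec 1 0)
    have h3 : (0 : ℝ) ≤ n := Nat.cast_nonneg n
    rw [vec_inv, neg_zero] at h2
    simp only [mul_neg, mul_one, mul_zero] at h1
    simp only [Int.cast_neg, Int.cast_natCast, abs_neg, Nat.abs_cast]
    nlinarith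

theorem vecy_bound (y : ℤ) : ℓ (vec 0 y) ≤ |(y : ℝ)| * nu ℓ (vec 0 1) := by
  obtain ⟨n, rfl | rfl⟩ := Int.eq_nat_or_neg y
  · have h1 := hℓ.vec_mul_nat 0 1 n
    have h2 := hℓ.le_nu (vec 0 1)
    have h3 : (0 : ℝ) ≤ n := Nat.cast_nonneg n
    simp only [mul_one, mul_zero] at h1
    simp only [Int.cast_natCast, Nat.abs_cast]
    nlinarith
  · have h1 := hℓ.vec_mul_nat 0 (-1) n
    have h2 := hℓ.le_nu' (vec 0 1)
    have h3 : (0 : ℝ) ≤ n := Nat.cast_nonneg n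
    rw [vec_inv, neg_zero] at h2
    simp only [mul_neg, mul_one, mul_zero] at h1
    simp only [Int.cast_neg, Int.cast_natCast, abs_neg, Nat.abs_cast]
    nlinarith

theorem vec_bound (x y : ℤ) :
    ℓ (vec x y) ≤ (|(x : ℝ)| + |(y : ℝ)|) * (nu ℓ (vec 1 0) + nu ℓ (vec 0 1)) := by
  have hx := hℓ.vecx_bound x
  have hy := hℓ.vecy_bound y
  have h := hℓ.mul (vec x 0) (vec 0 y)
  rw [vec_mul, add_zero, zero_add] at h
  have h1 := hℓ.nu_nonneg (vec 1 0)
  have h2 := hℓ.nu_nonneg (vec 0 1)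
  have h3 := abs_nonneg (x : ℝ)
  have h4 := abs_nonneg (y : ℝ)
  nlinarith [mul_nonneg h3 h2, mul_nonneg h4 h1]

theorem subadd : Subadditive (fun n : ℕ => ℓ (cc n)) := by
  intro m n
  have := hℓ.mul (cc m) (cc n)
  rw [cc_mul] at this
  push_cast
  exact this

theorem bdd : BddBelow (Set.range fun n : ℕ => ℓ (cc n) / n) := by
  refine ⟨0, ?_⟩
  rintro _ ⟨n, rfl⟩
  exact div_nonneg (hℓ.nonneg _) (Nat.cast_nonneg n)

theorem tp_eq : tp ℓ = hℓ.subadd.lim := by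
  rw [Subadditive.lim, tp]

theorem tp_le (n : ℕ) : tp ℓ * n ≤ ℓ (cc n) := by
  rcases Nat.eq_zero_or_pos n with rfl | hn
  · simpa using hℓ.nonneg _
  · have h := hℓ.subadd.lim_le_div hℓ.bdd (n := n) (by omega)
    rw [← hℓ.tp_eq] at h
    rwa [le_div_iff₀ (by exact_mod_cast hn)] at h

theorem tp_pos : 0 < tp ℓ := by
  obtain ⟨κ, hκ, h⟩ := hℓ.undist
  apply lt_of_lt_of_le hκ
  apply le_csInf
  · exact ⟨_, 1, by simp, rfl⟩
  · rintro _ ⟨n, hn, rfl⟩
    have hn1 : (1 : ℕ) ≤ n := hn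
    have hn0 : (0 : ℝ) < n := by exact_mod_cast hn1
    change κ ≤ ℓ (cc n) / n
    rw [le_div_iff₀ hn0]
    have := h n
    simpa [cc] using this

/-- lower bound for all integers -/
theorem tp_le_int (m : ℤ) : tp ℓ * m ≤ ℓ (cc m) := by
  obtain ⟨n, rfl | rfl⟩ := Int.eq_nat_or_neg m
  · simpa using hℓ.tp_le n
  · have h1 := hℓ.tp_pos
    have h2 := hℓ.nonneg (cc (-(n : ℤ)))
    have h3 : (0 : ℝ) ≤ n := Nat.cast_nonneg n
    push_cast
    nlinarith

theorem tm_le_int (m : ℤ) : -(tp (rev ℓ) * m) ≤ ℓ (cc m) := by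
  have := hℓ.reversed.tp_le_int (-m)
  unfold rev at this
  rw [cc_inv, neg_neg] at this
  push_cast at this
  have e : tp (fun g => ℓ g⁻¹) = tp (rev ℓ) := rfl
  rw [e] at this
  linarith

theorem tp_ge (δ : ℝ) (hδ : 0 < δ) : ∃ C : ℝ, 0 ≤ C ∧ ∀ n : ℕ, ℓ (cc n) ≤ (tp ℓ + δ) * n + C := by
  have h := hℓ.subadd.tendsto_lim hℓ.bdd
  rw [← hℓ.tp_eq] at h
  have h2 : ∀ᶠ n : ℕ in atTop, ℓ (cc n) / n < tp ℓ + δ :=
    h.eventually_lt_const (by linarith)
  obtain ⟨N, hN⟩ := eventually_atTop.1 h2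
  have tc0 := hℓ.tp_pos
  refine ⟨∑ i ∈ Finset.range (N + 1), ℓ (cc i), Finset.sum_nonneg fun i _ => hℓ.nonneg _,
    fun n => ?_⟩
  have hs : 0 ≤ ∑ i ∈ Finset.range (N + 1), ℓ (cc i) := Finset.sum_nonneg fun i _ => hℓ.nonneg _
  by_cases hn : n < N + 1
  · have : ℓ (cc n) ≤ ∑ i ∈ Finset.range (N + 1), ℓ (cc i) :=
      Finset.single_le_sum (f := fun i : ℕ => ℓ (cc i)) (fun i _ => hℓ.nonneg _)
        (Finset.mem_range.2 hn)
    have : 0 ≤ (tp ℓ + δ) * n := mul_nonneg (by linarith) (Nat.cast_nonneg n)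
    linarith
  · have h3 := hN n (by omega)
    have hn0 : (0 : ℝ) < n := by
      have : 0 < n := by omega
      exact_mod_cast this
    rw [div_lt_iff₀ hn0] at h3
    linarith

/-- the positive base slope -/
theorem base_pos : RealL ℓ (tp ℓ) := by
  intro ε hε
  obtain ⟨C, hC0, hC⟩ := hℓ.tp_ge (ε / 4) (by linarith)
  obtain ⟨N, hN⟩ := exists_nat_ge (4 * C / ε)
  have htc := hℓ.tp_pos
  refine ⟨tp ℓ + ε / 4 + C, N + 1, fun L hL => ⟨cc L, Mem_vec _ _, ?_, ?_, ?_, ?_⟩⟩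
  all_goals
    have hL1 : (1 : ℝ) ≤ L := by
      have : 1 ≤ L := by omega
      exact_mod_cast this
    have hLN : (N : ℝ) ≤ L := by
      have : N ≤ L := by omega
      exact_mod_cast this
    have hCL : C ≤ ε / 4 * L := by
      have : 4 * C / ε ≤ L := le_trans hN hLN
      rw [div_le_iff₀ hε] at this
      linarith
    have hg1 : ℓ (cc L) ≤ (tp ℓ + ε / 4) * L + C := hC L
    have hg2 : tp ℓ * L ≤ ℓ (cc L) := hℓ.tp_le L
  · nlinarith
  · intro m
    rw [cc_mul]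
    have h1 := hℓ.tp_le_int (L + m)
    push_cast at h1
    nlinarith
  · intro m hm
    rw [cc_mul]
    rw [abs_le] at hm
    have hm1 : -(L : ℤ) ≤ m := by exact_mod_cast hm.1
    obtain ⟨n, hn⟩ := Int.eq_ofNat_of_zero_le (show 0 ≤ (L : ℤ) + m by omega)
    have h1 := hC n
    rw [hn]
    have h2 : (n : ℝ) = L + m := by
      have : (((L : ℤ) + m : ℤ) : ℝ) = ((n : ℤ) : ℝ) := by rw [hn]
      push_cast at this
      linarith
    rw [h2] at h1
    have h4 : (L : ℝ) + m ≤ 2 * L := by linarith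
    nlinarith
  · intro x y
    refine ⟨-L, ?_⟩
    rw [cc_mul, add_neg_cancel, cc_zero, hℓ.one, cc_mul_vec]
    have e1 : x - 2 * -(L : ℤ) = x + 2 * L := by ring
    have e2 : y - 2 * -(L : ℤ) = y + 2 * L := by ring
    rw [e1, e2]
    nlinarith

/-- the negative base slope of the reversed length -/
theorem base_neg : RealL (rev ℓ) (-tp ℓ) := by
  intro ε hε
  obtain ⟨C, hC0, hC⟩ := hℓ.tp_ge (ε / 4) (by linarith)
  obtain ⟨N, hN⟩ := exists_nat_ge (4 * C / ε)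
  have htc := hℓ.tp_pos
  have hr : ∀ m : ℤ, rev ℓ (cc m) = ℓ (cc (-m)) := fun m => by rw [rev, cc_inv]
  refine ⟨tp ℓ + ε / 4 + C, N + 1, fun L hL => ⟨cc (-L), Mem_vec _ _, ?_, ?_, ?_, ?_⟩⟩
  all_goals
    have hL1 : (1 : ℝ) ≤ L := by
      have : 1 ≤ L := by omega
      exact_mod_cast this
    have hLN : (N : ℝ) ≤ L := by
      have : N ≤ L := by omega
      exact_mod_cast this
    have hCL : C ≤ ε / 4 * L := by
      have : 4 * C / ε ≤ L := le_trans hN hLN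
      rw [div_le_iff₀ hε] at this
      linarith
    have hg1 : ℓ (cc L) ≤ (tp ℓ + ε / 4) * L + C := hC L
    have hg2 : tp ℓ * L ≤ ℓ (cc L) := hℓ.tp_le L
  · rw [hr, neg_neg]; nlinarith
  · intro m
    rw [cc_mul, hr, hr, neg_neg]
    have h1 := hℓ.tp_le_int (-(-L + m))
    push_cast at h1
    nlinarith
  · intro m hm
    rw [cc_mul, hr, hr, neg_neg]
    rw [abs_le] at hm
    have hm1 : m ≤ (L : ℤ) := by exact_mod_cast hm.2
    obtain ⟨n, hn⟩ := Int.eq_ofNat_of_zero_le (show 0 ≤ -(-(L : ℤ) + m) by omega)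
    have h1 := hC n
    rw [hn]
    have h2 : (n : ℝ) = L - m := by
      have : ((-(-(L : ℤ) + m) : ℤ) : ℝ) = ((n : ℤ) : ℝ) := by rw [hn]
      push_cast at this
      linarith
    rw [h2] at h1
    have h4 : (L : ℝ) - m ≤ 2 * L := by linarith
    nlinarith
  · intro x y
    refine ⟨L, ?_⟩
    rw [cc_mul, neg_add_cancel, cc_zero, cc_mul_vec]
    have h0 : rev ℓ 1 = 0 := by simp [rev, hℓ.one]
    have e1 : x + 2 * -(L : ℤ) = x - 2 * L := by ring
    have e2 : y + 2 * -(L : ℤ) = y - 2 * L := by ring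
    rw [h0, e1, e2]
    nlinarith

/-- slopes are bounded by the translation lengths -/
theorem slope_le {σ : ℝ} (h : RealL ℓ σ) : σ ≤ tp ℓ ∧ -tp (rev ℓ) ≤ σ := by
  obtain ⟨K, L₀, h⟩ := h 1 one_pos
  obtain ⟨g, -, -, h1, -, -⟩ := h L₀ le_rfl
  have key : ∀ m : ℤ, m * σ ≤ ℓ (cc m) + L₀ := by
    intro m
    have h2 := h1 m
    have h3 := hℓ.mul g (cc m)
    linarith
  constructor
  · by_contra hcon
    push Not at hcon
    set δ := (σ - tp ℓ) / 2 with hδdef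
    have hδ : 0 < δ := by simp only [hδdef]; linarith
    obtain ⟨C, hC0, hC⟩ := hℓ.tp_ge δ hδ
    obtain ⟨N, hN⟩ := exists_nat_gt ((C + L₀) / δ)
    rw [div_lt_iff₀ hδ] at hN
    have hh : σ = tp ℓ + 2 * δ := by simp only [hδdef]; ring
    have h6 := key N
    have h7 := hC N
    rw [hh] at h6
    push_cast at h6
    nlinarith
  · by_contra hcon
    push Not at hcon
    set δ := (-σ - tp (rev ℓ)) / 2 with hδdef
    have hδ : 0 < δ := by simp only [hδdef]; linarith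
    obtain ⟨C, hC0, hC⟩ := hℓ.reversed.tp_ge δ hδ
    obtain ⟨N, hN⟩ := exists_nat_gt ((C + L₀) / δ)
    rw [div_lt_iff₀ hδ] at hN
    have hh : σ = -(tp (rev ℓ) + 2 * δ) := by simp only [hδdef]; ring
    have h6 := key (-N)
    have h7 := hC N
    have e : rev ℓ (cc N) = ℓ (cc (-N)) := by rw [rev, cc_inv]
    rw [e] at h7
    rw [hh] at h6
    push_cast at h6
    nlinarith

theorem slope_cc {σ : ℝ} (h : σ ≤ tp ℓ ∧ -tp (rev ℓ) ≤ σ) (n : ℤ) : n * σ ≤ ℓ (cc n) := by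
  have h1 := hℓ.tp_le_int n
  have h2 := hℓ.tm_le_int n
  rcases le_total 0 (n : ℝ) with hn | hn
  · nlinarith [h.1]
  · nlinarith [h.2]

/-- crossing into the half-space -/
theorem cr1 : ∃ C : ℝ, 0 ≤ C ∧ ∀ g, F g⁻¹ = 0 → ∀ x y : ℤ, ∃ m : ℤ,
    ℓ (g * s * cc m) + ℓ (vec (x - 2 * m) (y - 2 * m)) - C ≤ ℓ (g * s * vec x y) := by
  obtain ⟨Q, hQ⟩ := hℓ.cross
  refine ⟨2 * ∑ q ∈ Q, nu ℓ (q * s), by
    have := Finset.sum_nonneg (fun q (_ : q ∈ Q) => hℓ.nu_nonneg (q * s)); linarith,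
    fun g hg x y => ?_⟩
  have hF : F g⁻¹ ≠ F (s * vec x y) := by
    rw [hg, F_mul_vec, F_s]; norm_num
  obtain ⟨m, q, hq, h⟩ := hQ _ _ hF
  refine ⟨m, ?_⟩
  have hsum : nu ℓ (q * s) ≤ ∑ q ∈ Q, nu ℓ (q * s) :=
    Finset.single_le_sum (f := fun q => nu ℓ (q * s)) (fun i _ => hℓ.nu_nonneg _) hq
  have e1 : g⁻¹⁻¹ * (s * vec x y) = g * s * vec x y := by group
  have e2 : q * vec (3 * (-m)) 0 * (s * vec x y) = (q * s) * vec (x - 2 * m) (y - 2 * m) := by
    have h1 : vec (3 * (-m)) 0 * s = s * cc (-m) := (s_mul_cc (-m)).symm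
    have h2 : cc (-m) * vec x y = vec (x - 2 * m) (y - 2 * m) := by
      rw [cc_mul_vec]; congr 1 <;> ring
    rw [← h2]
    calc q * vec (3 * (-m)) 0 * (s * vec x y) = q * (vec (3 * (-m)) 0 * s) * vec x y := by group
      _ = _ := by rw [h1]; group
  have e3 : g * s * cc m = (g⁻¹⁻¹ * vec (3 * m) 0 * q⁻¹) * (q * s) := by
    rw [mul_assoc, s_mul_cc]; group
  rw [e1, e2] at h
  have h3 := hℓ.sub_le' (q * s) (vec (x - 2 * m) (y - 2 * m))
  have h4 := hℓ.mul' (g⁻¹⁻¹ * vec (3 * m) 0 * q⁻¹) (q * s)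
  rw [← e3] at h4
  linarith

/-- line sources from plane sources -/
theorem src : ∃ C : ℝ, 0 ≤ C ∧ ∀ g, F g⁻¹ = 0 → ∀ (σ E : ℝ) (L : ℕ),
    (∀ m : ℤ, ℓ g + m * σ - E ≤ ℓ (g * vec (3 * m) 0)) →
    (∀ m : ℤ, |(m : ℝ)| ≤ L → ℓ (g * vec (3 * m) 0) ≤ ℓ g + m * σ + E) →
    Mem (g * s) ∧ ℓ (g * s) ≤ ℓ g + C ∧
    (∀ m : ℤ, ℓ (g * s) + m * σ - (E + C) ≤ ℓ (g * s * cc m)) ∧
    (∀ m : ℤ, |(m : ℝ)| ≤ L → ℓ (g * s * cc m) ≤ ℓ (g * s) + m * σ + (E + C)) ∧
    (∀ x y : ℤ, ∃ m : ℤ,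
      ℓ (g * s * cc m) + ℓ (vec (x - 2 * m) (y - 2 * m)) - C ≤ ℓ (g * s * vec x y)) := by
  obtain ⟨C, hC0, hC⟩ := hℓ.cr1
  have hs := hℓ.nu_nonneg s
  refine ⟨C + 2 * nu ℓ s, by linarith, fun g hg σ E L h1 h2 => ⟨Mem_s hg, ?_, ?_, ?_, ?_⟩⟩
  · have := hℓ.mul' g s; linarith
  · intro m
    have e : g * s * cc m = g * vec (3 * m) 0 * s := by rw [mul_assoc, s_mul_cc]; group
    rw [e]
    have a1 := hℓ.sub_le (g * vec (3 * m) 0) s
    have a2 := hℓ.mul' g s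
    have a3 := h1 m
    linarith
  · intro m hm
    have e : g * s * cc m = g * vec (3 * m) 0 * s := by rw [mul_assoc, s_mul_cc]; group
    rw [e]
    have a1 := hℓ.mul' (g * vec (3 * m) 0) s
    have a2 := hℓ.sub_le g s
    have a3 := h2 m hm
    linarith
  · intro x y
    obtain ⟨m, hm⟩ := hC g hg x y
    exact ⟨m, by linarith⟩

theorem up {p q : ℝ} (h : Real2 ℓ p q) : RealL ℓ (3 * p) ∧ RealL ℓ (3 * q) := by
  obtain ⟨C, hC0, hC⟩ := hℓ.src
  have ht := hℓ.nu_nonneg tau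
  constructor
  · intro ε hε
    obtain ⟨K, L₀, hK⟩ := h (ε / 6) (by linarith)
    obtain ⟨N, hN⟩ := exists_nat_ge (2 * C / ε)
    refine ⟨3 * K + C, L₀ + N + 1, fun L hL => ?_⟩
    obtain ⟨g, hg, hgK, hlo, hup⟩ := hK (3 * L) (by omega)
    have hL1 : (1 : ℝ) ≤ L := by
      have : 1 ≤ L := by omega
      exact_mod_cast this
    have hLN : (N : ℝ) ≤ L := by
      have : N ≤ L := by omega
      exact_mod_cast this
    have hCL : C ≤ ε / 2 * L := by
      have : 2 * C / ε ≤ L := le_trans hN hLN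
      rw [div_le_iff₀ hε] at this
      linarith
    have hcast : ((3 * L : ℕ) : ℝ) = 3 * L := by push_cast; ring
    rw [hcast] at hgK hlo hup
    obtain ⟨m1, m2, m3, m4, m5⟩ := hC g hg.1 (3 * p) (ε / 2 * L) L
      (fun m => by
        have := hlo (3 * m) 0
        push_cast at this
        linarith)
      (fun m hm => by
        have := hup (3 * m) 0 (by push_cast; rw [abs_mul]; norm_num; exact hm) (by simp)
        push_cast at this
        linarith)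
    refine ⟨g * s, m1, ?_, ?_, ?_, ?_⟩
    · nlinarith
    · intro m; have := m3 m; nlinarith
    · intro m hm; have := m4 m hm; nlinarith
    · intro x y
      obtain ⟨m, hm⟩ := m5 x y
      exact ⟨m, by nlinarith⟩
  · intro ε hε
    obtain ⟨K, L₀, hK⟩ := h (ε / 6) (by linarith)
    obtain ⟨N, hN⟩ := exists_nat_ge (2 * (C + 2 * nu ℓ tau) / ε)
    refine ⟨3 * K + C + nu ℓ tau, L₀ + N + 1, fun L hL => ?_⟩
    obtain ⟨g, hg, hgK, hlo, hup⟩ := hK (3 * L) (by omega)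
    have hL1 : (1 : ℝ) ≤ L := by
      have : 1 ≤ L := by omega
      exact_mod_cast this
    have hLN : (N : ℝ) ≤ L := by
      have : N ≤ L := by omega
      exact_mod_cast this
    have hCL : C + 2 * nu ℓ tau ≤ ε / 2 * L := by
      have : 2 * (C + 2 * nu ℓ tau) / ε ≤ L := le_trans hN hLN
      rw [div_le_iff₀ hε] at this
      linarith
    have hcast : ((3 * L : ℕ) : ℝ) = 3 * L := by push_cast; ring
    rw [hcast] at hgK hlo hup
    have hF : F (g * tau)⁻¹ = 0 := by rw [mul_inv_rev, tau_inv]; exact hg.2.1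
    have e : ∀ m : ℤ, g * tau * vec (3 * m) 0 = g * vec 0 (3 * m) * tau := by
      intro m; rw [mul_assoc, tau_mul_vec]; group
    have b1 := hℓ.mul' g tau
    have b2 := hℓ.sub_le g tau
    obtain ⟨m1, m2, m3, m4, m5⟩ := hC (g * tau) hF (3 * q) (ε / 2 * L + 2 * nu ℓ tau) L
      (fun m => by
        have := hlo 0 (3 * m)
        push_cast at this
        rw [e]
        have b3 := hℓ.sub_le (g * vec 0 (3 * m)) tau
        linarith)
      (fun m hm => by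
        have := hup 0 (3 * m) (by simp) (by push_cast; rw [abs_mul]; norm_num; exact hm)
        push_cast at this
        rw [e]
        have b3 := hℓ.mul' (g * vec 0 (3 * m)) tau
        linarith)
    refine ⟨g * tau * s, m1, ?_, ?_, ?_, ?_⟩
    · nlinarith
    · intro m; have := m3 m; nlinarith
    · intro m hm; have := m4 m hm; nlinarith
    · intro x y
      obtain ⟨m, hm⟩ := m5 x y
      exact ⟨m, by nlinarith⟩

/-! ### The half-plane lemma -/

theorem theta_exists {σ : ℝ} (hσ : ∀ n : ℤ, n * σ ≤ ℓ (cc n)) : ∃ θ : ℝ,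
    (∀ k : ℕ, 1 ≤ k → ∀ m : ℤ, k * θ ≤ m * σ + ℓ (vec (k - 2 * m) (-(2 * m)))) ∧
    (∀ η : ℝ, 0 < η → ∃ k : ℕ, 1 ≤ k ∧ ∃ m : ℤ,
      m * σ + ℓ (vec (k - 2 * m) (-(2 * m))) ≤ k * (θ + η)) := by
  set S : Set ℝ := {r | ∃ k : ℕ, 1 ≤ k ∧ ∃ m : ℤ,
    r = (m * σ + ℓ (vec (k - 2 * m) (-(2 * m)))) / k} with hS
  have hne : S.Nonempty := ⟨_, 1, le_rfl, 0, rfl⟩
  have hbd : BddBelow S := by
    refine ⟨-ℓ (vec (-1) 0), ?_⟩
    rintro _ ⟨k, hk, m, rfl⟩
    have hk0 : (0 : ℝ) < k := by exact_mod_cast hk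
    rw [le_div_iff₀ hk0]
    have h1 := hℓ.vec_mul_nat (-1) 0 k
    simp only [mul_neg, mul_one, mul_zero] at h1
    have h2 := hσ (-m)
    have h3 := hℓ.mul (vec (k - 2 * m) (-(2 * m))) (vec (-k) 0)
    have e : vec (k - 2 * m) (-(2 * m)) * vec (-k) 0 = cc (-m) := by
      rw [vec_mul, cc]; congr 1 <;> ring
    rw [e] at h3
    push_cast at h2
    linarith
  refine ⟨sInf S, ?_, ?_⟩
  · intro k hk m
    have hk0 : (0 : ℝ) < k := by exact_mod_cast hk
    have : sInf S ≤ (m * σ + ℓ (vec (k - 2 * m) (-(2 * m)))) / k :=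
      csInf_le hbd ⟨k, hk, m, rfl⟩
    rw [le_div_iff₀ hk0] at this
    linarith
  · intro η hη
    obtain ⟨r, ⟨k, hk, m, rfl⟩, hr⟩ := exists_lt_of_csInf_lt hne
      (show sInf S < sInf S + η by linarith)
    have hk0 : (0 : ℝ) < k := by exact_mod_cast hk
    rw [div_lt_iff₀ hk0] at hr
    exact ⟨k, hk, m, by linarith⟩

theorem lower_bound {σ θ : ℝ} (hσ : ∀ n : ℤ, n * σ ≤ ℓ (cc n))
    (h1 : ∀ k : ℕ, 1 ≤ k → ∀ m : ℤ, k * θ ≤ m * σ + ℓ (vec (k - 2 * m) (-(2 * m))))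
    (h2 : ∀ η : ℝ, 0 < η → ∃ k : ℕ, 1 ≤ k ∧ ∃ m : ℤ,
      m * σ + ℓ (vec (k - 2 * m) (-(2 * m))) ≤ k * (θ + η)) (x y m : ℤ) :
    θ * x + (σ / 2 - θ) * y ≤ m * σ + ℓ (vec (x - 2 * m) (y - 2 * m)) := by
  rcases lt_trichotomy 0 (x - y) with hk | hk | hk
  · -- positive difference
    obtain ⟨k, hk'⟩ := Int.eq_ofNat_of_zero_le hk.le
    have hk1 : 1 ≤ 2 * k := by omega
    have a1 := h1 (2 * k) hk1 (2 * m - y)
    have e : vec (((2 * k : ℕ) : ℤ) - 2 * (2 * m - y)) (-(2 * (2 * m - y))) =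
        vec (((2 : ℕ) : ℤ) * (x - 2 * m)) (((2 : ℕ) : ℤ) * (y - 2 * m)) := by
      congr 1
      · push_cast; rw [← hk']; ring
      · push_cast; ring
    rw [e] at a1
    have a2 := hℓ.vec_mul_nat (x - 2 * m) (y - 2 * m) 2
    have e3 : (k : ℝ) = x - y := by
      have : ((x - y : ℤ) : ℝ) = ((k : ℤ) : ℝ) := by rw [hk']
      push_cast at this
      linarith
    push_cast at a1 a2
    rw [e3] at a1
    linarith
  · -- zero difference
    have hxy : x = y := by omega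
    subst hxy
    have a2 := hℓ.vec_mul_nat (x - 2 * m) (x - 2 * m) 2
    have e : vec (((2 : ℕ) : ℤ) * (x - 2 * m)) (((2 : ℕ) : ℤ) * (x - 2 * m)) = cc (x - 2 * m) := by
      rw [cc]; rfl
    rw [e] at a2
    have a3 := hσ (x - 2 * m)
    push_cast at a2 a3
    linarith
  · -- negative difference
    obtain ⟨n, hn⟩ := Int.eq_ofNat_of_zero_le (show 0 ≤ y - x by omega)
    have key : ∀ η : ℝ, 0 < η →
        θ * x + (σ / 2 - θ) * y ≤ m * σ + ℓ (vec (x - 2 * m) (y - 2 * m)) + n * η := by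
      intro η hη
      obtain ⟨k, hk1, m₀, hm₀⟩ := h2 η hη
      have hk0 : (0 : ℝ) < k := by exact_mod_cast hk1
      have b1 := hℓ.vec_mul_nat (x - 2 * m) (y - 2 * m) (2 * k)
      have b2 := hℓ.vec_mul_nat (k - 2 * m₀) (-(2 * m₀)) (2 * n)
      have b3 := hℓ.mul (vec (((2 * k : ℕ) : ℤ) * (x - 2 * m)) (((2 * k : ℕ) : ℤ) * (y - 2 * m)))
        (vec (((2 * n : ℕ) : ℤ) * (k - 2 * m₀)) (((2 * n : ℕ) : ℤ) * (-(2 * m₀))))
      have e : vec (((2 * k : ℕ) : ℤ) * (x - 2 * m)) (((2 * k : ℕ) : ℤ) * (y - 2 * m)) *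
          vec (((2 * n : ℕ) : ℤ) * (k - 2 * m₀)) (((2 * n : ℕ) : ℤ) * (-(2 * m₀))) =
          cc (k * (y - 2 * m) - 2 * n * m₀) := by
        rw [vec_mul, cc]
        congr 1
        · push_cast
          have : (n : ℤ) = y - x := hn.symm
          rw [this]; ring
        · push_cast; ring
      rw [e] at b3
      have b5 := hσ (k * (y - 2 * m) - 2 * n * m₀)
      have e3 : (n : ℝ) = y - x := by
        have : ((y - x : ℤ) : ℝ) = ((n : ℤ) : ℝ) := by rw [hn]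
        push_cast at this
        linarith
      have hn0 : (0 : ℝ) ≤ n := Nat.cast_nonneg n
      set W := ℓ (vec (x - 2 * m) (y - 2 * m)) with hW
      set W₀ := ℓ (vec (k - 2 * m₀) (-(2 * m₀))) with hW₀
      have c1 : ((k : ℝ) * (y - 2 * m) - 2 * n * m₀) * σ ≤ 2 * k * W + 2 * n * W₀ := by
        push_cast at b5 b1 b2 b3
        linarith
      have c2 : 2 * (n : ℝ) * (m₀ * σ + W₀) ≤ 2 * n * (k * (θ + η)) :=
        mul_le_mul_of_nonneg_left hm₀ (by linarith)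
      have c3 : (k : ℝ) * ((y - 2 * m) * σ) ≤ k * (2 * W + 2 * n * (θ + η)) := by
        linarith
      have c4 := le_of_mul_le_mul_left c3 hk0
      rw [show x = y - (n : ℤ) by omega]
      push_cast
      linarith
    by_contra hcon
    push Not at hcon
    set d := θ * x + (σ / 2 - θ) * y - (m * σ + ℓ (vec (x - 2 * m) (y - 2 * m))) with hd
    have hd0 : 0 < d := by simp only [hd]; linarith
    have hn0 : (0 : ℝ) ≤ n := Nat.cast_nonneg n
    have := key (d / (2 * (n + 1))) (by positivity)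
    have h5 : (n : ℝ) * (d / (2 * (n + 1))) ≤ d / 2 := by
      rw [mul_div_assoc', div_le_div_iff₀ (by positivity) (by norm_num)]
      nlinarith
    linarith

theorem opt {σ θ : ℝ}
    (h2 : ∀ η : ℝ, 0 < η → ∃ k : ℕ, 1 ≤ k ∧ ∃ m : ℤ,
      m * σ + ℓ (vec (k - 2 * m) (-(2 * m))) ≤ k * (θ + η)) (η : ℝ) (hη : 0 < η) :
    ∃ B : ℕ, 1 ≤ B ∧ ∃ C : ℝ, ∀ x y : ℤ, 0 ≤ x - y → ∃ m : ℤ,
      |(m : ℝ)| ≤ B * (|(x : ℝ)| + |(y : ℝ)| + 1) ∧
      m * σ + ℓ (vec (x - 2 * m) (y - 2 * m)) ≤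
        θ * x + (σ / 2 - θ) * y + η * |(x : ℝ) - y| + C := by
  obtain ⟨k, hk1, m₀, hm₀⟩ := h2 η hη
  have hk0 : (0 : ℝ) < k := by exact_mod_cast hk1
  have hk0' : (0 : ℤ) < k := by exact_mod_cast hk1
  set Λ := nu ℓ (vec 1 0) + nu ℓ (vec 0 1) with hΛ
  have hΛ0 : 0 ≤ Λ := add_nonneg (hℓ.nu_nonneg _) (hℓ.nu_nonneg _)
  refine ⟨1 + m₀.natAbs, by omega, (k + 2) * Λ + |σ| + k * (|θ| + η), fun x y hxy => ?_⟩
  obtain ⟨q, hq⟩ := Int.eq_ofNat_of_zero_le (Int.ediv_nonneg hxy hk0'.le)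
  have hr0 := Int.emod_nonneg (x - y) hk0'.ne'
  have hr1 := Int.emod_lt_of_pos (x - y) hk0'
  have hqr := Int.mul_ediv_add_emod (x - y) k
  rw [hq] at hqr
  set r := (x - y) % k with hr
  set t := y / 2 with ht
  set y₀ := y % 2 with hy₀
  have hy01 : 0 ≤ y₀ := by omega
  have hy02 : y₀ ≤ 1 := by omega
  have hty : y = 2 * t + y₀ := by omega
  have hqr' : x - y = k * q + r := hqr.symm
  refine ⟨t + q * m₀, ?_, ?_⟩
  · -- the size bound
    have a1 : |(t : ℝ)| ≤ |(y : ℝ)| + 1 := by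
      have : |t| ≤ |y| + 1 := by
        rw [abs_le]; constructor
        · have := neg_abs_le y
          have := abs_nonneg y
          omega
        · have := le_abs_self y
          have := abs_nonneg y
          omega
      exact_mod_cast this
    have a2 : (q : ℝ) ≤ |(x : ℝ)| + |(y : ℝ)| := by
      have h5 : (q : ℤ) ≤ x - y := by nlinarith
      have h6 : (q : ℝ) ≤ x - y := by exact_mod_cast h5
      have := le_abs_self (x : ℝ)
      have := neg_abs_le (y : ℝ)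
      linarith
    have a3 : ((m₀.natAbs : ℕ) : ℝ) = |(m₀ : ℝ)| := by
      rw [Nat.cast_natAbs]; push_cast; rfl
    push_cast
    rw [a3]
    have a4 : |(t : ℝ) + q * m₀| ≤ |(t : ℝ)| + q * |(m₀ : ℝ)| := by
      have := abs_add_le (t : ℝ) (q * m₀)
      rw [abs_mul, Nat.abs_cast] at this
      exact this
    have a5 : (q : ℝ) * |(m₀ : ℝ)| ≤ (|(x : ℝ)| + |(y : ℝ)|) * |(m₀ : ℝ)| :=
      mul_le_mul_of_nonneg_right a2 (abs_nonneg _)
    have := abs_nonneg (x : ℝ)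
    have := abs_nonneg (m₀ : ℝ)
    nlinarith
  · -- the cost bound
    have e : vec (x - 2 * (t + q * m₀)) (y - 2 * (t + q * m₀)) =
        vec (q * (k - 2 * m₀)) (q * (-(2 * m₀))) * vec (r + y₀) y₀ := by
      rw [vec_mul]
      congr 1
      · have : x = 2 * t + y₀ + (k * q + r) := by omega
        rw [this]; ring
      · rw [hty]; ring
    rw [e]
    have b1 := hℓ.mul (vec (q * (k - 2 * m₀)) (q * (-(2 * m₀)))) (vec (r + y₀) y₀)
    have b2 := hℓ.vec_mul_nat (k - 2 * m₀) (-(2 * m₀)) q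
    have b3 := hℓ.vec_bound (r + y₀) y₀
    have b4 : (|((r + y₀ : ℤ) : ℝ)| + |(y₀ : ℝ)|) ≤ k + 2 := by
      have c1 : |((r + y₀ : ℤ) : ℝ)| = ((r + y₀ : ℤ) : ℝ) := by
        rw [abs_of_nonneg]; exact_mod_cast (by omega : (0 : ℤ) ≤ r + y₀)
      have c2 : |(y₀ : ℝ)| = (y₀ : ℝ) := by
        rw [abs_of_nonneg]; exact_mod_cast hy01
      rw [c1, c2]
      have : r + y₀ + y₀ ≤ (k : ℤ) + 2 := by omega
      exact_mod_cast this
    have b5 : ℓ (vec (r + y₀) y₀) ≤ (k + 2) * Λ :=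
      le_trans b3 (mul_le_mul_of_nonneg_right b4 hΛ0)
    set W₀ := ℓ (vec (k - 2 * m₀) (-(2 * m₀))) with hW₀
    have hq0 : (0 : ℝ) ≤ q := Nat.cast_nonneg q
    have b6 : (q : ℝ) * (m₀ * σ + W₀) ≤ q * (k * (θ + η)) :=
      mul_le_mul_of_nonneg_left hm₀ hq0
    have hr0' : (0 : ℝ) ≤ r := by exact_mod_cast hr0
    have hr1' : (r : ℝ) ≤ k := by exact_mod_cast hr1.le
    have hxy' : (x : ℝ) - y = k * q + r := by exact_mod_cast hqr'
    have hyt : (y : ℝ) = 2 * t + y₀ := by exact_mod_cast hty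
    have hy01' : (0 : ℝ) ≤ y₀ := by exact_mod_cast hy01
    have hy02' : (y₀ : ℝ) ≤ 1 := by exact_mod_cast hy02
    have b7 : (t : ℝ) * σ ≤ y / 2 * σ + |σ| := by
      have c1 : (t : ℝ) = y / 2 - y₀ / 2 := by linarith
      rw [c1]
      have := neg_abs_le σ
      have := abs_nonneg σ
      nlinarith
    have b8 : (q : ℝ) * (k * (θ + η)) ≤ ((x : ℝ) - y) * (θ + η) + k * (|θ| + η) := by
      have c1 : (q : ℝ) * k = (x - y) - r := by linarith
      have c2 : -(r * (θ + η)) ≤ k * (|θ| + η) := by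
        have c3 := neg_abs_le θ
        have c4 := abs_nonneg θ
        have c5 : -(r * θ) ≤ r * |θ| := by nlinarith
        have c6 : r * |θ| ≤ k * |θ| := mul_le_mul_of_nonneg_right hr1' c4
        nlinarith
      calc (q : ℝ) * (k * (θ + η)) = (q * k) * (θ + η) := by ring
        _ = ((x - y) - r) * (θ + η) := by rw [c1]
        _ = (x - y) * (θ + η) + -(r * (θ + η)) := by ring
        _ ≤ _ := by linarith
    have b9 : |(x : ℝ) - y| = x - y := by
      rw [abs_of_nonneg]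
      have : (0 : ℝ) ≤ ((x - y : ℤ) : ℝ) := by exact_mod_cast hxy
      push_cast at this
      exact this
    rw [b9]
    push_cast
    nlinarith

/-- realisation of a plane functional from line sources -/
theorem hp_main {σ p q : ℝ} (d : ℤ) (hd : d = 1 ∨ d = -1)
    (h1 : ∀ x y m : ℤ, p * x + q * y ≤ m * σ + ℓ (vec (x - 2 * m) (y - 2 * m)))
    (h2 : ∀ η : ℝ, 0 < η → ∃ B : ℕ, 1 ≤ B ∧ ∃ C : ℝ, ∀ x y : ℤ, 0 ≤ d * (x - y) → ∃ m : ℤ,
      |(m : ℝ)| ≤ B * (|(x : ℝ)| + |(y : ℝ)| + 1) ∧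
      m * σ + ℓ (vec (x - 2 * m) (y - 2 * m)) ≤
        p * x + q * y + η * |(x : ℝ) - y| + C)
    (hR : RealL ℓ σ) : Real2 ℓ p q := by
  intro ε hε
  obtain ⟨B, hB1, C, hBC⟩ := h2 (ε / 100) (by linarith)
  have hB0 : (0 : ℝ) < B := by exact_mod_cast hB1
  obtain ⟨K, L₀, hK⟩ := hR (ε / (700 * B)) (by positivity)
  obtain ⟨N, hN⟩ := exists_nat_ge (100 * C / ε)
  have ha := hℓ.nu_nonneg (vec 1 0)
  refine ⟨7 * B * K + 2 * nu ℓ (vec 1 0), L₀ + N + 1, fun L hL => ?_⟩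
  obtain ⟨g, hg, hgK, hlo, hup, hline⟩ := hK (7 * B * L) (by nlinarith)
  have hL1 : (1 : ℝ) ≤ L := by
    have : 1 ≤ L := by omega
    exact_mod_cast this
  have hLN : (N : ℝ) ≤ L := by
    have : N ≤ L := by omega
    exact_mod_cast this
  have hCL : C ≤ ε / 100 * L := by
    have : 100 * C / ε ≤ L := le_trans hN hLN
    rw [div_le_iff₀ hε] at this
    linarith
  have hcast : ((7 * B * L : ℕ) : ℝ) = 7 * B * L := by push_cast; ring
  rw [hcast] at hgK hlo hup hline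
  have hE : ε / (700 * B) * (7 * B * L) = ε / 100 * L := by
    field_simp; ring
  rw [hE] at hlo hup hline
  set E := ε / 100 * L with hEdef
  have hE0 : 0 < E := by positivity
  -- lower bound
  have lower : ∀ x y : ℤ, ℓ g + (p * x + q * y) - 2 * E ≤ ℓ (g * vec x y) := by
    intro x y
    obtain ⟨m, hm⟩ := hline x y
    have a1 := hlo m
    have a2 := h1 x y m
    linarith
  have upper : ∀ x y : ℤ, 0 ≤ d * (x - y) → |(x : ℝ)| ≤ 3 * L → |(y : ℝ)| ≤ L →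
      ℓ (g * vec x y) ≤ ℓ g + (p * x + q * y) + 6 * E := by
    intro x y hxy hx hy
    obtain ⟨m, hm1, hm2⟩ := hBC x y hxy
    have hm3 : |(m : ℝ)| ≤ 7 * B * L := by
      refine le_trans hm1 ?_
      have : |(x : ℝ)| + |(y : ℝ)| + 1 ≤ 7 * L := by linarith
      calc (B : ℝ) * (|(x : ℝ)| + |(y : ℝ)| + 1) ≤ B * (7 * L) :=
            mul_le_mul_of_nonneg_left this hB0.le
        _ = 7 * B * L := by ring
    have a1 := hup m hm3
    have a2 := hℓ.mul (g * cc m) (vec (x - 2 * m) (y - 2 * m))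
    have e : g * cc m * vec (x - 2 * m) (y - 2 * m) = g * vec x y := by
      rw [mul_assoc, cc_mul_vec]; congr 2 <;> ring
    rw [e] at a2
    have a3 : ε / 100 * |(x : ℝ) - y| ≤ 4 * E := by
      have : |(x : ℝ) - y| ≤ 4 * L := by
        have := abs_sub (x : ℝ) y
        linarith
      have h5 : ε / 100 * |(x : ℝ) - y| ≤ ε / 100 * (4 * L) :=
        mul_le_mul_of_nonneg_left this (by positivity)
      linarith
    linarith
  have hd' : (d : ℝ) * d = 1 := by rcases hd with rfl | rfl <;> norm_num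
  have hdabs : |(d : ℝ)| = 1 := by rcases hd with rfl | rfl <;> norm_num
  have hdd : d * d = 1 := by rcases hd with rfl | rfl <;> norm_num
  have hLpos : 0 < L := by omega
  -- the length of g * vec (2 d L) 0
  have gl := lower (2 * d * L) 0
  have gu := upper (2 * d * L) 0 (by
      have : d * (2 * d * (L : ℤ) - 0) = 2 * L := by
        calc d * (2 * d * (L : ℤ) - 0) = 2 * (d * d) * L := by ring
          _ = 2 * L := by rw [hdd]; ring
      rw [this]; positivity)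
    (by push_cast; rw [abs_mul, abs_mul, hdabs, Nat.abs_cast]; norm_num; linarith)
    (by simp)
  push_cast at gl gu
  refine ⟨g * vec (2 * d * L) 0, ?_, ?_, ?_, ?_⟩
  · apply hg
    have : (L : ℤ) ≠ 0 := by exact_mod_cast hLpos.ne'
    rcases hd with rfl | rfl <;> omega
  · have b1 := hℓ.mul g (vec (2 * d * L) 0)
    have b2 : ℓ (vec (2 * d * L) 0) ≤ 2 * L * nu ℓ (vec 1 0) := by
      have b3 := hℓ.vecx_bound (2 * d * L)
      have e : |((2 * d * L : ℤ) : ℝ)| = 2 * L := by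
        push_cast; rw [abs_mul, abs_mul, hdabs, Nat.abs_cast]; norm_num
      rwa [e] at b3
    nlinarith
  · intro x y
    rw [mul_assoc g, vec_mul]
    have b1 := lower (2 * d * L + x) (0 + y)
    push_cast at b1
    nlinarith
  · intro x y hx hy
    rw [mul_assoc g, vec_mul]
    have hx' := abs_le.1 hx
    have hy' := abs_le.1 hy
    have b1 := upper (2 * d * L + x) (0 + y) (by
        have hx1 : -(L : ℤ) ≤ x := by exact_mod_cast hx'.1
        have hx2 : x ≤ (L : ℤ) := by exact_mod_cast hx'.2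
        have hy1 : -(L : ℤ) ≤ y := by exact_mod_cast hy'.1
        have hy2 : y ≤ (L : ℤ) := by exact_mod_cast hy'.2
        rcases hd with rfl | rfl <;> omega)
      (by
        push_cast
        have := abs_add_le (2 * (d : ℝ) * L) x
        rw [abs_mul, abs_mul, hdabs, Nat.abs_cast] at this
        norm_num at this
        linarith)
      (by simpa using hy)
    push_cast at b1
    nlinarith

/-- The half-plane lemma. -/
theorem half_plane {σ : ℝ} (hσ : ∀ n : ℤ, n * σ ≤ ℓ (cc n)) : ∃ θ : ℝ,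
    (RealL ℓ σ → Real2 ℓ θ (σ / 2 - θ)) ∧
    (RealL (rev ℓ) (-σ) → Real2 (rev ℓ) (-θ) (-(σ / 2 - θ))) := by
  obtain ⟨θ, h1, h2⟩ := hℓ.theta_exists hσ
  have lb := hℓ.lower_bound hσ h1 h2
  have op := hℓ.opt h2
  have hr : ∀ x y : ℤ, rev ℓ (vec x y) = ℓ (vec (-x) (-y)) := fun x y => by rw [rev, vec_inv]
  refine ⟨θ, fun hR => ?_, fun hR => ?_⟩
  · refine hℓ.hp_main 1 (Or.inl rfl) lb ?_ hR
    intro η hη
    obtain ⟨B, hB, C, h⟩ := op η hη
    exact ⟨B, hB, C, fun x y hxy => h x y (by linarith)⟩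
  · refine hℓ.reversed.hp_main (-1) (Or.inr rfl) ?_ ?_ hR
    · intro x y m
      have := lb (-x) (-y) (-m)
      rw [hr]
      have e : vec (-x - 2 * -m) (-y - 2 * -m) = vec (-(x - 2 * m)) (-(y - 2 * m)) := by
        congr 1 <;> ring
      rw [e] at this
      push_cast at this
      linarith
    · intro η hη
      obtain ⟨B, hB, C, h⟩ := op η hη
      refine ⟨B, hB, C, fun x y hxy => ?_⟩
      obtain ⟨m, hm1, hm2⟩ := h (-x) (-y) (by linarith)
      refine ⟨-m, ?_, ?_⟩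
      · push_cast at hm1 ⊢
        rw [abs_neg, abs_neg] at hm1
        rwa [abs_neg]
      · rw [hr]
        have e : vec (-(x - 2 * -m)) (-(y - 2 * -m)) = vec (-x - 2 * m) (-y - 2 * m) := by
          congr 1 <;> ring
        rw [e]
        push_cast at hm2 ⊢
        have e2 : |-(x : ℝ) - -(y : ℝ)| = |(x : ℝ) - y| := by
          rw [← abs_neg]; congr 1; ring
        rw [e2] at hm2
        linarith

end AL

end Run7.h463
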