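import Mathlib

set_option autoImplicit false

/-! Word length with respect to a finite generating set; cone types from an automaton for the
geodesic language. -/

namespace Run7.h463

variable {H : Type} [Group H] (X : Finset H)

/-- evaluation of a word -/
def ev (w : List ({x // x ∈ X} × Bool)) : H :=
  (w.map (fun p : {x // x ∈ X} × Bool => if p.2 = true then p.1.1 else p.1.1⁻¹)).prod

@[simp] theorem ev_nil : ev X [] = 1 := rfl

theorem ev_cons (p : {x // x ∈ X} × Bool) (w : List ({x // x ∈ X} × Bool)) :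
    ev X (p :: w) = (if p.2 = true then p.1.1 else p.1.1⁻¹) * ev X w := by
  simp [ev]

theorem ev_append (u v : List ({x // x ∈ X} × Bool)) : ev X (u ++ v) = ev X u * ev X v := by
  simp [ev]

/-- the inverse word -/
def winv (w : List ({x // x ∈ X} × Bool)) : List ({x // x ∈ X} × Bool) :=
  (w.map (fun p => (p.1, !p.2))).reverse

omit [Group H] in
theorem length_winv (w : List ({x // x ∈ X} × Bool)) : (winv X w).length = w.length := by
  simp [winv]

theorem ev_winv (w : List ({x // x ∈ X} × Bool)) : ev X (winv X w) = (ev X w)⁻¹ := by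
  induction w with
  | nil => simp [winv]
  | cons p w ih =>
    have h : winv X (p :: w) = winv X w ++ [(p.1, !p.2)] := by simp [winv]
    rw [h, ev_append, ih, ev_cons, ev_cons, mul_inv_rev]
    rcases p with ⟨x, b⟩
    cases b <;> simp

theorem exists_word (hX : Subgroup.closure (X : Set H) = ⊤) (g : H) : ∃ w, ev X w = g := by
  have hg : g ∈ Subgroup.closure (X : Set H) := by rw [hX]; trivial
  induction hg using Subgroup.closure_induction with
  | mem x hx => exact ⟨[(⟨x, hx⟩, true)], by simp [ev]⟩
  | one => exact ⟨[], rfl⟩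
  | mul x y _ _ hx hy =>
    obtain ⟨u, hu⟩ := hx
    obtain ⟨v, hv⟩ := hy
    exact ⟨u ++ v, by rw [ev_append, hu, hv]⟩
  | inv x _ hx =>
    obtain ⟨u, hu⟩ := hx
    exact ⟨winv X u, by rw [ev_winv, hu]⟩

/-- word length -/
noncomputable def wl (g : H) : ℕ := sInf {n | ∃ w, w.length = n ∧ ev X w = g}

theorem wl_le (w : List ({x // x ∈ X} × Bool)) : wl X (ev X w) ≤ w.length :=
  Nat.sInf_le ⟨w, rfl, rfl⟩

theorem exists_geod (hX : Subgroup.closure (X : Set H) = ⊤) (g : H) :
    ∃ w, w.length = wl X g ∧ ev X w = g := by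
  obtain ⟨w, hw⟩ := exists_word X hX g
  exact Nat.sInf_mem (s := {n | ∃ w, w.length = n ∧ ev X w = g}) ⟨w.length, w, rfl, hw⟩

theorem wl_one : wl X (1 : H) = 0 := by
  have := wl_le X []
  simpa using this

theorem wl_mul (hX : Subgroup.closure (X : Set H) = ⊤) (g h : H) :
    wl X (g * h) ≤ wl X g + wl X h := by
  obtain ⟨u, hu, rfl⟩ := exists_geod X hX g
  obtain ⟨v, hv, rfl⟩ := exists_geod X hX h
  rw [← hu, ← hv, ← ev_append, ← List.length_append]
  exact wl_le X _

theorem wl_inv_le (hX : Subgroup.closure (X : Set H) = ⊤) (g : H) : wl X g⁻¹ ≤ wl X g := by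
  obtain ⟨u, hu, rfl⟩ := exists_geod X hX g
  rw [← hu, ← ev_winv, ← length_winv]
  exact wl_le X _

theorem wl_inv (hX : Subgroup.closure (X : Set H) = ⊤) (g : H) : wl X g⁻¹ = wl X g := by
  apply le_antisymm (wl_inv_le X hX g)
  have := wl_inv_le X hX g⁻¹
  rwa [inv_inv] at this

theorem wl_gen {x : H} (hx : x ∈ X) : wl X x ≤ 1 := by
  have := wl_le X [(⟨x, hx⟩, true)]
  simpa [ev] using this

theorem wl_geod_append (hX : Subgroup.closure (X : Set H) = ⊤)
    (u v : List ({x // x ∈ X} × Bool)) (h : (u ++ v).length = wl X (ev X (u ++ v))) :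
    wl X (ev X u) = u.length ∧ wl X (ev X v) = v.length := by
  have h1 := wl_le X u
  have h2 := wl_le X v
  have h3 := wl_mul X hX (ev X u) (ev X v)
  rw [← ev_append, ← h, List.length_append] at h3
  omega

/-- the cone type property extracted from an automaton -/
theorem cone_types (hX : Subgroup.closure (X : Set H) = ⊤) (σ : Type)
    (M : DFA ({x // x ∈ X} × Bool) σ)
    (hM : ∀ w : List ({x // x ∈ X} × Bool), M.eval w ∈ M.accept ↔
      ∀ v : List ({x // x ∈ X} × Bool), ev X v = ev X w → w.length ≤ v.length) :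
    ∃ st : H → σ, ∀ g g' h : H, st g = st g' → wl X (g * h) = wl X g + wl X h →
      wl X (g' * h) = wl X g' + wl X h := by
  have hM' : ∀ w, M.eval w ∈ M.accept ↔ w.length = wl X (ev X w) := by
    intro w
    rw [hM]
    constructor
    · intro h
      apply le_antisymm _ (wl_le X w)
      obtain ⟨u, hu, hu'⟩ := exists_geod X hX (ev X w)
      rw [← hu]
      exact h u hu'
    · intro h v hv
      rw [h, ← hv]
      exact wl_le X v
  choose gd hgd using exists_geod X hX
  refine ⟨fun g => M.eval (gd g), fun g g' h hst hl => ?_⟩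
  have e1 : M.eval (gd g ++ gd h) ∈ M.accept := by
    rw [hM', ev_append, (hgd g).2, (hgd h).2, List.length_append, (hgd g).1, (hgd h).1, hl]
  have e2 : M.eval (gd g' ++ gd h) ∈ M.accept := by
    have h1 : M.eval (gd g ++ gd h) = M.eval (gd g' ++ gd h) := by
      simp only [DFA.eval] at hst ⊢
      rw [DFA.evalFrom_of_append, DFA.evalFrom_of_append]
      exact congrArg (fun q => M.evalFrom q (gd h)) hst
    rw [← h1]; exact e1
  rw [hM', ev_append, (hgd g').2, (hgd h).2, List.length_append, (hgd g').1, (hgd h).1] at e2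
  exact e2.symm

end Run7.h463
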