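import Pool.Agent.Run7.h463.Moves
import Pool.Agent.Run7.h463.Metric

set_option autoImplicit false

/-! The automaton accepting the words of valid codes, and automaticity of `G`. -/

namespace Run7.h463

/-- states -/
inductive St : Type
  | P0 : St
  | PA (e : Bool) : St
  | Q (e : Bool) : St
  | R (o : Option Bool) (e : Bool) : St
  | D (o : Option Bool) (t : Bool) : St
  | dead : St
deriving DecidableEq, Fintype

/-- type from the last sign -/
def tyO (o : Option Bool) : Bool := o.getD false

theorem Pre.ty_eq (p : Pre) : p.ty = tyO p.ls := by cases p <;> rfl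

instance (ty : Bool) (j : Fin 4) : Decidable (dok ty j) := by unfold dok; infer_instance

/-- transition at the start of a block -/
def bst (o : Option Bool) : Lt → St
  | .d ty e => if ty = tyO o then .R o e else .dead
  | .g ty j f => if ty = tyO o ∧ dok ty j then .D o (decide (j = 0 ∧ f = false)) else .dead
  | _ => .dead

/-- transitions -/
def stp : St → Lt → St
  | .P0, .A e => .PA e
  | .P0, l => bst none l
  | .PA e, .A e' => if e' = e then .PA e else .dead
  | .PA _, l => bst none l
  | .Q e, l => bst (some e) l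
  | .R o e, .d ty e' => if ty = tyO o ∧ e' = e then .R o e else .dead
  | .R o _, .g ty j _ => if ty = tyO o ∧ dok ty j then .D o false else .dead
  | .R _ _, _ => .dead
  | .D o t, .s e => if t = true ∧ o = some (!e) then .dead else .Q e
  | .D _ _, _ => .dead
  | .dead, _ => .dead

/-- the automaton -/
def MM : DFA Lt St where
  step := stp
  start := .P0
  accept := {q | ∃ o t, q = .D o t}

theorem MM_step (q : St) (l : Lt) : MM.step q l = stp q l := rfl

/-- block start -/
def BS (o : Option Bool) (w : List Lt) : Prop := ∃ p : Pre, p.valid ∧ p.ls = o ∧ w = p.wd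

/-- invariants of the states -/
def Inv : St → List Lt → Prop
  | .P0, w => w = []
  | .PA e, w => ∃ n : ℕ, 1 ≤ n ∧ w = List.replicate n (Lt.A e)
  | .Q e, w => BS (some e) w
  | .R o e, w => ∃ p : Pre, p.valid ∧ p.ls = o ∧ ∃ n : ℕ, 1 ≤ n ∧
      w = p.wd ++ List.replicate n (Lt.d p.ty e)
  | .D o t, w => ∃ c : Code, c.valid ∧ c.p.ls = o ∧ (t = true ↔ (c.n = 0 ∧ c.j = 0 ∧ c.f = false)) ∧
      w = c.wd
  | .dead, _ => True

theorem rep_sz (l : Bool → Lt) (n : ℕ) (hn : 1 ≤ n) (e : Bool) :
    rep l (n * sz e) = List.replicate n (l e) := by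
  unfold rep sz
  cases e
  · have h1 : ¬ (0 ≤ (n : ℤ) * (if false = true then 1 else -1)) := by simp; omega
    simp only [h1, decide_false]
    congr 1
    simp
  · have h1 : (0 ≤ (n : ℤ) * (if true = true then 1 else -1)) := by simp
    simp only [h1]
    congr 1
    simp

theorem bst_inv (o : Option Bool) (w : List Lt) (h : BS o w) (l : Lt) : Inv (bst o l) (w ++ [l]) := by
  obtain ⟨p, hp, rfl, rfl⟩ := h
  cases l with
  | A e => exact trivial
  | s e => exact trivial
  | d ty e =>
    simp only [bst]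
    split_ifs with hty
    · refine ⟨p, hp, rfl, 1, le_rfl, ?_⟩
      rw [hty, p.ty_eq]; rfl
    · exact trivial
  | g ty j f =>
    simp only [bst]
    split_ifs with hty
    · obtain ⟨rfl, hj⟩ := hty
      refine ⟨⟨p, 0, j, f⟩, ⟨hp, by rw [p.ty_eq]; exact hj⟩, rfl, ?_, ?_⟩
      · simp
      · simp only [Code.wd, rep, p.ty_eq]; simp
    · exact trivial

theorem stp_inv (q : St) (w : List Lt) (h : Inv q w) (l : Lt) : Inv (stp q l) (w ++ [l]) := by
  have b0 : BS none [] := ⟨.start 0, trivial, rfl, rfl⟩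
  have bA : ∀ (n : ℕ) (e : Bool), 1 ≤ n → BS none (List.replicate n (Lt.A e)) := fun n e hn =>
    ⟨.start (n * sz e), trivial, rfl, (rep_sz Lt.A n hn e).symm⟩
  cases q with
  | P0 =>
    simp only [Inv] at h
    subst h
    cases l with
    | A e => exact ⟨1, le_rfl, rfl⟩
    | d ty e => exact bst_inv none _ b0 (.d ty e)
    | g ty j f => exact bst_inv none _ b0 (.g ty j f)
    | s e => exact bst_inv none _ b0 (.s e)
  | PA e =>
    obtain ⟨n, hn, rfl⟩ := h
    cases l with
    | A e' =>
      simp only [stp]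
      split_ifs with he
      · subst he
        exact ⟨n + 1, by omega, by rw [List.replicate_succ']⟩
      · exact trivial
    | d ty e' => exact bst_inv none _ (bA n e hn) (.d ty e')
    | g ty j f => exact bst_inv none _ (bA n e hn) (.g ty j f)
    | s e' => exact bst_inv none _ (bA n e hn) (.s e')
  | Q e => exact bst_inv (some e) w h l
  | R o e =>
    obtain ⟨p, hp, rfl, n, hn, rfl⟩ := h
    cases l with
    | A e' => exact trivial
    | s e' => exact trivial
    | d ty e' =>
      simp only [stp]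
      split_ifs with he
      · obtain ⟨rfl, rfl⟩ := he
        refine ⟨p, hp, rfl, n + 1, by omega, ?_⟩
        rw [List.replicate_succ', List.append_assoc, p.ty_eq]
      · exact trivial
    | g ty j f =>
      simp only [stp]
      split_ifs with he
      · obtain ⟨rfl, hj⟩ := he
        refine ⟨⟨p, n * sz e, j, f⟩, ⟨hp, by rw [p.ty_eq]; exact hj⟩, rfl, ?_, ?_⟩
        · have : (n : ℤ) * sz e ≠ 0 := by
            have : sz e ≠ 0 := by cases e <;> simp [sz]
            exact mul_ne_zero (by omega) this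
          simp [this]
        · simp only [Code.wd]
          rw [rep_sz _ n hn, List.append_assoc, p.ty_eq]
      · exact trivial
  | D o t =>
    obtain ⟨c, hc, rfl, ht, rfl⟩ := h
    cases l with
    | A e' => exact trivial
    | d ty e' => exact trivial
    | g ty j f => exact trivial
    | s e =>
      simp only [stp]
      split_ifs with he
      · exact trivial
      · rcases c with ⟨p, n, j, f⟩
        refine ⟨.cross p n j f e, ⟨hc.1, hc.2, ?_⟩, rfl, ?_⟩
        · rintro ⟨h1, h2, h3, h4⟩
          exact he ⟨ht.2 ⟨h1, h2, h3⟩, h4⟩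
        · simp only [Code.wd, Pre.wd, List.append_assoc, List.cons_append, List.nil_append]
  | dead => exact trivial

theorem eval_inv (w : List Lt) : Inv (MM.eval w) w := by
  induction w using List.reverseRecOn with
  | nil => exact rfl
  | append_singleton w l ih =>
    rw [DFA.eval_append_singleton]
    exact stp_inv _ _ ih l

/-- block start states -/
def BSt (o : Option Bool) (q : St) : Prop :=
  (o = none ∧ (q = .P0 ∨ ∃ e, q = .PA e)) ∨ ∃ e, o = some e ∧ q = .Q e

theorem stp_bst {o : Option Bool} {q : St} (h : BSt o q) (l : Lt)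
    (hl : (∃ ty e, l = .d ty e) ∨ ∃ ty j f, l = .g ty j f) : stp q l = bst o l := by
  rcases h with ⟨rfl, rfl | ⟨e, rfl⟩⟩ | ⟨e, rfl, rfl⟩ <;>
    rcases hl with ⟨ty, e', rfl⟩ | ⟨ty, j, f, rfl⟩ <;> rfl

theorem evalFrom_R (o : Option Bool) (e : Bool) (n : ℕ) :
    MM.evalFrom (.R o e) (List.replicate n (Lt.d (tyO o) e)) = .R o e := by
  induction n with
  | zero => rfl
  | succ n ih =>
    rw [List.replicate_succ, DFA.evalFrom_cons]
    have : MM.step (.R o e) (Lt.d (tyO o) e) = .R o e := by
      rw [MM_step]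
      simp [stp]
    rw [this, ih]

theorem run_block {o : Option Bool} {q : St} (h : BSt o q) (n : ℤ) (j : Fin 4) (f : Bool)
    (hj : dok (tyO o) j) : MM.evalFrom q (rep (Lt.d (tyO o)) n ++ [Lt.g (tyO o) j f]) =
      .D o (decide (n = 0 ∧ j = 0 ∧ f = false)) := by
  rw [DFA.evalFrom_of_append, DFA.evalFrom_singleton]
  by_cases hn : n = 0
  · subst hn
    have : rep (Lt.d (tyO o)) 0 = [] := rfl
    rw [this, DFA.evalFrom_nil]
    rw [MM_step]
    rw [stp_bst h _ (Or.inr ⟨_, _, _, rfl⟩)]
    simp [bst, hj]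
  · obtain ⟨k, hk⟩ : ∃ k, n.natAbs = k + 1 := ⟨n.natAbs - 1, by omega⟩
    rw [rep, hk, List.replicate_succ, DFA.evalFrom_cons]
    have h1 : MM.step q (Lt.d (tyO o) (decide (0 ≤ n))) = .R o (decide (0 ≤ n)) := by
      rw [MM_step]
      rw [stp_bst h _ (Or.inl ⟨_, _, rfl⟩)]
      simp [bst]
    rw [h1, evalFrom_R]
    rw [MM_step]
    simp [stp, hj, hn]

theorem eval_pre (p : Pre) (hp : p.valid) : BSt p.ls (MM.eval p.wd) := by
  induction p with
  | start k =>
    left
    refine ⟨rfl, ?_⟩
    have key : ∀ (n : ℕ) (e : Bool), MM.eval (List.replicate n (Lt.A e)) = .P0 ∨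
        MM.eval (List.replicate n (Lt.A e)) = .PA e := by
      intro n e
      induction n with
      | zero => left; rfl
      | succ n ih =>
        right
        rw [List.replicate_succ', DFA.eval_append_singleton]
        rcases ih with h | h
        · rw [h]; rfl
        · rw [h]
          rw [MM_step]
          simp [stp]
    rcases key k.natAbs (decide (0 ≤ k)) with h | h
    · left; exact h
    · right; exact ⟨_, h⟩
  | cross p n j f e ih =>
    obtain ⟨hv, hj, hnt⟩ := hp
    right
    refine ⟨e, rfl, ?_⟩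
    have h1 := ih hv
    have e1 : (Pre.cross p n j f e).wd =
        (p.wd ++ (rep (Lt.d (tyO p.ls)) n ++ [Lt.g (tyO p.ls) j f])) ++ [Lt.s e] := by
      simp only [Pre.wd, p.ty_eq, List.append_assoc, List.cons_append, List.nil_append]
    rw [e1, DFA.eval_append_singleton]
    have e2 : MM.eval (p.wd ++ (rep (Lt.d (tyO p.ls)) n ++ [Lt.g (tyO p.ls) j f])) =
        .D p.ls (decide (n = 0 ∧ j = 0 ∧ f = false)) := by
      rw [DFA.eval, DFA.evalFrom_of_append]
      exact run_block h1 n j f (by rw [← p.ty_eq]; exact hj)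
    rw [e2]
    rw [MM_step]
    simp only [stp]
    rw [if_neg]
    rintro ⟨h2, h3⟩
    rw [decide_eq_true_eq] at h2
    exact hnt ⟨h2.1, h2.2.1, h2.2.2, h3⟩

theorem eval_code (c : Code) (hc : c.valid) : MM.eval c.wd ∈ MM.accept := by
  refine ⟨c.p.ls, decide (c.n = 0 ∧ c.j = 0 ∧ c.f = false), ?_⟩
  have h1 := eval_pre c.p hc.1
  rw [Code.wd, DFA.eval, DFA.evalFrom_of_append, c.p.ty_eq]
  exact run_block h1 _ _ _ (by rw [← c.p.ty_eq]; exact hc.2)

theorem accept_iff (w : List Lt) : MM.eval w ∈ MM.accept ↔ ∃ c : Code, c.valid ∧ w = c.wd := by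
  constructor
  · rintro ⟨o, t, h⟩
    have h1 := eval_inv w
    rw [h] at h1
    obtain ⟨c, hc, -, -, hw⟩ := h1
    exact ⟨c, hc, hw⟩
  · rintro ⟨c, hc, rfl⟩
    exact eval_code c hc

/-! ### The generating set -/

/-- the generating set -/
noncomputable def XX : Finset G := @Finset.image _ _ (Classical.decEq _) Lt.val Finset.univ

theorem val_mem (l : Lt) : l.val ∈ XX :=
  (@Finset.mem_image _ _ (Classical.decEq _) _ _ _).2 ⟨l, Finset.mem_univ _, rfl⟩

theorem XX_closure : Subgroup.closure (XX : Set G) = ⊤ := by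
  have hmem : ∀ l : Lt, l.val ∈ Subgroup.closure (XX : Set G) := fun l =>
    Subgroup.subset_closure (val_mem l)
  have hb : vec 0 1 ∈ Subgroup.closure (XX : Set G) := hmem (.d false true)
  have hab : vec 1 (-1) ∈ Subgroup.closure (XX : Set G) := hmem (.d true true)
  have ha : vec 1 0 ∈ Subgroup.closure (XX : Set G) := by
    have := Subgroup.mul_mem _ hab hb
    rwa [vec_mul] at this
  have zx : ∀ x : ℤ, (vec 1 0) ^ x = vec x 0 := by
    intro x
    induction x using Int.induction_on with
    | zero => simp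
    | succ n ih => rw [zpow_add_one, ih, vec_mul]; rfl
    | pred n ih => rw [zpow_sub_one, ih, vec_inv, vec_mul]; rfl
  have zy : ∀ y : ℤ, (vec 0 1) ^ y = vec 0 y := by
    intro y
    induction y using Int.induction_on with
    | zero => simp
    | succ n ih => rw [zpow_add_one, ih, vec_mul]; rfl
    | pred n ih => rw [zpow_sub_one, ih, vec_inv, vec_mul]; rfl
  have hv : ∀ x y : ℤ, vec x y ∈ Subgroup.closure (XX : Set G) := by
    intro x y
    have := Subgroup.mul_mem _ (Subgroup.zpow_mem _ ha x) (Subgroup.zpow_mem _ hb y)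
    rw [zx, zy, vec_mul, add_zero, zero_add] at this
    exact this
  have ht : tau ∈ Subgroup.closure (XX : Set G) := by
    have h1 := hmem (.g false 0 true)
    exact h1
  rw [eq_top_iff]
  intro x _
  induction x using HNNExtension.induction_on with
  | of u =>
    have : ofB u ∈ Subgroup.closure (XX : Set G) := by
      rw [ofB_eq]
      apply Subgroup.mul_mem _ (hv _ _)
      split_ifs
      · exact ht
      · exact Subgroup.one_mem _
    exact this
  | t => exact hmem (.s true)
  | mul x y hx hy => exact Subgroup.mul_mem _ (hx trivial) (hy trivial)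
  | inv x hx => exact Subgroup.inv_mem _ (hx trivial)

theorem XX_LF : LF (wl XX) :=
  ⟨wl_one XX, wl_mul XX XX_closure, wl_inv XX XX_closure, fun l => wl_gen XX (val_mem l)⟩

/-- letters as generators -/
def lm (l : Lt) : {x // x ∈ XX} × Bool := (⟨l.val, val_mem l⟩, true)

theorem ev_lm (u : List Lt) : ev XX (u.map lm) = evL u := by
  induction u with
  | nil => rfl
  | cons l u ih => rw [List.map_cons, ev_cons, ih, evL_cons]; rfl

/-- the automaton over generators -/
def NN : NFA ({x // x ∈ XX} × Bool) St where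
  step q a := {q' | ∃ l : Lt, lm l = a ∧ MM.step q l = q'}
  start := {MM.start}
  accept := MM.accept

theorem NN_eval (w : List ({x // x ∈ XX} × Bool)) (q : St) :
    q ∈ NN.eval w ↔ ∃ u : List Lt, u.map lm = w ∧ MM.eval u = q := by
  induction w using List.reverseRecOn generalizing q with
  | nil =>
    rw [NFA.eval_nil]
    constructor
    · intro h
      exact ⟨[], rfl, (Set.mem_singleton_iff.1 h).symm⟩
    · rintro ⟨u, hu, rfl⟩
      rw [List.map_eq_nil_iff] at hu
      subst hu
      exact Set.mem_singleton _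
  | append_singleton w a ih =>
    rw [NFA.eval_append_singleton, NFA.mem_stepSet]
    constructor
    · rintro ⟨t, ht, l, hl, hs⟩
      obtain ⟨u, hu, rfl⟩ := (ih t).1 ht
      exact ⟨u ++ [l], by rw [List.map_append, hu, ← hl]; rfl, by
        rw [DFA.eval_append_singleton]; exact hs⟩
    · rintro ⟨u, hu, rfl⟩
      rcases List.eq_nil_or_concat u with rfl | ⟨u', l, rfl⟩
      · simp at hu
      · rw [List.concat_eq_append] at hu ⊢
        rw [List.map_append] at hu
        have h3 := List.append_inj' hu (by simp)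
        obtain ⟨h1, h2⟩ := h3
        refine ⟨MM.eval u', (ih _).2 ⟨u', h1, rfl⟩, l, ?_, ?_⟩
        · simpa using h2
        · rw [DFA.eval_append_singleton]

theorem NN_accept (w : List ({x // x ∈ XX} × Bool)) :
    NN.toDFA.eval w ∈ NN.toDFA.accept ↔ ∃ c : Code, c.valid ∧ w = c.wd.map lm := by
  have h1 : NN.toDFA.eval w ∈ NN.toDFA.accept ↔ w ∈ NN.accepts := by
    rw [← NFA.toDFA_correct]; rfl
  rw [h1]
  constructor
  · rintro ⟨q, hq, hq'⟩
    obtain ⟨u, hu, rfl⟩ := (NN_eval w q).1 hq'
    obtain ⟨c, hc, rfl⟩ := (accept_iff u).1 hq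
    exact ⟨c, hc, hu.symm⟩
  · rintro ⟨c, hc, rfl⟩
    exact ⟨MM.eval c.wd, eval_code c hc, (NN_eval _ _).2 ⟨c.wd, rfl, rfl⟩⟩

/-- `G` is automatic. -/
theorem automatic : ∃ X : Finset G, Subgroup.closure (X : Set G) = ⊤ ∧
    ∃ σ : Type, ∃ _ : Fintype σ, ∃ M : DFA ({x // x ∈ X} × Bool) σ,
      (∀ g : G, ∃ w : List ({x // x ∈ X} × Bool), M.eval w ∈ M.accept ∧ ev X w = g) ∧
      ∃ K : ℕ, ∀ u v : List ({x // x ∈ X} × Bool),
        M.eval u ∈ M.accept → M.eval v ∈ M.accept →
        (∃ z : List ({x // x ∈ X} × Bool), z.length ≤ 1 ∧ ev X u * ev X z = ev X v) →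
        ∀ t : ℕ, ∃ z : List ({x // x ∈ X} × Bool), z.length ≤ K ∧
          ev X (u.take t) * ev X z = ev X (v.take t) := by
  classical
  refine ⟨XX, XX_closure, Set St, Fintype.ofFinite _, NN.toDFA, ?_, ?_⟩
  · intro g
    obtain ⟨c, hc, hg⟩ := exists_code XX_LF g
    exact ⟨c.wd.map lm, (NN_accept _).2 ⟨c, hc, rfl⟩, by rw [ev_lm, Code.evL_wd, hg]⟩
  · choose K hK using fun x : G => ft_all XX_LF x
    refine ⟨K 1 + ∑ x ∈ XX, (K x + K x⁻¹), ?_⟩
    intro u v hu hv hz t
    obtain ⟨c, hc, rfl⟩ := (NN_accept u).1 hu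
    obtain ⟨c', hc', rfl⟩ := (NN_accept v).1 hv
    obtain ⟨z, hz1, hz2⟩ := hz
    rw [ev_lm, ev_lm, Code.evL_wd, Code.evL_wd] at hz2
    have hft := hK (ev XX z) c c' hc hc' hz2.symm t
    have hKz : K (ev XX z) ≤ K 1 + ∑ x ∈ XX, (K x + K x⁻¹) := by
      match z, hz1 with
      | [], _ => simp
      | [(⟨x, hx⟩, b)], _ =>
        have h1 := Finset.single_le_sum (f := fun x => K x + K x⁻¹) (fun i _ => Nat.zero_le _) hx
        cases b
        · simp only [ev, List.map_cons, List.map_nil, List.prod_singleton, Bool.false_eq_true,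
            if_false]
          omega
        · simp only [ev, List.map_cons, List.map_nil, List.prod_singleton, if_true]
          omega
      | _ :: _ :: _, h => simp at h
    obtain ⟨y, hy1, hy2⟩ := exists_geod XX XX_closure
      ((evL (c.wd.take t))⁻¹ * evL (c'.wd.take t))
    refine ⟨y, ?_, ?_⟩
    · rw [hy1]; exact le_trans hft hKz
    · rw [hy2, ← List.map_take, ← List.map_take, ev_lm, ev_lm]; group

end Run7.h463
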