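import Pool.Agent.Run7.h463.Grp

set_option autoImplicit false

/-! Normal form codes for the elements of `G`. -/

namespace Run7.h463

/-- powers of the entering edge element -/
def pw (ty : Bool) (k : ℤ) : Base := if ty then ⟨2 * k, 2 * k, false⟩ else ⟨3 * k, 0, false⟩

/-- direction element -/
def dir (ty : Bool) (n : ℤ) : Base := if ty then ⟨n, -n, false⟩ else ⟨0, n, false⟩

/-- digits -/
def dig (ty : Bool) (j : Fin 4) (f : Bool) : Base :=
  if ty then (if f then ⟨2 * (j : ℕ), -(j : ℕ), true⟩ else ⟨-(j : ℕ), 2 * (j : ℕ), false⟩)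
  else ⟨(j : ℕ), -2 * (j : ℕ), f⟩

/-- blocks -/
def blk (ty : Bool) (n : ℤ) (j : Fin 4) (f : Bool) : Base := dir ty n * dig ty j f

/-- admissible digits -/
def dok (ty : Bool) (j : Fin 4) : Prop := ty = true ∨ (j : ℕ) < 3

/-- stable letter to a sign -/
def sG (e : Bool) : G := if e then s else s⁻¹

theorem pw_zero (ty : Bool) : pw ty 0 = 1 := by cases ty <;> rfl

theorem pw_add (ty : Bool) (k l : ℤ) : pw ty (k + l) = pw ty k * pw ty l := by
  cases ty <;> simp [pw, mul_add]

theorem pw_neg (ty : Bool) (k : ℤ) : pw ty (-k) = (pw ty k)⁻¹ := by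
  cases ty <;> simp [pw]

theorem dir_add (ty : Bool) (k l : ℤ) : dir ty (k + l) = dir ty k * dir ty l := by
  cases ty <;> simp [dir, add_comm]

theorem dir_pw_comm (ty : Bool) (n : ℤ) (ty' : Bool) (k : ℤ) :
    dir ty n * pw ty' k = pw ty' k * dir ty n := by
  cases ty <;> cases ty' <;> simp [dir, pw, add_comm]

theorem pw_sG (e : Bool) (k : ℤ) : ofB (pw (!e) k) * sG e = sG e * ofB (pw e k) := by
  cases e
  · exact (sinv_mul_vec k).symm
  · exact (s_mul_vec k).symm

/-- decomposition of base elements -/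
theorem decomp (ty : Bool) (g : Base) : ∃ (k n : ℤ) (j : Fin 4), dok ty j ∧
    g = pw ty k * blk ty n j g.f := by
  rcases g with ⟨x, y, f⟩
  cases ty
  · refine ⟨x / 3, y + 2 * (x % 3), ⟨(x % 3).toNat, by omega⟩, Or.inr ?_, ?_⟩
    · simp only; omega
    · simp only [pw, blk, dir, dig, Bool.false_eq_true, if_false, Base.mul_ff, Base.mk.injEq,
        and_true]
      omega
  · cases f
    · refine ⟨(x + y) / 4, x - 2 * ((x + y) / 4) + (x + y) % 4, ⟨((x + y) % 4).toNat, by omega⟩,
        Or.inl rfl, ?_⟩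
      simp only [pw, blk, dir, dig, Bool.false_eq_true, if_false, if_true, Base.mul_ff,
        Base.mk.injEq, and_true]
      omega
    · refine ⟨(x + y) / 4, x - 2 * ((x + y) / 4) - 2 * ((x + y) % 4),
        ⟨((x + y) % 4).toNat, by omega⟩, Or.inl rfl, ?_⟩
      simp only [pw, blk, dir, dig, if_true, Base.mul_ff,
        Base.mk.injEq, and_true]
      omega

theorem decomp_unique (ty : Bool) {k k' n n' : ℤ} {j j' : Fin 4} {f f' : Bool}
    (hj : dok ty j) (hj' : dok ty j')
    (h : pw ty k * blk ty n j f = pw ty k' * blk ty n' j' f') :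
    k = k' ∧ n = n' ∧ j = j' ∧ f = f' := by
  have h1 := j.isLt
  have h2 := j'.isLt
  rw [Fin.ext_iff]
  unfold dok at hj hj'
  cases ty <;> cases f <;> cases f' <;>
    simp [pw, blk, dir, dig] at h hj hj' ⊢ <;> omega

theorem blk_mem {ty : Bool} {k n : ℤ} {j : Fin 4} {f : Bool} (hj : dok ty j)
    (h : blk ty n j f = pw ty k) : n = 0 ∧ j = 0 ∧ f = false := by
  have h1 : pw ty 0 * blk ty n j f = pw ty k * blk ty 0 0 false := by
    rw [h, pw_zero, one_mul]
    have : blk ty 0 0 false = 1 := by cases ty <;> rfl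
    rw [this, mul_one]
  have := decomp_unique ty hj (by cases ty <;> simp [dok]) h1
  exact this.2

/-- prefixes of codes -/
inductive Pre : Type
  | start (k : ℤ) : Pre
  | cross (p : Pre) (n : ℤ) (j : Fin 4) (f : Bool) (e : Bool) : Pre

namespace Pre

/-- the last sign -/
def ls : Pre → Option Bool
  | start _ => none
  | cross _ _ _ _ e => some e

/-- the type of the last edge -/
def ty : Pre → Bool
  | start _ => false
  | cross _ _ _ _ e => e

/-- validity -/
def valid : Pre → Prop
  | start _ => True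
  | cross p n j f e => p.valid ∧ dok p.ty j ∧ ¬ (n = 0 ∧ j = 0 ∧ f = false ∧ p.ls = some (!e))

/-- the group element -/
def toG : Pre → G
  | start k => ofB (pw false k)
  | cross p n j f e => p.toG * ofB (blk p.ty n j f) * sG e

/-- the slope -/
noncomputable def sl : Pre → ℝ
  | start _ => 1
  | cross p _ _ f e => p.sl * (if f && e then 1 / 2 else 1)

end Pre

/-- the basic functional -/
noncomputable def psi (u : Base) : ℝ := (2 * u.x + u.y) / 6

/-- the value -/
noncomputable def Pre.vl : Pre → ℝ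
  | .start k => k
  | .cross p n j f _ => p.vl + p.sl * psi (blk p.ty n j f)

theorem Pre.ty_of_ls {p : Pre} {e : Bool} (h : p.ls = some e) : p.ty = e := by
  cases p with
  | start k => simp [Pre.ls] at h
  | cross p n j f e' => simpa [Pre.ls, Pre.ty] using h

theorem Pre.ty_congr {p q : Pre} (h : p.ls = q.ls) : p.ty = q.ty := by
  cases p <;> cases q <;> simp_all [Pre.ls, Pre.ty]

theorem Pre.sl_bound (p : Pre) : 0 ≤ p.sl ∧ p.sl ≤ 1 := by
  induction p with
  | start k => simp [Pre.sl]
  | cross p n j f e ih =>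
    simp only [Pre.sl]
    split_ifs
    · constructor <;> linarith [ih.1, ih.2]
    · simpa using ih

/-! ### Normal words -/

open HNNExtension HNNExtension.NormalWord

/-- the type of a sign -/
def tyU (u : ℤˣ) : Bool := decide (u = 1)

/-- the sign -/
def sgU (e : Bool) : ℤˣ := if e then 1 else -1

theorem tyU_sgU (e : Bool) : tyU (sgU e) = e := by cases e <;> decide

theorem sgU_inj {e e' : Bool} (h : sgU e = sgU e') : e = e' := by
  rw [← tyU_sgU e, ← tyU_sgU e', h]

theorem mem_toSubgroup (u : ℤˣ) (g : Base) :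
    g ∈ toSubgroup Cs As u ↔ ∃ k : ℤ, g = pw (tyU u) k := by
  rcases Int.units_eq_one_or u with rfl | rfl
  · rw [toSubgroup_one, mem_Cs]
    have : tyU 1 = true := by decide
    rw [this]; rfl
  · rw [toSubgroup_neg_one, mem_As]
    have : tyU (-1) = false := by decide
    rw [this]; rfl

/-- the transversals -/
def dd : TransversalPair Base Cs As where
  set u := {g | ∃ (n : ℤ) (j : Fin 4) (f : Bool), dok (tyU u) j ∧ g = blk (tyU u) n j f}
  compl u := by
    rw [Subgroup.isComplement_iff_existsUnique]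
    intro g
    obtain ⟨k, n, j, hj, hg⟩ := decomp (tyU u) g
    refine ⟨(⟨pw (tyU u) k, (mem_toSubgroup u _).2 ⟨k, rfl⟩⟩, ⟨blk (tyU u) n j g.f, n, j, g.f, hj, rfl⟩),
      hg.symm, ?_⟩
    rintro ⟨⟨a, ha⟩, ⟨b, n', j', f', hj', rfl⟩⟩ hab
    obtain ⟨k', rfl⟩ := (mem_toSubgroup u _).1 ha
    simp only at hab
    obtain ⟨rfl, rfl, rfl, hf⟩ := decomp_unique (tyU u) hj' hj (hab.trans hg)
    simp only [hf]

/-- head and list -/
def nf : Pre → Base → Base × List (ℤˣ × Base)
  | .start k, r => (pw false k * r, [])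
  | .cross p n j f e, r => ((nf p (blk p.ty n j f)).1, (nf p (blk p.ty n j f)).2 ++ [(sgU e, r)])

theorem nf_prod (p : Pre) (r : Base) :
    ofB (nf p r).1 * ((nf p r).2.map (fun x => s ^ (x.1 : ℤ) * ofB x.2)).prod = p.toG * ofB r := by
  induction p generalizing r with
  | start k => simp [nf, Pre.toG]
  | cross p n j f e ih =>
    simp only [nf, List.map_append, List.prod_append, List.map_cons, List.map_nil,
      List.prod_singleton, Pre.toG]
    rw [← mul_assoc, ih]
    cases e
    · simp [sgU, sG, mul_assoc]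
    · simp [sgU, sG, mul_assoc]

theorem nf_chain (p : Pre) (hp : p.valid) (r : Base) :
    (nf p r).2.IsChain (fun a b => a.2 ∈ toSubgroup Cs As a.1 → a.1 = b.1) := by
  induction p generalizing r with
  | start k => simp [nf]
  | cross p n j f e ih =>
    obtain ⟨hv, hd, hn⟩ := hp
    simp only [nf]
    rw [List.isChain_append]
    refine ⟨ih hv _, by simp, ?_⟩
    intro a ha b hb hab
    simp only [List.head?_cons, Option.mem_def, Option.some.injEq] at hb
    subst hb
    cases p with
    | start k => simp [nf] at ha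
    | cross q n' j' f' e' =>
      simp only [nf, List.getLast?_append, List.getLast?_singleton, Option.some_or, Option.mem_def,
        Option.some.injEq] at ha
      subst ha
      simp only at hab ⊢
      rw [mem_toSubgroup, tyU_sgU] at hab
      obtain ⟨k, hk⟩ := hab
      have h1 := blk_mem hd hk
      have h2 : e' ≠ !e := by
        intro h
        apply hn
        refine ⟨h1.1, h1.2.1, h1.2.2, ?_⟩
        simp [Pre.ls, h]
      have h3 : e' = e := by cases e <;> cases e' <;> simp_all
      rw [h3]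

theorem nf_mem (p : Pre) (hp : p.valid) (n : ℤ) (j : Fin 4) (f : Bool) (hj : dok p.ty j) :
    ∀ u g, (u, g) ∈ (nf p (blk p.ty n j f)).2 → g ∈ dd.set u := by
  induction p generalizing n j f with
  | start k => simp [nf]
  | cross p n' j' f' e ih =>
    intro u g hug
    simp only [nf, List.mem_append, List.mem_singleton, Prod.mk.injEq] at hug
    rcases hug with hug | ⟨rfl, rfl⟩
    · exact ih hp.1 _ _ _ hp.2.1 u g hug
    · refine ⟨n, j, f, ?_, ?_⟩
      · rw [tyU_sgU]; exact hj
      · rw [tyU_sgU]; rfl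

/-- the normal word of a valid code -/
def nw (p : Pre) (hp : p.valid) (n : ℤ) (j : Fin 4) (f : Bool) (hj : dok p.ty j) :
    NormalWord dd where
  head := (nf p (blk p.ty n j f)).1
  toList := (nf p (blk p.ty n j f)).2
  chain := nf_chain p hp _
  mem_set := nf_mem p hp n j f hj

theorem nf_inj (p : Pre) : ∀ (p' : Pre) (n n' : ℤ) (j j' : Fin 4) (f f' : Bool),
    p.valid → p'.valid → dok p.ty j → dok p'.ty j' →
    nf p (blk p.ty n j f) = nf p' (blk p'.ty n' j' f') → p = p' ∧ n = n' ∧ j = j' ∧ f = f' := by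
  induction p with
  | start k =>
    intro p' n n' j j' f f' hp hp' hj hj' h
    cases p' with
    | start k' =>
      simp only [nf, Prod.mk.injEq, and_true] at h
      obtain ⟨rfl, rfl, rfl, rfl⟩ := decomp_unique false hj hj' h
      exact ⟨rfl, rfl, rfl, rfl⟩
    | cross q n₁ j₁ f₁ e₁ =>
      simp only [nf, Prod.mk.injEq] at h
      have := h.2
      simp at this
  | cross p n₀ j₀ f₀ e₀ ih =>
    intro p' n n' j j' f f' hp hp' hj hj' h
    cases p' with
    | start k' =>
      simp only [nf, Prod.mk.injEq] at h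
      have := h.2
      simp at this
    | cross q n₁ j₁ f₁ e₁ =>
      simp only [nf, Prod.mk.injEq] at h
      obtain ⟨h1, h2⟩ := h
      have h3 := List.append_inj' h2 rfl
      obtain ⟨h4, h5⟩ := h3
      simp only [List.cons.injEq, Prod.mk.injEq, and_true] at h5
      have he : e₀ = e₁ := sgU_inj h5.1
      subst he
      obtain ⟨rfl, rfl, rfl, rfl⟩ := ih q n₀ n₁ j₀ j₁ f₀ f₁ hp.1 hp'.1 hp.2.1 hp'.2.1
        (Prod.ext h1 h4)
      have h6 : blk e₀ n j f = blk e₀ n' j' f' := h5.2
      have h7 : pw e₀ 0 * blk e₀ n j f = pw e₀ 0 * blk e₀ n' j' f' := by rw [h6]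
      obtain ⟨_, rfl, rfl, rfl⟩ := decomp_unique e₀ hj hj' h7
      exact ⟨rfl, rfl, rfl, rfl⟩

/-- codes -/
structure Code where
  p : Pre
  n : ℤ
  j : Fin 4
  f : Bool

namespace Code

/-- validity -/
def valid (c : Code) : Prop := c.p.valid ∧ dok c.p.ty c.j

/-- group element -/
def toG (c : Code) : G := c.p.toG * ofB (blk c.p.ty c.n c.j c.f)

/-- the function witnessing undistortion -/
noncomputable def val (c : Code) : ℝ := c.p.vl + c.p.sl * psi (blk c.p.ty c.n c.j c.f)

end Code

theorem code_inj {c c' : Code} (hc : c.valid) (hc' : c'.valid) (h : c.toG = c'.toG) : c = c' := by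
  rcases c with ⟨p, n, j, f⟩
  rcases c' with ⟨p', n', j', f'⟩
  have e1 : (nw p hc.1 n j f hc.2).prod phi = (nw p' hc'.1 n' j' f' hc'.2).prod phi := by
    have h1 := nf_prod p (blk p.ty n j f)
    have h2 := nf_prod p' (blk p'.ty n' j' f')
    have h3 : p.toG * ofB (blk p.ty n j f) = p'.toG * ofB (blk p'.ty n' j' f') := h
    rw [← h1, ← h2] at h3
    exact h3
  have e2 := NormalWord.prod_injective phi dd e1
  have e3 : nf p (blk p.ty n j f) = nf p' (blk p'.ty n' j' f') := by
    apply Prod.ext
    · exact congrArg (fun w : NormalWord dd => w.head) e2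
    · exact congrArg (fun w : NormalWord dd => w.toList) e2
  obtain ⟨rfl, rfl, rfl, rfl⟩ := nf_inj p p' n n' j j' f f' hc.1 hc'.1 hc.2 hc'.2 e3
  rfl

end Run7.h463
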