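import Pool.Agent.Run7.h463.Section

set_option autoImplicit false

/-! The falsification by fellow traveller property gives finitely many cone types. -/

namespace Run7.h463

/-- a word is geodesic -/
def IsGeod {H : Type} [Group H] (X : Finset H) (v : List ({x // x ∈ X} × Bool)) : Prop :=
  ∀ w : List ({x // x ∈ X} × Bool), ev X w = ev X v → v.length ≤ w.length

/-- two words `K`-fellow travel -/
def FellowTravel {H : Type} [Group H] (X : Finset H) (K : ℕ)
    (v w : List ({x // x ∈ X} × Bool)) : Prop :=
  ∀ t : ℕ, ∃ z : List ({x // x ∈ X} × Bool), z.length ≤ K ∧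
    ev X (v.take t) * ev X z = ev X (w.take t)

/-- the falsification by fellow traveller property -/
def FFTP {H : Type} [Group H] (X : Finset H) : Prop :=
  ∃ K : ℕ, ∀ v : List ({x // x ∈ X} × Bool), ¬ IsGeod X v →
    ∃ w : List ({x // x ∈ X} × Bool), ev X w = ev X v ∧ w.length < v.length ∧
      FellowTravel X K v w

theorem cones_of_fftp {H : Type} [Group H] (X : Finset H)
    (hX : Subgroup.closure (X : Set H) = ⊤) (hF : FFTP X) :
    ∃ (S : Type) (_ : Fintype S) (st : H → S), ∀ g g' h : H, st g = st g' →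
      wl X (g * h) = wl X g + wl X h → wl X (g' * h) = wl X g' + wl X h := by
  classical
  obtain ⟨K, hK⟩ := hF
  have hfin : {l : List ({x // x ∈ X} × Bool) | l.length ≤ K}.Finite :=
    List.finite_length_le _ K
  let B : Finset H := hfin.toFinset.image (ev X)
  have hB : ∀ h : H, wl X h ≤ K → h ∈ B := by
    intro h hh
    obtain ⟨w, hw1, hw2⟩ := exists_geod X hX h
    exact Finset.mem_image.2 ⟨w, by simpa using (by omega : w.length ≤ K), hw2⟩
  have hB' : ∀ h : H, h ∈ B → wl X h ≤ K := by
    intro h hh
    obtain ⟨w, hw1, rfl⟩ := Finset.mem_image.1 hh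
    have : w.length ≤ K := by simpa using hw1
    exact le_trans (wl_le X w) this
  refine ⟨{h // h ∈ B} → Fin (2 * K + 1), inferInstance, fun g h =>
    ⟨wl X (g * h.1) + K - wl X g, ?_⟩, ?_⟩
  · have h1 := hB' h.1 h.2
    have h2 := wl_mul X hX g h.1
    omega
  · intro g g' h hst hl
    by_contra hne
    have hlt : wl X (g' * h) < wl X g' + wl X h := lt_of_le_of_ne (wl_mul X hX g' h) hne
    obtain ⟨u, hu1, hu2⟩ := exists_geod X hX g'
    obtain ⟨v, hv1, hv2⟩ := exists_geod X hX h
    have hng : ¬ IsGeod X (u ++ v) := by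
      intro hg
      obtain ⟨w, hw1, hw2⟩ := exists_geod X hX (g' * h)
      have := hg w (by rw [hw2, ev_append, hu2, hv2])
      rw [List.length_append] at this
      omega
    obtain ⟨w, hw1, hw2, hw3⟩ := hK _ hng
    rw [List.length_append] at hw2
    obtain ⟨z, hz1, hz2⟩ := hw3 u.length
    rw [List.take_left', hu2] at hz2
    · -- the relative length of z
      set k := ev X z with hk
      have hkB : k ∈ B := hB k (le_trans (wl_le X z) hz1)
      have h3 := congrFun hst ⟨k, hkB⟩
      simp only [Fin.mk.injEq] at h3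
      have h4 := hB' k hkB
      have b1 := wl_mul X hX (g * k) k⁻¹
      rw [mul_inv_cancel_right, wl_inv X hX] at b1
      have b2 := wl_mul X hX (g' * k) k⁻¹
      rw [mul_inv_cancel_right, wl_inv X hX] at b2
      have h5 : wl X (g' * k) ≤ (w.take u.length).length := by rw [hz2]; exact wl_le X _
      rw [List.length_take] at h5
      have h6 : ev X (w.take u.length) * ev X (w.drop u.length) = g' * h := by
        rw [← ev_append, List.take_append_drop, hw1, ev_append, hu2, hv2]
      rw [← hz2] at h6
      have h7 : k⁻¹ * h = ev X (w.drop u.length) := by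
        have : g' * (k * ev X (w.drop u.length)) = g' * h := by rw [← h6]; group
        have := mul_left_cancel this
        rw [← this]; group
      have h8 : wl X (k⁻¹ * h) ≤ w.length - u.length := by
        rw [h7, ← List.length_drop]; exact wl_le X _
      have h9 := wl_mul X hX (g * k) (k⁻¹ * h)
      have e : g * k * (k⁻¹ * h) = g * h := by group
      rw [e] at h9
      omega
    · rfl

/-- letters of a symmetric alphabet -/
def lets {H : Type} [Group H] (X : Finset H) (p : {x // x ∈ X} × Bool) : H :=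
  if p.2 = true then p.1.1 else p.1.1⁻¹

theorem lets_gen {H : Type} [Group H] (X : Finset H) (hX : Subgroup.closure (X : Set H) = ⊤) :
    Submonoid.closure (Set.range (lets X)) = ⊤ := by
  rw [eq_top_iff]
  intro g _
  obtain ⟨w, rfl⟩ := exists_word X hX g
  apply Submonoid.list_prod_mem
  intro x hx
  rw [List.mem_map] at hx
  obtain ⟨p, -, rfl⟩ := hx
  exact Submonoid.subset_closure ⟨p, rfl⟩

theorem no_cones (X : Finset G) (hX : Subgroup.closure (X : Set G) = ⊤)
    (hc : ∃ (S : Type) (_ : Fintype S) (st : G → S), ∀ g g' h : G, st g = st g' →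
      wl X (g * h) = wl X g + wl X h → wl X (g' * h) = wl X g' + wl X h) : False := by
  classical
  have hgen := lets_gen X hX
  have hAL := AL_words (lets X) hgen
  have hwl : ∀ g, ml (lets X) g = wl X g := fun g => rfl
  apply hAL.contra
  · obtain ⟨C, hC⟩ := ml_inv (lets X) hgen
    exact ⟨C, Nat.cast_nonneg C, fun g => by exact_mod_cast hC g⟩
  · obtain ⟨S, hS, st, hst⟩ := hc
    obtain ⟨Q, hQ⟩ := hAL.cross
    refine ⟨Q, S, hS, fun q x y => st x = q ∧ wl X (x * y) = wl X x + wl X y, ?_, ?_, ?_⟩
    · rintro q x y ⟨-, h⟩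
      change (wl X (x * y) : ℝ) = (wl X x : ℝ) + (wl X y : ℝ)
      exact_mod_cast h
    · rintro q x y x' y' ⟨h1, -⟩ ⟨h2, h3⟩
      change (wl X (x * y') : ℝ) = (wl X x : ℝ) + (wl X y' : ℝ)
      exact_mod_cast hst x' x y' (by rw [h1, h2]) h3
    · intro g k hgk
      obtain ⟨m, q, hq, h⟩ := hQ g k hgk
      refine ⟨m, q, hq, _, rfl, ?_⟩
      have e : g⁻¹ * vec (3 * m) 0 * q⁻¹ * (q * vec (3 * (-m)) 0 * k) = g⁻¹ * k := by
        have h4 : vec (3 * (-m)) 0 = (vec (3 * m) 0)⁻¹ := by
          rw [vec_inv, mul_neg, neg_zero]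
        rw [h4]; group
      rw [e]
      have h' : (wl X (g⁻¹ * k) : ℝ) = (wl X (g⁻¹ * vec (3 * m) 0 * q⁻¹) : ℝ) +
        (wl X (q * vec (3 * (-m)) 0 * k) : ℝ) := h
      exact_mod_cast h'

/-- `G` has the falsification by fellow traveller property for no finite generating set. -/
theorem not_fftp (X : Finset G) (hX : Subgroup.closure (X : Set G) = ⊤) : ¬ FFTP X := by
  intro hF
  exact no_cones X hX (cones_of_fftp X hX hF)

end Run7.h463
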