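import Pool.Agent.Run7.h463.Pairing
import Pool.Agent.Run7.h463.Metric

set_option autoImplicit false

/-! End of the analysis: no length function as in `Len` exists, hence the geodesic language of
`G` is never regular (granting undistortion of `c`). -/

namespace Run7.h463

/-- the set of slopes -/
def Sig (ℓ : G → ℝ) : Set ℝ := {σ | RealL ℓ σ ∧ RealL ℓ (-σ)}

namespace Len

variable {ℓ : G → ℝ} (hℓ : Len ℓ)
include hℓ

theorem sig_tc : tc ℓ ∈ Sig ℓ := ⟨hℓ.base_pos, hℓ.base_neg⟩

theorem sig_step {σ : ℝ} (hσ : σ ∈ Sig ℓ) :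
    RealC ℓ σ ∧ RealC ℓ (-σ) ∧ ∃ σ' ∈ Sig ℓ, ∃ σ'' ∈ Sig ℓ, 3 * σ = 2 * (σ' + σ'') := by
  obtain ⟨θ, h1, h2⟩ := hℓ.half_plane (hℓ.slope_le hσ.1)
  have r1 := h1 hσ.1
  have r2 := h2 hσ.2
  refine ⟨?_, ?_, ?_⟩
  · have := realC_of_real2 r1
    have e : 2 * (θ + (σ / 2 - θ)) = σ := by ring
    rwa [e] at this
  · have := realC_of_real2 r2
    have e : 2 * (-θ + -(σ / 2 - θ)) = -σ := by ring
    rwa [e] at this
  · have u1 := hℓ.up r1
    have u2 := hℓ.up r2
    refine ⟨3 * θ, ⟨u1.1, ?_⟩, 3 * (σ / 2 - θ), ⟨u1.2, ?_⟩, by ring⟩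
    · have := u2.1; rwa [mul_neg] at this
    · have := u2.2; rwa [mul_neg] at this

theorem sig_finite : (Sig ℓ).Finite := by
  obtain ⟨N, hN⟩ := hℓ.card_bound
  have h1 : ({σ | σ ∈ Sig ℓ ∧ |σ| < tc ℓ} : Set ℝ).Finite := by
    by_contra hinf
    obtain ⟨S, hS, hcard⟩ := Set.Infinite.exists_subset_card_eq hinf (N + 1)
    have := hN S (fun σ hσ => by
      have h := hS hσ
      have h2 := hℓ.sig_step h.1
      rw [one_mul, neg_one_mul]
      exact ⟨h2.1, h2.2.1, h.2⟩)
    omega
  refine (h1.union (Set.toFinite ({tc ℓ, -tc ℓ} : Set ℝ))).subset fun σ hσ => ?_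
  have hle := hℓ.slope_le hσ.1
  rcases lt_or_eq_of_le hle with h | h
  · exact Or.inl ⟨hσ, h⟩
  · right
    rcases abs_cases σ with ⟨h4, _⟩ | ⟨h4, _⟩
    · left; linarith
    · right; simp only [Set.mem_singleton_iff]; linarith

theorem contra : False := by
  have hfin := hℓ.sig_finite
  set N : Submodule ℤ ℝ := Submodule.span ℤ (Sig ℓ) with hN
  have hfg : N.FG := by
    have := Submodule.fg_span (R := ℤ) hfin
    exact this
  have hle : N ≤ (Ideal.span {(2 : ℤ)}) • N := by
    rw [hN, Submodule.span_le]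
    intro σ hσ
    obtain ⟨-, -, σ', h', σ'', h'', e⟩ := hℓ.sig_step hσ
    have e2 : σ = (2 : ℤ) • (σ' + σ'' - σ) := by
      rw [zsmul_eq_mul]; push_cast; linarith
    have hmem : σ' + σ'' - σ ∈ Submodule.span ℤ (Sig ℓ) :=
      Submodule.sub_mem _ (Submodule.add_mem _ (Submodule.subset_span h') (Submodule.subset_span h''))
        (Submodule.subset_span hσ)
    have := Submodule.smul_mem_smul (I := Ideal.span {(2 : ℤ)})
      (Ideal.mem_span_singleton_self (2 : ℤ)) hmem
    rw [← e2] at this
    exact this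
  obtain ⟨r, hr, hr2⟩ := Submodule.exists_sub_one_mem_and_smul_eq_zero_of_fg_of_le_smul _ N hfg hle
  have h3 := hr2 (tc ℓ) (Submodule.subset_span hℓ.sig_tc)
  have htc := hℓ.tc_pos
  rw [zsmul_eq_mul] at h3
  have h4 : (r : ℝ) = 0 := by
    rcases mul_eq_zero.1 h3 with h | h
    · exact h
    · exact (htc.ne' h).elim
  have h5 : r = 0 := by exact_mod_cast h4
  rw [h5, Ideal.mem_span_singleton] at hr
  omega

end Len

/-- the geodesic language of `G` is not regular for any finite generating set, granting that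
`c` is undistorted -/
theorem not_regular (hund : ∃ Φ : G → ℝ, (∀ x, ∃ C : ℝ, ∀ g, |Φ (g * x) - Φ g| ≤ C) ∧
      ∀ m : ℤ, Φ (vec (2 * m) (2 * m)) = m)
    (X : Finset G) (hX : Subgroup.closure (X : Set G) = ⊤) (σ : Type) [Fintype σ]
    (M : DFA ({x // x ∈ X} × Bool) σ)
    (hM : ∀ w : List ({x // x ∈ X} × Bool), M.eval w ∈ M.accept ↔
      ∀ v : List ({x // x ∈ X} × Bool), ev X v = ev X w → w.length ≤ v.length) : False := by
  classical
  obtain ⟨st, hst⟩ := cone_types X hX σ M hM
  have hlen : Len (fun g => (wl X g : ℝ)) := by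
    refine ⟨by simp [wl_one], fun g => Nat.cast_nonneg _, fun g h => ?_, fun g => ?_, ?_, ?_, ?_⟩
    · exact_mod_cast wl_mul X hX g h
    · rw [wl_inv X hX]
    · -- crossing
      choose Q hQ using exists_Q
      let QQ : Finset G := X.biUnion (fun x => Q x) ∪ X.biUnion (fun x => Q x⁻¹)
      refine ⟨QQ, fun g k hgk => ?_⟩
      have key : ∀ w : List ({x // x ∈ X} × Bool), ∀ g : G, F g ≠ F (g * ev X w) →
          ∃ w₁ w₂, w = w₁ ++ w₂ ∧ ∃ q ∈ QQ, InA (g * ev X w₁ * q) := by
        intro w
        induction w with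
        | nil => intro g h; simp at h
        | cons p w ih =>
          intro g h
          set x : G := if p.2 = true then p.1.1 else p.1.1⁻¹ with hx
          have hev : ∀ v, ev X (p :: v) = x * ev X v := fun v => ev_cons X p v
          by_cases h1 : F g = F (g * x)
          · have h2 : F (g * x) ≠ F (g * x * ev X w) := by
              rw [← h1, mul_assoc, ← hev]; exact h
            obtain ⟨w₁, w₂, e, q, hq, hA⟩ := ih _ h2
            refine ⟨p :: w₁, w₂, by rw [e]; rfl, q, hq, ?_⟩
            rw [hev, ← mul_assoc g]; exact hA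
          · obtain ⟨q, hq, hA⟩ := hQ x g h1
            refine ⟨[], p :: w, rfl, q, ?_, by simpa using hA⟩
            simp only [QQ, Finset.mem_union, Finset.mem_biUnion]
            rcases p with ⟨⟨y, hy⟩, b⟩
            cases b
            · right; exact ⟨y, hy, by simpa [x] using hq⟩
            · left; exact ⟨y, hy, by simpa [x] using hq⟩
      obtain ⟨w, hw1, hw2⟩ := exists_geod X hX (g⁻¹ * k)
      obtain ⟨w₁, w₂, e, q, hq, m, hm⟩ := key w g (by rw [hw2, mul_inv_cancel_left]; exact hgk)
      refine ⟨m, q, hq, ?_⟩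
      have hs := wl_geod_append X hX w₁ w₂ (by rw [← e, hw1, hw2])
      have e1 : g⁻¹ * vec (3 * m) 0 * q⁻¹ = ev X w₁ := by
        rw [← hm]; group
      have e2 : q * vec (3 * (-m)) 0 * k = ev X w₂ := by
        have h3 : ev X w₁ * ev X w₂ = g⁻¹ * k := by rw [← ev_append, ← e, hw2]
        have h4 : vec (3 * (-m)) 0 = (vec (3 * m) 0)⁻¹ := by
          rw [vec_inv, mul_neg, neg_zero]
        have h5 : ev X w₂ = (ev X w₁)⁻¹ * g⁻¹ * k := by
          rw [mul_assoc, ← h3]; group
        rw [h4, h5, ← hm]; group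
      rw [e1, e2, hs.1, hs.2, ← hw1, e, List.length_append]
      push_cast; ring
    · -- undistorted
      obtain ⟨Φ, h1, h2⟩ := hund
      choose C hC using h1
      set CC : ℝ := 1 + ∑ x ∈ X, (|C x| + |C x⁻¹|) with hCC
      have hs0 : 0 ≤ ∑ x ∈ X, (|C x| + |C x⁻¹|) :=
        Finset.sum_nonneg fun i _ => add_nonneg (abs_nonneg _) (abs_nonneg _)
      have hCC0 : 0 < CC := by linarith
      have hCx : ∀ x ∈ X, |C x| + |C x⁻¹| ≤ CC := by
        intro x hx
        have := Finset.single_le_sum (f := fun x => |C x| + |C x⁻¹|)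
          (fun i _ => add_nonneg (abs_nonneg (C i)) (abs_nonneg (C i⁻¹))) hx
        linarith
      have key : ∀ w : List ({x // x ∈ X} × Bool), ∀ g, |Φ (g * ev X w) - Φ g| ≤ CC * w.length := by
        intro w
        induction w with
        | nil => intro g; simp
        | cons p w ih =>
          intro g
          rw [ev_cons, ← mul_assoc]
          set x : G := if p.2 = true then p.1.1 else p.1.1⁻¹ with hx
          have a1 := ih (g * x)
          have a2 := hC x g
          have a3 : C x ≤ CC := by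
            rcases p with ⟨⟨y, hy⟩, b⟩
            have := hCx y hy
            have := le_abs_self (C y)
            have := le_abs_self (C y⁻¹)
            have := abs_nonneg (C y)
            have := abs_nonneg (C y⁻¹)
            cases b <;> simp only [hx] <;> simp <;> linarith
          have a4 := abs_sub_le (Φ (g * x * ev X w)) (Φ (g * x)) (Φ g)
          rw [List.length_cons]
          push_cast
          nlinarith
      refine ⟨1 / CC, by positivity, fun m => ?_⟩
      obtain ⟨w, hw1, hw2⟩ := exists_geod X hX (vec (2 * m) (2 * m))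
      have a1 := key w 1
      rw [one_mul, hw2, h2] at a1
      have a2 : Φ 1 = 0 := by
        have := h2 0
        simpa using this
      rw [a2, sub_zero, hw1] at a1
      rw [one_div, inv_mul_le_iff₀ hCC0]
      exact a1
    · refine ⟨σ, inferInstance, st, fun g g' h h1 h2 => ?_⟩
      have h3 : wl X (g * h) = wl X g + wl X h := by exact_mod_cast h2
      exact_mod_cast hst g g' h h1 h3
  exact hlen.contra

end Run7.h463
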