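import Mathlib

set_option autoImplicit false

/-! The group `G`: an HNN extension of `Base = ℤ² ⋊ C₂`. -/

namespace Run7.h463

/-- The base group `ℤ² ⋊ C₂`, where `C₂` swaps the coordinates. -/
@[ext] structure Base where
  x : ℤ
  y : ℤ
  f : Bool
deriving DecidableEq

namespace Base

instance : Mul Base :=
  ⟨fun g h => ⟨g.x + (if g.f then h.y else h.x), g.y + (if g.f then h.x else h.y), xor g.f h.f⟩⟩

instance : One Base := ⟨⟨0, 0, false⟩⟩

instance : Inv Base := ⟨fun g => if g.f then ⟨-g.y, -g.x, true⟩ else ⟨-g.x, -g.y, false⟩⟩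

theorem mul_def (g h : Base) : g * h =
    ⟨g.x + (if g.f then h.y else h.x), g.y + (if g.f then h.x else h.y), xor g.f h.f⟩ := rfl

theorem one_def : (1 : Base) = ⟨0, 0, false⟩ := rfl

theorem inv_def (g : Base) : g⁻¹ = if g.f then ⟨-g.y, -g.x, true⟩ else ⟨-g.x, -g.y, false⟩ := rfl

instance : Group Base :=
  Group.ofLeftAxioms
    (by
      rintro ⟨x, y, f⟩ ⟨x', y', f'⟩ ⟨x'', y'', f''⟩
      cases f <;> cases f' <;> cases f'' <;> simp [mul_def, add_assoc])
    (by
      rintro ⟨x, y, f⟩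
      simp [mul_def, one_def])
    (by
      rintro ⟨x, y, f⟩
      cases f <;> simp [mul_def, one_def, inv_def])

@[simp] theorem mul_ff (x y : ℤ) (x' y' : ℤ) (f' : Bool) :
    (⟨x, y, false⟩ : Base) * ⟨x', y', f'⟩ = ⟨x + x', y + y', f'⟩ := by
  simp [mul_def]

@[simp] theorem mul_tt (x y : ℤ) (x' y' : ℤ) (f' : Bool) :
    (⟨x, y, true⟩ : Base) * ⟨x', y', f'⟩ = ⟨x + y', y + x', !f'⟩ := by
  simp [mul_def]

@[simp] theorem inv_ff (x y : ℤ) : (⟨x, y, false⟩ : Base)⁻¹ = ⟨-x, -y, false⟩ := by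
  simp [inv_def]

@[simp] theorem inv_tt (x y : ℤ) : (⟨x, y, true⟩ : Base)⁻¹ = ⟨-y, -x, true⟩ := by
  simp [inv_def]

end Base

/-- The cyclic subgroup generated by `c = (2,2)`. -/
def Cs : Subgroup Base where
  carrier := {g | ∃ m : ℤ, g = ⟨2 * m, 2 * m, false⟩}
  one_mem' := ⟨0, rfl⟩
  mul_mem' := by
    rintro _ _ ⟨m, rfl⟩ ⟨n, rfl⟩
    exact ⟨m + n, by simp; ring⟩
  inv_mem' := by
    rintro _ ⟨m, rfl⟩
    exact ⟨-m, by simp⟩

/-- The cyclic subgroup generated by `A = (3,0)`. -/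
def As : Subgroup Base where
  carrier := {g | ∃ m : ℤ, g = ⟨3 * m, 0, false⟩}
  one_mem' := ⟨0, rfl⟩
  mul_mem' := by
    rintro _ _ ⟨m, rfl⟩ ⟨n, rfl⟩
    exact ⟨m + n, by simp; ring⟩
  inv_mem' := by
    rintro _ ⟨m, rfl⟩
    exact ⟨-m, by simp⟩

theorem mem_Cs {g : Base} : g ∈ Cs ↔ ∃ m : ℤ, g = ⟨2 * m, 2 * m, false⟩ := Iff.rfl
theorem mem_As {g : Base} : g ∈ As ↔ ∃ m : ℤ, g = ⟨3 * m, 0, false⟩ := Iff.rfl

/-- The isomorphism `c ^ m ↦ A ^ m`. -/
def phi : Cs ≃* As where
  toFun g := ⟨⟨3 * (g.1.x / 2), 0, false⟩, ⟨g.1.x / 2, rfl⟩⟩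
  invFun g := ⟨⟨2 * (g.1.x / 3), 2 * (g.1.x / 3), false⟩, ⟨g.1.x / 3, rfl⟩⟩
  left_inv := by
    rintro ⟨_, m, rfl⟩
    apply Subtype.ext
    simp
  right_inv := by
    rintro ⟨_, m, rfl⟩
    apply Subtype.ext
    simp
  map_mul' := by
    rintro ⟨_, m, rfl⟩ ⟨_, n, rfl⟩
    apply Subtype.ext
    simp only [Subgroup.coe_mul, Base.mul_ff, Base.mk.injEq, add_zero, and_self, and_true]
    omega

theorem phi_apply (a : Cs) (m : ℤ) (h : (a : Base) = ⟨2 * m, 2 * m, false⟩) :
    ((phi a : As) : Base) = ⟨3 * m, 0, false⟩ := by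
  change (⟨3 * ((a : Base).x / 2), 0, false⟩ : Base) = ⟨3 * m, 0, false⟩
  rw [h]
  simp

/-- The group of the counterexample. -/
abbrev G : Type := HNNExtension Base Cs As phi

/-- The embedding of the base. -/
def ofB : Base →* G := HNNExtension.of

/-- The stable letter. -/
def s : G := HNNExtension.t

theorem ofB_injective : Function.Injective ofB := HNNExtension.of_injective _

/-- The element `a^x b^y`. -/
def vec (x y : ℤ) : G := ofB ⟨x, y, false⟩

/-- The swap. -/
def tau : G := ofB ⟨0, 0, true⟩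

@[simp] theorem vec_zero : vec 0 0 = 1 := by
  have : (⟨0, 0, false⟩ : Base) = 1 := rfl
  simp [vec, this]

theorem vec_mul (x y x' y' : ℤ) : vec x y * vec x' y' = vec (x + x') (y + y') := by
  simp [vec, ← map_mul]

theorem vec_inv (x y : ℤ) : (vec x y)⁻¹ = vec (-x) (-y) := by
  simp [vec, ← map_inv]

theorem vec_comm (x y x' y' : ℤ) : vec x y * vec x' y' = vec x' y' * vec x y := by
  rw [vec_mul, vec_mul, add_comm, add_comm y]

theorem tau_mul_vec (x y : ℤ) : tau * vec x y = vec y x * tau := by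
  simp [vec, tau, ← map_mul]

theorem tau_mul_tau : tau * tau = 1 := by
  have h : (⟨0, 0, true⟩ : Base) * ⟨0, 0, true⟩ = 1 := by simp; rfl
  rw [tau, ← map_mul, h, map_one]

theorem tau_inv : tau⁻¹ = tau := by
  rw [inv_eq_iff_mul_eq_one, tau_mul_tau]

theorem ofB_eq (g : Base) : ofB g = vec g.x g.y * (if g.f then tau else 1) := by
  rcases g with ⟨x, y, f⟩
  cases f
  · simp [vec]
  · simp [vec, tau, ← map_mul]

theorem s_mul_vec (m : ℤ) : s * vec (2 * m) (2 * m) = vec (3 * m) 0 * s := by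
  have h := HNNExtension.t_mul_of (φ := phi) ⟨⟨2 * m, 2 * m, false⟩, mem_Cs.2 ⟨m, rfl⟩⟩
  rw [phi_apply _ m rfl] at h
  exact h

theorem sinv_mul_vec (m : ℤ) : s⁻¹ * vec (3 * m) 0 = vec (2 * m) (2 * m) * s⁻¹ := by
  rw [inv_mul_eq_iff_eq_mul, ← mul_assoc, s_mul_vec]
  group

/-- induction principle: right multiplication by the base and by `s ^ ±1` -/
theorem G_induction {P : G → Prop} (h1 : P 1) (hu : ∀ g u, P g → P (g * ofB u))
    (hs : ∀ g, P g → P (g * s)) (hs' : ∀ g, P g → P (g * s⁻¹)) (g : G) : P g := by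
  have key : ∀ x : G, (∀ g, P g → P (g * x)) ∧ (∀ g, P g → P (g * x⁻¹)) := by
    intro x
    induction x using HNNExtension.induction_on with
    | of u =>
      refine ⟨fun g hg => hu g u hg, fun g hg => ?_⟩
      have := hu g u⁻¹ hg
      rwa [map_inv] at this
    | t => exact ⟨hs, hs'⟩
    | mul x y hx hy =>
      refine ⟨fun g hg => ?_, fun g hg => ?_⟩
      · rw [← mul_assoc]; exact hy.1 _ (hx.1 _ hg)
      · rw [mul_inv_rev, ← mul_assoc]; exact hx.2 _ (hy.2 _ hg)
    | inv x hx =>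
      refine ⟨hx.2, fun g hg => ?_⟩
      rw [inv_inv]; exact hx.1 g hg
  simpa using (key g).1 1 h1

/-! ### The half-space -/

/-- membership in the cyclic group generated by `A` -/
def InA (k : G) : Prop := ∃ m : ℤ, k = vec (3 * m) 0

theorem InA_mul (k : G) (m : ℤ) : InA (k * vec (3 * m) 0) ↔ InA k := by
  constructor
  · rintro ⟨n, hn⟩
    refine ⟨n - m, ?_⟩
    rw [← eq_mul_inv_iff_mul_eq, vec_inv, vec_mul] at hn
    rw [hn]; congr 1 <;> ring
  · rintro ⟨n, rfl⟩
    exact ⟨n + m, by rw [vec_mul]; congr 1; ring⟩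

open Classical in
/-- indicator of `⟨A⟩` -/
noncomputable def chi (k : G) : ℤ := if InA k then 1 else 0

theorem chi_of_InA {k : G} (h : InA k) : chi k = 1 := by unfold chi; rw [if_pos h]
theorem chi_of_not_InA {k : G} (h : ¬ InA k) : chi k = 0 := by unfold chi; rw [if_neg h]

theorem chi_mul (k : G) (m : ℤ) : chi (k * vec (3 * m) 0) = chi k := by
  by_cases h : InA k
  · rw [chi_of_InA h, chi_of_InA ((InA_mul k m).2 h)]
  · rw [chi_of_not_InA h, chi_of_not_InA (fun h' => h ((InA_mul k m).1 h'))]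

/-- permutation given by right multiplication by `u⁻¹` on the first coordinate -/
def permB : Base →* Equiv.Perm (G × ℤ) where
  toFun u :=
    { toFun := fun p => (p.1 * (ofB u)⁻¹, p.2)
      invFun := fun p => (p.1 * ofB u, p.2)
      left_inv := fun p => by simp
      right_inv := fun p => by simp }
  map_one' := by ext p <;> simp
  map_mul' u v := by ext p <;> simp [mul_assoc]

/-- the permutation for the stable letter -/
noncomputable def permS : Equiv.Perm (G × ℤ) where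
  toFun := fun p => (p.1 * s⁻¹, p.2 - chi (p.1 * s⁻¹))
  invFun := fun p => (p.1 * s, p.2 + chi p.1)
  left_inv := fun p => by simp
  right_inv := fun p => by simp

/-- the action -/
noncomputable def rho : G →* Equiv.Perm (G × ℤ) :=
  HNNExtension.lift permB permS (by
    intro a
    obtain ⟨m, hm⟩ := a.2
    rw [phi_apply a m hm, hm]
    ext p
    · change p.1 * (vec (2 * m) (2 * m))⁻¹ * s⁻¹ = p.1 * s⁻¹ * (vec (3 * m) 0)⁻¹
      rw [mul_assoc, mul_assoc, ← mul_inv_rev, ← mul_inv_rev, s_mul_vec]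
    · change p.2 - chi (p.1 * (vec (2 * m) (2 * m))⁻¹ * s⁻¹) = p.2 - chi (p.1 * s⁻¹)
      congr 1
      rw [mul_assoc, ← mul_inv_rev, s_mul_vec, mul_inv_rev, vec_inv, ← mul_assoc]
      have := chi_mul (p.1 * s⁻¹) (-m)
      simpa using this)

theorem rho_ofB (u : Base) : rho (ofB u) = permB u := HNNExtension.lift_of _ _ _ _
theorem rho_s : rho s = permS := HNNExtension.lift_t _ _ _

theorem rho_fst (k : G) (p : G × ℤ) : (rho k p).1 = p.1 * k⁻¹ := by
  induction k using G_induction generalizing p with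
  | h1 => simp
  | hu g u ih => rw [map_mul, Equiv.Perm.mul_apply, ih, rho_ofB]; simp [permB, mul_assoc]
  | hs g ih => rw [map_mul, Equiv.Perm.mul_apply, ih, rho_s]; simp [permS, mul_assoc]
  | hs' g ih =>
    rw [map_mul, Equiv.Perm.mul_apply, ih, map_inv, rho_s]
    change p.1 * s * g⁻¹ = _
    simp [mul_assoc]

/-- the counting function of the half-space -/
noncomputable def F (k : G) : ℤ := (rho k⁻¹ (1, 0)).2

theorem rho_inv_eq (k : G) : rho k⁻¹ (1, 0) = (k, F k) := by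
  ext
  · rw [rho_fst]; simp
  · rfl

theorem F_one : F 1 = 0 := by simp [F]

theorem F_mul_ofB (k : G) (u : Base) : F (k * ofB u) = F k := by
  unfold F
  rw [mul_inv_rev, map_mul, Equiv.Perm.mul_apply, rho_inv_eq, ← map_inv, rho_ofB]
  rfl

theorem F_mul_s (k : G) : F (k * s) = F k + chi k := by
  have : F (k * s) = (rho (k * s)⁻¹ (1, 0)).2 := rfl
  rw [this, mul_inv_rev, map_mul, Equiv.Perm.mul_apply, rho_inv_eq, map_inv, rho_s]
  rfl

theorem F_mul_sinv (k : G) : F (k * s⁻¹) = F k - chi (k * s⁻¹) := by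
  have := F_mul_s (k * s⁻¹)
  rw [inv_mul_cancel_right] at this
  omega

theorem F_ofB (u : Base) : F (ofB u) = 0 := by
  have := F_mul_ofB 1 u
  rwa [one_mul, F_one] at this

theorem F_mul_vec (k : G) (x y : ℤ) : F (k * vec x y) = F k := F_mul_ofB k _

theorem F_vec (x y : ℤ) : F (vec x y) = 0 := F_ofB _

theorem F_of_InA {k : G} (h : InA k) : F k = 0 := by
  obtain ⟨m, rfl⟩ := h
  exact F_vec _ _

theorem F_mem (k : G) : F k = 0 ∨ F k = 1 := by
  induction k using G_induction with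
  | h1 => left; exact F_one
  | hu g u ih => rwa [F_mul_ofB]
  | hs g ih =>
    rw [F_mul_s]
    by_cases h : InA g
    · rw [F_of_InA h, chi_of_InA h]; simp
    · rw [chi_of_not_InA h]; simpa using ih
  | hs' g ih =>
    rw [F_mul_sinv]
    by_cases h : InA (g * s⁻¹)
    · have h1 := F_mul_s (g * s⁻¹)
      rw [inv_mul_cancel_right, F_of_InA h, chi_of_InA h] at h1
      rw [h1, chi_of_InA h]; simp
    · rw [chi_of_not_InA h]; simpa using ih

theorem InA_one : InA 1 := ⟨0, by simp⟩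

theorem F_s : F s = 1 := by
  have := F_mul_s 1
  rw [one_mul, F_one, chi_of_InA InA_one] at this
  simpa using this

theorem F_InA_s {k : G} (h : InA k) : F (k * s) = 1 := by
  rw [F_mul_s, F_of_InA h, chi_of_InA h]; rfl

theorem s_not_base (u v : Base) : ofB u * s ≠ ofB v := by
  intro h
  have h2 : s = ofB (u⁻¹ * v) := by rw [map_mul, map_inv, ← h]; group
  have := F_s
  rw [h2, F_ofB] at this
  exact absurd this (by norm_num)

/-- (H6 helper) `F (s u) = 1` for `u` in the base -/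
theorem F_s_ofB (u : Base) : F (s * ofB u) = 1 := by rw [F_mul_ofB, F_s]

theorem not_InA_ofB_sinv (u : Base) : ¬ InA (ofB u * s⁻¹) := by
  rintro ⟨m, hm⟩
  apply s_not_base ⟨3 * m, 0, false⟩ u
  rw [← vec, ← hm]; group

theorem F_ofB_sinv (u : Base) : F (ofB u * s⁻¹) = 0 := by
  rw [F_mul_sinv, F_ofB, chi_of_not_InA (not_InA_ofB_sinv u)]; rfl

/-- (H5) -/
theorem F_le5 (u : Base) (k : G) : F (ofB u * s⁻¹ * k) ≤ F k := by
  induction k using G_induction with
  | h1 => rw [mul_one, F_ofB_sinv, F_one]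
  | hu g v ih => rw [← mul_assoc, F_mul_ofB, F_mul_ofB]; exact ih
  | hs g ih =>
    by_cases h : InA (ofB u * s⁻¹ * g)
    · have hg : ∃ m : ℤ, g = s * ofB (u⁻¹ * ⟨3 * m, 0, false⟩) := by
        obtain ⟨m, hm⟩ := h
        refine ⟨m, ?_⟩
        rw [map_mul, map_inv, ← vec, ← hm]; group
      obtain ⟨m, hg⟩ := hg
      have h1 : F g = 1 := by rw [hg, F_s_ofB]
      have h2 : F (g * s) = 1 := by
        rcases F_mem (g * s) with h3 | h3
        · rw [F_mul_s, h1] at h3
          unfold chi at h3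
          split_ifs at h3 <;> omega
        · exact h3
      rw [h2]
      rcases F_mem (ofB u * s⁻¹ * (g * s)) with h3 | h3 <;> omega
    · rw [← mul_assoc, F_mul_s, F_mul_s, chi_of_not_InA h]
      unfold chi
      split_ifs <;> omega
  | hs' g ih =>
    by_cases h : InA (g * s⁻¹)
    · obtain ⟨m, hm⟩ := h
      rw [hm, F_vec, F_mul_vec, F_ofB_sinv]
    · rw [← mul_assoc, F_mul_sinv, F_mul_sinv, chi_of_not_InA h]
      unfold chi
      split_ifs <;> omega

theorem H5 {k : G} (u : Base) (h : F k = 0) : F (ofB u * s⁻¹ * k) = 0 := by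
  have := F_le5 u k
  rcases F_mem (ofB u * s⁻¹ * k) with h1 | h1 <;> omega

theorem InA_conj {u : Base} (h : InA (s * ofB u * s⁻¹)) : u ∈ Cs := by
  obtain ⟨m, hm⟩ := h
  refine ⟨m, ?_⟩
  apply ofB_injective
  have h2 := s_mul_vec m
  rw [← hm] at h2
  have : s * vec (2 * m) (2 * m) = s * ofB u := by rw [h2]; group
  exact (mul_left_cancel this).symm

theorem F_conj {u : Base} (h : u ∉ Cs) : F (s * ofB u * s⁻¹) = 1 := by
  rw [F_mul_sinv, F_s_ofB, chi_of_not_InA (fun h' => h (InA_conj h'))]; rfl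

/-- (H6) -/
theorem H6 {u : Base} (hu : u ∉ Cs) (k : G) : 1 ≤ F k + F (s * ofB u * s⁻¹ * k) := by
  induction k using G_induction with
  | h1 => rw [mul_one, F_one, F_conj hu]; norm_num
  | hu g v ih => rw [← mul_assoc, F_mul_ofB, F_mul_ofB]; exact ih
  | hs g ih =>
    rw [← mul_assoc, F_mul_s, F_mul_s]
    unfold chi
    split_ifs <;> omega
  | hs' g ih =>
    by_cases h : InA (g * s⁻¹)
    · obtain ⟨m, hm⟩ := h
      rw [hm, F_vec, F_mul_vec, F_conj hu]; norm_num
    · by_cases h' : InA (s * ofB u * s⁻¹ * (g * s⁻¹))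
      · obtain ⟨m, hm⟩ := h'
        have hg : g * s⁻¹ = s * ofB u⁻¹ * s⁻¹ * vec (3 * m) 0 := by
          rw [← hm, map_inv]; group
        have hu' : u⁻¹ ∉ Cs := fun h => hu (by simpa using Cs.inv_mem h)
        rw [hm, F_vec, hg, F_mul_vec, F_conj hu']; norm_num
      · rw [← mul_assoc] at h' ⊢
        rw [F_mul_sinv, F_mul_sinv, chi_of_not_InA h, chi_of_not_InA h']
        omega

theorem H6' {u : Base} (hu : u ∉ Cs) {k : G} (hk : F k = 0) : F (s * ofB u * s⁻¹ * k) = 1 := by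
  have := H6 hu k
  rcases F_mem (s * ofB u * s⁻¹ * k) with h1 | h1 <;> omega

/-- (H7) -/
theorem H7 {u : Base} (hu : u ∉ As) (k : G) : F k + F (ofB u * k) ≤ 1 := by
  have base : ∀ k, InA k → ¬ InA (ofB u * k) ∧ ∀ m : ℤ, F (ofB u * k) = 0 := by
    rintro k ⟨m, rfl⟩
    refine ⟨?_, fun _ => ?_⟩
    · rintro ⟨n, hn⟩
      apply hu
      refine ⟨n - m, ?_⟩
      apply ofB_injective
      have : ofB u = vec (3 * n) 0 * (vec (3 * m) 0)⁻¹ := by rw [← hn]; group
      rw [this, vec_inv, vec_mul, vec]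
      congr 2 <;> ring
    · rw [F_mul_vec, F_ofB]
  have hu' : u⁻¹ ∉ As := fun h => hu (by simpa using As.inv_mem h)
  have base' : ∀ k, InA (ofB u * k) → ¬ InA k ∧ F k = 0 := by
    rintro k ⟨m, hm⟩
    have hk : k = ofB (u⁻¹ * ⟨3 * m, 0, false⟩) := by
      rw [map_mul, map_inv, ← vec, ← hm]; group
    refine ⟨?_, by rw [hk, F_ofB]⟩
    intro h
    exact (base k h).1 ⟨m, hm⟩
  induction k using G_induction with
  | h1 => rw [mul_one, F_ofB, F_one]; norm_num
  | hu g v ih => rw [← mul_assoc, F_mul_ofB, F_mul_ofB]; exact ih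
  | hs g ih =>
    rw [← mul_assoc, F_mul_s, F_mul_s]
    by_cases h : InA g
    · rw [chi_of_InA h, chi_of_not_InA (base g h).1, (base g h).2 0, F_of_InA h]; norm_num
    · by_cases h' : InA (ofB u * g)
      · rw [chi_of_InA h', chi_of_not_InA h, (base' g h').2, F_of_InA h']; norm_num
      · rw [chi_of_not_InA h, chi_of_not_InA h']; simpa using ih
  | hs' g ih =>
    rw [← mul_assoc, F_mul_sinv, F_mul_sinv]
    unfold chi
    split_ifs <;> omega

theorem H7' {u : Base} (hu : u ∉ As) {k : G} (hk : F k = 1) : F (ofB u * k) = 0 := by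
  have := H7 hu k
  rcases F_mem (ofB u * k) with h1 | h1 <;> omega

/-- crossing: for every `x`, whenever `F p ≠ F (p x)`, some `p q` with `q` in a finite set
lies in `⟨A⟩`. -/
theorem exists_Q (x : G) : ∃ Q : Finset G, ∀ p : G, F p ≠ F (p * x) → ∃ q ∈ Q, InA (p * q) := by
  classical
  induction x using HNNExtension.induction_on with
  | of u =>
    refine ⟨∅, fun p hp => ?_⟩
    exact absurd (F_mul_ofB p u).symm hp
  | t =>
    refine ⟨{1}, fun p hp => ⟨1, by simp, ?_⟩⟩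
    by_contra h
    rw [mul_one] at h
    apply hp
    change F p = F (p * s)
    rw [F_mul_s, chi_of_not_InA h]; simp
  | mul x y hx hy =>
    obtain ⟨Q1, h1⟩ := hx
    obtain ⟨Q2, h2⟩ := hy
    refine ⟨Q1 ∪ Q2.image (fun q => x * q), fun p hp => ?_⟩
    by_cases h : F p = F (p * x)
    · have h' : F (p * x) ≠ F (p * x * y) := by
        rw [← h, mul_assoc]; exact hp
      obtain ⟨q, hq, hA⟩ := h2 _ h'
      exact ⟨x * q, by simp only [Finset.mem_union, Finset.mem_image]; right; exact ⟨q, hq, rfl⟩,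
        by rwa [← mul_assoc]⟩
    · obtain ⟨q, hq, hA⟩ := h1 _ h
      exact ⟨q, by simp [hq], hA⟩
  | inv x hx =>
    obtain ⟨Q1, h1⟩ := hx
    refine ⟨Q1.image (fun q => x⁻¹ * q), fun p hp => ?_⟩
    have h' : F (p * x⁻¹) ≠ F (p * x⁻¹ * x) := by
      rw [inv_mul_cancel_right]; exact hp.symm
    obtain ⟨q, hq, hA⟩ := h1 _ h'
    exact ⟨x⁻¹ * q, Finset.mem_image.2 ⟨q, hq, rfl⟩, by rwa [← mul_assoc]⟩

end Run7.h463
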