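import Pool.Agent.Run7.h463.Slopes

set_option autoImplicit false

/-! The half-plane lemma. -/

namespace Run7.h463

open Filter Topology

namespace Len

variable {ℓ : G → ℝ} (hℓ : Len ℓ)
include hℓ

/-- the set of normalised costs -/
theorem theta_exists {σ : ℝ} (hσ : |σ| ≤ tc ℓ) : ∃ θ : ℝ,
    (∀ k : ℕ, 1 ≤ k → ∀ m : ℤ, k * θ ≤ m * σ + ℓ (vec (k - 2 * m) (-(2 * m)))) ∧
    (∀ η : ℝ, 0 < η → ∃ k : ℕ, 1 ≤ k ∧ ∃ m : ℤ,
      m * σ + ℓ (vec (k - 2 * m) (-(2 * m))) ≤ k * (θ + η)) := by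
  set S : Set ℝ := {r | ∃ k : ℕ, 1 ≤ k ∧ ∃ m : ℤ,
    r = (m * σ + ℓ (vec (k - 2 * m) (-(2 * m)))) / k} with hS
  have hne : S.Nonempty := ⟨_, 1, le_rfl, 0, rfl⟩
  have hbd : BddBelow S := by
    refine ⟨-ℓ (vec 1 0), ?_⟩
    rintro _ ⟨k, hk, m, rfl⟩
    have hk0 : (0 : ℝ) < k := by exact_mod_cast hk
    rw [le_div_iff₀ hk0]
    have h1 := hℓ.vec_mul_nat 1 0 k
    simp only [mul_one, mul_zero] at h1
    have h2 := hℓ.tc_le m
    have h3 := hℓ.mul (vec k 0) (vec (k - 2 * m) (-(2 * m)))⁻¹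
    have e : vec k 0 * (vec (k - 2 * m) (-(2 * m)))⁻¹ = cc m := by
      rw [vec_inv, vec_mul, cc]; congr 1 <;> ring
    rw [e, hℓ.inv] at h3
    have h4 : -(m * σ) ≤ tc ℓ * |(m : ℝ)| := by
      have := neg_abs_le (m * σ)
      rw [abs_mul] at this
      nlinarith [abs_nonneg (m : ℝ), abs_nonneg σ]
    linarith
  refine ⟨sInf S, ?_, ?_⟩
  · intro k hk m
    have hk0 : (0 : ℝ) < k := by exact_mod_cast hk
    have : sInf S ≤ (m * σ + ℓ (vec (k - 2 * m) (-(2 * m)))) / k :=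
      csInf_le hbd ⟨k, hk, m, rfl⟩
    rw [le_div_iff₀ hk0] at this
    linarith
  · intro η hη
    obtain ⟨r, ⟨k, hk, m, rfl⟩, hr⟩ := exists_lt_of_csInf_lt hne
      (show sInf S < sInf S + η by linarith)
    have hk0 : (0 : ℝ) < k := by exact_mod_cast hk
    rw [div_lt_iff₀ hk0] at hr
    exact ⟨k, hk, m, by linarith⟩

theorem lower_bound {σ θ : ℝ} (hσ : |σ| ≤ tc ℓ)
    (h1 : ∀ k : ℕ, 1 ≤ k → ∀ m : ℤ, k * θ ≤ m * σ + ℓ (vec (k - 2 * m) (-(2 * m))))
    (h2 : ∀ η : ℝ, 0 < η → ∃ k : ℕ, 1 ≤ k ∧ ∃ m : ℤ,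
      m * σ + ℓ (vec (k - 2 * m) (-(2 * m))) ≤ k * (θ + η)) (x y m : ℤ) :
    θ * x + (σ / 2 - θ) * y ≤ m * σ + ℓ (vec (x - 2 * m) (y - 2 * m)) := by
  rcases lt_trichotomy 0 (x - y) with hk | hk | hk
  · -- positive difference
    obtain ⟨k, hk'⟩ := Int.eq_ofNat_of_zero_le hk.le
    have hk1 : 1 ≤ 2 * k := by omega
    have a1 := h1 (2 * k) hk1 (2 * m - y)
    have e : vec (((2 * k : ℕ) : ℤ) - 2 * (2 * m - y)) (-(2 * (2 * m - y))) =
        vec (((2 : ℕ) : ℤ) * (x - 2 * m)) (((2 : ℕ) : ℤ) * (y - 2 * m)) := by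
      congr 1
      · push_cast; rw [← hk']; ring
      · push_cast; ring
    rw [e] at a1
    have a2 := hℓ.vec_mul_nat (x - 2 * m) (y - 2 * m) 2
    have e3 : (k : ℝ) = x - y := by
      have : ((x - y : ℤ) : ℝ) = ((k : ℤ) : ℝ) := by rw [hk']
      push_cast at this
      linarith
    push_cast at a1 a2
    rw [e3] at a1
    linarith
  · -- zero difference
    have hxy : x = y := by omega
    subst hxy
    have a2 := hℓ.vec_mul_nat (x - 2 * m) (x - 2 * m) 2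
    have e : vec (((2 : ℕ) : ℤ) * (x - 2 * m)) (((2 : ℕ) : ℤ) * (x - 2 * m)) = cc (x - 2 * m) := by
      rw [cc]; rfl
    rw [e] at a2
    have a3 := hℓ.tc_le (x - 2 * m)
    have a4 : ((x - 2 * m : ℤ) : ℝ) * σ ≤ tc ℓ * |((x - 2 * m : ℤ) : ℝ)| := by
      have := le_abs_self (((x - 2 * m : ℤ) : ℝ) * σ)
      rw [abs_mul] at this
      nlinarith [abs_nonneg ((x - 2 * m : ℤ) : ℝ), abs_nonneg σ]
    push_cast at a2 a3 a4
    linarith
  · -- negative difference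
    obtain ⟨n, hn⟩ := Int.eq_ofNat_of_zero_le (show 0 ≤ y - x by omega)
    have key : ∀ η : ℝ, 0 < η →
        θ * x + (σ / 2 - θ) * y ≤ m * σ + ℓ (vec (x - 2 * m) (y - 2 * m)) + n * η := by
      intro η hη
      obtain ⟨k, hk1, m₀, hm₀⟩ := h2 η hη
      have hk0 : (0 : ℝ) < k := by exact_mod_cast hk1
      have b1 := hℓ.vec_mul_nat (x - 2 * m) (y - 2 * m) (2 * k)
      have b2 := hℓ.vec_mul_nat (k - 2 * m₀) (-(2 * m₀)) (2 * n)
      have b3 := hℓ.mul (vec (((2 * k : ℕ) : ℤ) * (x - 2 * m)) (((2 * k : ℕ) : ℤ) * (y - 2 * m)))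
        (vec (((2 * n : ℕ) : ℤ) * (k - 2 * m₀)) (((2 * n : ℕ) : ℤ) * (-(2 * m₀))))
      have e : vec (((2 * k : ℕ) : ℤ) * (x - 2 * m)) (((2 * k : ℕ) : ℤ) * (y - 2 * m)) *
          vec (((2 * n : ℕ) : ℤ) * (k - 2 * m₀)) (((2 * n : ℕ) : ℤ) * (-(2 * m₀))) =
          cc (k * (y - 2 * m) - 2 * n * m₀) := by
        rw [vec_mul, cc]
        congr 1
        · push_cast
          have : (n : ℤ) = y - x := hn.symm
          rw [this]; ring
        · push_cast; ring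
      rw [e] at b3
      have b4 := hℓ.tc_le (k * (y - 2 * m) - 2 * n * m₀)
      have b5 : ((k * (y - 2 * m) - 2 * n * m₀ : ℤ) : ℝ) * σ ≤
          tc ℓ * |((k * (y - 2 * m) - 2 * n * m₀ : ℤ) : ℝ)| := by
        have := le_abs_self (((k * (y - 2 * m) - 2 * n * m₀ : ℤ) : ℝ) * σ)
        rw [abs_mul] at this
        nlinarith [abs_nonneg ((k * (y - 2 * m) - 2 * n * m₀ : ℤ) : ℝ), abs_nonneg σ]
      have e3 : (n : ℝ) = y - x := by
        have : ((y - x : ℤ) : ℝ) = ((n : ℤ) : ℝ) := by rw [hn]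
        push_cast at this
        linarith
      have hn0 : (0 : ℝ) ≤ n := Nat.cast_nonneg n
      set W := ℓ (vec (x - 2 * m) (y - 2 * m)) with hW
      set W₀ := ℓ (vec (k - 2 * m₀) (-(2 * m₀))) with hW₀
      -- k (y - 2m) σ - 2 n m₀ σ ≤ 2 k W + 2 n W₀
      have c1 : ((k : ℝ) * (y - 2 * m) - 2 * n * m₀) * σ ≤ 2 * k * W + 2 * n * W₀ := by
        push_cast at b5 b1 b2 b4 b3
        linarith
      have c2 : 2 * (n : ℝ) * (m₀ * σ + W₀) ≤ 2 * n * (k * (θ + η)) :=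
        mul_le_mul_of_nonneg_left hm₀ (by linarith)
      have c3 : (k : ℝ) * ((y - 2 * m) * σ) ≤ k * (2 * W + 2 * n * (θ + η)) := by
        linarith
      have c4 := le_of_mul_le_mul_left c3 hk0
      rw [show x = y - (n : ℤ) by omega]
      push_cast
      linarith
    by_contra hcon
    push Not at hcon
    set d := θ * x + (σ / 2 - θ) * y - (m * σ + ℓ (vec (x - 2 * m) (y - 2 * m))) with hd
    have hd0 : 0 < d := by simp only [hd]; linarith
    have hn0 : (0 : ℝ) ≤ n := Nat.cast_nonneg n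
    have := key (d / (2 * (n + 1))) (by positivity)
    have h5 : (n : ℝ) * (d / (2 * (n + 1))) ≤ d / 2 := by
      rw [mul_div_assoc', div_le_div_iff₀ (by positivity) (by norm_num)]
      nlinarith
    linarith

theorem opt {σ θ : ℝ}
    (h2 : ∀ η : ℝ, 0 < η → ∃ k : ℕ, 1 ≤ k ∧ ∃ m : ℤ,
      m * σ + ℓ (vec (k - 2 * m) (-(2 * m))) ≤ k * (θ + η)) (η : ℝ) (hη : 0 < η) :
    ∃ B : ℕ, 1 ≤ B ∧ ∃ C : ℝ, ∀ x y : ℤ, 0 ≤ x - y → ∃ m : ℤ,
      |(m : ℝ)| ≤ B * (|(x : ℝ)| + |(y : ℝ)| + 1) ∧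
      m * σ + ℓ (vec (x - 2 * m) (y - 2 * m)) ≤
        θ * x + (σ / 2 - θ) * y + η * |(x : ℝ) - y| + C := by
  obtain ⟨k, hk1, m₀, hm₀⟩ := h2 η hη
  have hk0 : (0 : ℝ) < k := by exact_mod_cast hk1
  have hk0' : (0 : ℤ) < k := by exact_mod_cast hk1
  set Λ := ℓ (vec 1 0) + ℓ (vec 0 1) with hΛ
  have hΛ0 : 0 ≤ Λ := add_nonneg (hℓ.nonneg _) (hℓ.nonneg _)
  refine ⟨1 + m₀.natAbs, by omega, (k + 2) * Λ + |σ| + k * (|θ| + η), fun x y hxy => ?_⟩
  obtain ⟨q, hq⟩ := Int.eq_ofNat_of_zero_le (Int.ediv_nonneg hxy hk0'.le)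
  have hr0 := Int.emod_nonneg (x - y) hk0'.ne'
  have hr1 := Int.emod_lt_of_pos (x - y) hk0'
  have hqr := Int.mul_ediv_add_emod (x - y) k
  rw [hq] at hqr
  set r := (x - y) % k with hr
  set t := y / 2 with ht
  set y₀ := y % 2 with hy₀
  have hy01 : 0 ≤ y₀ := by omega
  have hy02 : y₀ ≤ 1 := by omega
  have hty : y = 2 * t + y₀ := by omega
  have hqr' : x - y = k * q + r := hqr.symm
  refine ⟨t + q * m₀, ?_, ?_⟩
  · -- the size bound
    have a1 : |(t : ℝ)| ≤ |(y : ℝ)| + 1 := by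
      have : |t| ≤ |y| + 1 := by
        rw [abs_le]; constructor
        · have := neg_abs_le y
          have := abs_nonneg y
          omega
        · have := le_abs_self y
          have := abs_nonneg y
          omega
      exact_mod_cast this
    have a2 : (q : ℝ) ≤ |(x : ℝ)| + |(y : ℝ)| := by
      have h5 : (q : ℤ) ≤ x - y := by nlinarith
      have h6 : (q : ℝ) ≤ x - y := by exact_mod_cast h5
      have := le_abs_self (x : ℝ)
      have := neg_abs_le (y : ℝ)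
      linarith
    have a3 : ((m₀.natAbs : ℕ) : ℝ) = |(m₀ : ℝ)| := by
      rw [Nat.cast_natAbs]; push_cast; rfl
    push_cast
    rw [a3]
    have a4 : |(t : ℝ) + q * m₀| ≤ |(t : ℝ)| + q * |(m₀ : ℝ)| := by
      have := abs_add_le (t : ℝ) (q * m₀)
      rw [abs_mul, Nat.abs_cast] at this
      exact this
    have a5 : (q : ℝ) * |(m₀ : ℝ)| ≤ (|(x : ℝ)| + |(y : ℝ)|) * |(m₀ : ℝ)| :=
      mul_le_mul_of_nonneg_right a2 (abs_nonneg _)
    have := abs_nonneg (x : ℝ)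
    have := abs_nonneg (m₀ : ℝ)
    nlinarith
  · -- the cost bound
    have e : vec (x - 2 * (t + q * m₀)) (y - 2 * (t + q * m₀)) =
        vec (q * (k - 2 * m₀)) (q * (-(2 * m₀))) * vec (r + y₀) y₀ := by
      rw [vec_mul]
      congr 1
      · have : x = 2 * t + y₀ + (k * q + r) := by omega
        rw [this]; ring
      · rw [hty]; ring
    rw [e]
    have b1 := hℓ.mul (vec (q * (k - 2 * m₀)) (q * (-(2 * m₀)))) (vec (r + y₀) y₀)
    have b2 := hℓ.vec_mul_nat (k - 2 * m₀) (-(2 * m₀)) q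
    have b3 := hℓ.vec_bound (r + y₀) y₀
    have b4 : (|((r + y₀ : ℤ) : ℝ)| + |(y₀ : ℝ)|) ≤ k + 2 := by
      have c1 : |((r + y₀ : ℤ) : ℝ)| = ((r + y₀ : ℤ) : ℝ) := by
        rw [abs_of_nonneg]; exact_mod_cast (by omega : (0 : ℤ) ≤ r + y₀)
      have c2 : |(y₀ : ℝ)| = (y₀ : ℝ) := by
        rw [abs_of_nonneg]; exact_mod_cast hy01
      rw [c1, c2]
      have : r + y₀ + y₀ ≤ (k : ℤ) + 2 := by omega
      exact_mod_cast this
    have b5 : ℓ (vec (r + y₀) y₀) ≤ (k + 2) * Λ :=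
      le_trans b3 (mul_le_mul_of_nonneg_right b4 hΛ0)
    set W₀ := ℓ (vec (k - 2 * m₀) (-(2 * m₀))) with hW₀
    have hq0 : (0 : ℝ) ≤ q := Nat.cast_nonneg q
    have b6 : (q : ℝ) * (m₀ * σ + W₀) ≤ q * (k * (θ + η)) :=
      mul_le_mul_of_nonneg_left hm₀ hq0
    have hr0' : (0 : ℝ) ≤ r := by exact_mod_cast hr0
    have hr1' : (r : ℝ) ≤ k := by exact_mod_cast hr1.le
    have hxy' : (x : ℝ) - y = k * q + r := by exact_mod_cast hqr'
    have hyt : (y : ℝ) = 2 * t + y₀ := by exact_mod_cast hty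
    have hy01' : (0 : ℝ) ≤ y₀ := by exact_mod_cast hy01
    have hy02' : (y₀ : ℝ) ≤ 1 := by exact_mod_cast hy02
    have b7 : (t : ℝ) * σ ≤ y / 2 * σ + |σ| := by
      have c1 : (t : ℝ) = y / 2 - y₀ / 2 := by linarith
      rw [c1]
      have := neg_abs_le σ
      have := abs_nonneg σ
      nlinarith
    have b8 : (q : ℝ) * (k * (θ + η)) ≤ ((x : ℝ) - y) * (θ + η) + k * (|θ| + η) := by
      have c1 : (q : ℝ) * k = (x - y) - r := by linarith
      have c2 : -(r * (θ + η)) ≤ k * (|θ| + η) := by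
        have c3 := neg_abs_le θ
        have c4 := abs_nonneg θ
        have c5 : -(r * θ) ≤ r * |θ| := by nlinarith
        have c6 : r * |θ| ≤ k * |θ| := mul_le_mul_of_nonneg_right hr1' c4
        nlinarith
      calc (q : ℝ) * (k * (θ + η)) = (q * k) * (θ + η) := by ring
        _ = ((x - y) - r) * (θ + η) := by rw [c1]
        _ = (x - y) * (θ + η) + -(r * (θ + η)) := by ring
        _ ≤ _ := by linarith
    have b9 : |(x : ℝ) - y| = x - y := by
      rw [abs_of_nonneg]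
      have : (0 : ℝ) ≤ ((x - y : ℤ) : ℝ) := by exact_mod_cast hxy
      push_cast at this
      exact this
    rw [b9]
    push_cast
    nlinarith

/-- realisation of a plane functional from line sources -/
theorem hp_main {σ p q : ℝ} (d : ℤ) (hd : d = 1 ∨ d = -1)
    (h1 : ∀ x y m : ℤ, p * x + q * y ≤ m * σ + ℓ (vec (x - 2 * m) (y - 2 * m)))
    (h2 : ∀ η : ℝ, 0 < η → ∃ B : ℕ, 1 ≤ B ∧ ∃ C : ℝ, ∀ x y : ℤ, 0 ≤ d * (x - y) → ∃ m : ℤ,
      |(m : ℝ)| ≤ B * (|(x : ℝ)| + |(y : ℝ)| + 1) ∧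
      m * σ + ℓ (vec (x - 2 * m) (y - 2 * m)) ≤
        p * x + q * y + η * |(x : ℝ) - y| + C)
    (hR : RealL ℓ σ) : Real2 ℓ p q := by
  intro ε hε
  obtain ⟨B, hB1, C, hBC⟩ := h2 (ε / 100) (by linarith)
  have hB0 : (0 : ℝ) < B := by exact_mod_cast hB1
  obtain ⟨K, L₀, hK⟩ := hR (ε / (700 * B)) (by positivity)
  obtain ⟨N, hN⟩ := exists_nat_ge (100 * C / ε)
  have ha := hℓ.nonneg (vec 1 0)
  refine ⟨7 * B * K + 2 * ℓ (vec 1 0), L₀ + N + 1, fun L hL => ?_⟩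
  obtain ⟨g, hg, hgK, hlo, hup, hline⟩ := hK (7 * B * L) (by nlinarith)
  have hL1 : (1 : ℝ) ≤ L := by
    have : 1 ≤ L := by omega
    exact_mod_cast this
  have hLN : (N : ℝ) ≤ L := by
    have : N ≤ L := by omega
    exact_mod_cast this
  have hCL : C ≤ ε / 100 * L := by
    have : 100 * C / ε ≤ L := le_trans hN hLN
    rw [div_le_iff₀ hε] at this
    linarith
  have hcast : ((7 * B * L : ℕ) : ℝ) = 7 * B * L := by push_cast; ring
  rw [hcast] at hgK hlo hup hline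
  have hE : ε / (700 * B) * (7 * B * L) = ε / 100 * L := by
    field_simp; ring
  rw [hE] at hlo hup hline
  set E := ε / 100 * L with hEdef
  have hE0 : 0 < E := by positivity
  -- lower bound
  have lower : ∀ x y : ℤ, ℓ g + (p * x + q * y) - 2 * E ≤ ℓ (g * vec x y) := by
    intro x y
    obtain ⟨m, hm⟩ := hline x y
    have a1 := hlo m
    have a2 := h1 x y m
    linarith
  have upper : ∀ x y : ℤ, 0 ≤ d * (x - y) → |(x : ℝ)| ≤ 3 * L → |(y : ℝ)| ≤ L →
      ℓ (g * vec x y) ≤ ℓ g + (p * x + q * y) + 6 * E := by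
    intro x y hxy hx hy
    obtain ⟨m, hm1, hm2⟩ := hBC x y hxy
    have hm3 : |(m : ℝ)| ≤ 7 * B * L := by
      refine le_trans hm1 ?_
      have : |(x : ℝ)| + |(y : ℝ)| + 1 ≤ 7 * L := by linarith
      calc (B : ℝ) * (|(x : ℝ)| + |(y : ℝ)| + 1) ≤ B * (7 * L) :=
            mul_le_mul_of_nonneg_left this hB0.le
        _ = 7 * B * L := by ring
    have a1 := hup m hm3
    have a2 := hℓ.mul (g * cc m) (vec (x - 2 * m) (y - 2 * m))
    have e : g * cc m * vec (x - 2 * m) (y - 2 * m) = g * vec x y := by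
      rw [mul_assoc, cc_mul_vec]; congr 2 <;> ring
    rw [e] at a2
    have a3 : ε / 100 * |(x : ℝ) - y| ≤ 4 * E := by
      have : |(x : ℝ) - y| ≤ 4 * L := by
        have := abs_sub (x : ℝ) y
        linarith
      have h5 : ε / 100 * |(x : ℝ) - y| ≤ ε / 100 * (4 * L) :=
        mul_le_mul_of_nonneg_left this (by positivity)
      linarith
    linarith
  have hd' : (d : ℝ) * d = 1 := by rcases hd with rfl | rfl <;> norm_num
  have hdabs : |(d : ℝ)| = 1 := by rcases hd with rfl | rfl <;> norm_num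
  have hdd : d * d = 1 := by rcases hd with rfl | rfl <;> norm_num
  have hLpos : 0 < L := by omega
  -- the length of g * vec (2 d L) 0
  have gl := lower (2 * d * L) 0
  have gu := upper (2 * d * L) 0 (by
      have : d * (2 * d * (L : ℤ) - 0) = 2 * L := by
        calc d * (2 * d * (L : ℤ) - 0) = 2 * (d * d) * L := by ring
          _ = 2 * L := by rw [hdd]; ring
      rw [this]; positivity)
    (by push_cast; rw [abs_mul, abs_mul, hdabs, Nat.abs_cast]; norm_num; linarith)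
    (by simp)
  push_cast at gl gu
  refine ⟨g * vec (2 * d * L) 0, ?_, ?_, ?_, ?_⟩
  · apply hg
    have : (L : ℤ) ≠ 0 := by exact_mod_cast hLpos.ne'
    rcases hd with rfl | rfl <;> omega
  · have b1 := hℓ.mul g (vec (2 * d * L) 0)
    have b2 : ℓ (vec (2 * d * L) 0) ≤ 2 * L * ℓ (vec 1 0) := by
      have b3 := hℓ.vec_mul_nat 1 0 (2 * L)
      rcases hd with rfl | rfl
      · simpa using b3
      · have b4 := hℓ.vec_neg (2 * L) 0
        have e : (2 * (-1 : ℤ) * (L : ℤ)) = -(2 * (L : ℤ)) := by ring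
        rw [neg_zero] at b4
        rw [e, b4]
        simpa using b3
    nlinarith
  · intro x y
    rw [mul_assoc g, vec_mul]
    have b1 := lower (2 * d * L + x) (0 + y)
    push_cast at b1
    nlinarith
  · intro x y hx hy
    rw [mul_assoc g, vec_mul]
    have hx' := abs_le.1 hx
    have hy' := abs_le.1 hy
    have b1 := upper (2 * d * L + x) (0 + y) (by
        have hx1 : -(L : ℤ) ≤ x := by exact_mod_cast hx'.1
        have hx2 : x ≤ (L : ℤ) := by exact_mod_cast hx'.2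
        have hy1 : -(L : ℤ) ≤ y := by exact_mod_cast hy'.1
        have hy2 : y ≤ (L : ℤ) := by exact_mod_cast hy'.2
        rcases hd with rfl | rfl <;> omega)
      (by
        push_cast
        have := abs_add_le (2 * (d : ℝ) * L) x
        rw [abs_mul, abs_mul, hdabs, Nat.abs_cast] at this
        norm_num at this
        linarith)
      (by simpa using hy)
    push_cast at b1
    nlinarith

/-- The half-plane lemma. -/
theorem half_plane {σ : ℝ} (hσ : |σ| ≤ tc ℓ) : ∃ θ : ℝ,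
    (RealL ℓ σ → Real2 ℓ θ (σ / 2 - θ)) ∧ (RealL ℓ (-σ) → Real2 ℓ (-θ) (-(σ / 2 - θ))) := by
  obtain ⟨θ, h1, h2⟩ := hℓ.theta_exists hσ
  have lb := hℓ.lower_bound hσ h1 h2
  have op := hℓ.opt h2
  refine ⟨θ, fun hR => ?_, fun hR => ?_⟩
  · refine hℓ.hp_main 1 (Or.inl rfl) lb ?_ hR
    intro η hη
    obtain ⟨B, hB, C, h⟩ := op η hη
    exact ⟨B, hB, C, fun x y hxy => h x y (by linarith)⟩
  · refine hℓ.hp_main (-1) (Or.inr rfl) ?_ ?_ hR
    · intro x y m
      have := lb (-x) (-y) (-m)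
      have e : vec (-x - 2 * -m) (-y - 2 * -m) = vec (-(x - 2 * m)) (-(y - 2 * m)) := by
        congr 1 <;> ring
      rw [e, hℓ.vec_neg] at this
      push_cast at this
      linarith
    · intro η hη
      obtain ⟨B, hB, C, h⟩ := op η hη
      refine ⟨B, hB, C, fun x y hxy => ?_⟩
      obtain ⟨m, hm1, hm2⟩ := h (-x) (-y) (by linarith)
      refine ⟨-m, ?_, ?_⟩
      · push_cast at hm1 ⊢
        rw [abs_neg, abs_neg] at hm1
        rwa [abs_neg]
      · have e : vec (x - 2 * -m) (y - 2 * -m) = vec (-(-x - 2 * m)) (-(-y - 2 * m)) := by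
          congr 1 <;> ring
        rw [e, hℓ.vec_neg]
        push_cast at hm2 ⊢
        have e2 : |-(x : ℝ) - -(y : ℝ)| = |(x : ℝ) - y| := by
          rw [← abs_neg]; congr 1; ring
        rw [e2] at hm2
        linarith

end Len

end Run7.h463
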