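import Pool.Agent.Run7.h463.Travel

set_option autoImplicit false

/-! Right multiplication moves on codes. -/

namespace Run7.h463

/-- the last block computation -/
theorem carry_last (ty : Bool) (n : ℤ) (j : Fin 4) (f : Bool) (hj : dok ty j) (u : Base)
    (hu : (u.x = 0 ∧ u.y = 0) ∨ (u.x = 1 ∧ u.y = 0) ∨ (u.x = -1 ∧ u.y = 0) ∨
      (u.x = 0 ∧ u.y = 1) ∨ (u.x = 0 ∧ u.y = -1)) :
    ∃ (κ n' : ℤ) (j' : Fin 4), dok ty j' ∧
      blk ty n j f * u = pw ty κ * blk ty n' j' (xor f u.f) ∧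
      (κ = 0 ∨ κ = 1 ∨ κ = -1) ∧ n ≤ n' + 10 ∧ n' ≤ n + 10 := by
  rcases u with ⟨x, y, g⟩
  obtain ⟨κ, n', j', hj', h⟩ := decomp ty (blk ty n j f * ⟨x, y, g⟩)
  have hf : (blk ty n j f * ⟨x, y, g⟩).f = xor f g := by
    cases ty <;> cases f <;> simp [blk, dir, dig]
  rw [hf] at h
  refine ⟨κ, n', j', hj', h, ?_⟩
  have h1 := j.isLt
  have h2 := j'.isLt
  unfold dok at hj hj'
  simp only at hu
  cases ty <;> cases f <;> cases g <;>
    simp [pw, blk, dir, dig] at h hj hj' ⊢ <;> omega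

/-- `x` moves codes by a bounded amount -/
def Mv (ℓ : G → ℕ) (x : G) : Prop := ∃ K : ℕ, ∃ C : ℝ, ∀ c : Code, c.valid → ∃ c' : Code,
  c'.valid ∧ c'.toG = c.toG * x ∧ FT ℓ K c.wd c'.wd ∧ |c'.val - c.val| ≤ C

theorem psi_mul (v u : Base) : psi (v * u) = psi v + (if v.f then psi ⟨u.y, u.x, false⟩ else psi u) := by
  rcases v with ⟨x, y, f⟩
  rcases u with ⟨x', y', f'⟩
  cases f <;> simp [psi] <;> ring

section

variable {ℓ : G → ℕ} (hℓ : LF ℓ)
include hℓ

theorem Mv.one : Mv ℓ 1 := ⟨0, 0, fun c hc => ⟨c, hc, by rw [mul_one], FT.refl hℓ _, by simp⟩⟩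

theorem Mv.mul {x y : G} (hx : Mv ℓ x) (hy : Mv ℓ y) : Mv ℓ (x * y) := by
  obtain ⟨K, C, h⟩ := hx
  obtain ⟨K', C', h'⟩ := hy
  refine ⟨K + K', C + C', fun c hc => ?_⟩
  obtain ⟨c₁, h1, h2, h3, h4⟩ := h c hc
  obtain ⟨c₂, h5, h6, h7, h8⟩ := h' c₁ h1
  refine ⟨c₂, h5, by rw [h6, h2, mul_assoc], h3.trans hℓ h7, ?_⟩
  have := abs_sub_le c₂.val c₁.val c.val
  linarith

theorem Mv.small (u : Base)
    (hu : (u.x = 0 ∧ u.y = 0) ∨ (u.x = 1 ∧ u.y = 0) ∨ (u.x = -1 ∧ u.y = 0) ∨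
      (u.x = 0 ∧ u.y = 1) ∨ (u.x = 0 ∧ u.y = -1)) : Mv ℓ (ofB u) := by
  refine ⟨KK ℓ + 12, 1, fun c hc => ?_⟩
  rcases c with ⟨p, n, j, f⟩
  obtain ⟨hp, hj⟩ := hc
  obtain ⟨κ, n', j', hj', hblk, hκ, hn1, hn2⟩ := carry_last p.ty n j f hj u hu
  -- the new prefix
  obtain ⟨p', hp'v, hp'ls, hp'G, hft, hsl, hvl⟩ : ∃ p' : Pre, p'.valid ∧ p'.ls = p.ls ∧
      p'.toG = p.toG * ofB (pw p.ty κ) ∧
      FT ℓ (KK ℓ) (p.wd ++ (rep (Lt.d p.ty) n ++ [Lt.g p.ty j f]))
        (p'.wd ++ (rep (Lt.d p.ty) n ++ [Lt.g p.ty j f])) ∧ p'.sl = p.sl ∧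
      p'.vl = p.vl + κ * p.sl := by
    by_cases h0 : κ = 0
    · subst h0
      refine ⟨p, hp, rfl, by rw [pw_zero]; simp, (FT.refl hℓ _).mono (by omega), rfl, by simp⟩
    · have hκ' : κ = 1 ∨ κ = -1 := by tauto
      obtain ⟨p', h1, h2, h3, h4, h5, h6, h7, h8⟩ := inc hℓ p hp κ hκ'
      refine ⟨p', h1, h2, h3, ?_, h7, h8⟩
      refine ft_ext hℓ (D := 6) (N := 1) (g := ofB (pw p.ty κ)) h6 h4 h5 ?_ ?_ ?_ ?_ ?_
      · rw [Pre.evL_wd, Pre.evL_wd, h3]
      · intro i; exact rep_take_comm _ _ _ _ _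
      · simp
      · simp
      · have := ell_pw hℓ p.ty κ hκ'; omega
  have hty : p'.ty = p.ty := Pre.ty_congr hp'ls
  refine ⟨⟨p', n', j', xor f u.f⟩, ⟨hp'v, by rw [hty]; exact hj'⟩, ?_, ?_, ?_⟩
  · simp only [Code.toG]
    rw [hp'G, hty, mul_assoc, ← map_mul, ← hblk, map_mul, mul_assoc]
  · simp only [Code.wd]
    rw [hty]
    have h2 := rep_ft hℓ (Lt.d p.ty) n n' p'.wd [Lt.g p.ty j f] [Lt.g p.ty j' (xor f u.f)] 10
      (by push_cast; omega) (by push_cast; omega)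
    exact (hft.trans hℓ h2).mono (by simp)
  · simp only [Code.val]
    rw [hsl, hvl, hty]
    have h3 : psi (blk p.ty n j f * u) = psi (pw p.ty κ * blk p.ty n' j' (xor f u.f)) := by
      rw [hblk]
    rw [psi_pw_mul, psi_mul] at h3
    have hb := p.sl_bound
    have h4 : |(if (blk p.ty n j f).f = true then psi ⟨u.y, u.x, false⟩ else psi u)| ≤ 1 := by
      rcases u with ⟨x, y, g⟩
      simp only at hu
      split_ifs <;> simp only [psi] <;>
        rcases hu with ⟨rfl, rfl⟩ | ⟨rfl, rfl⟩ | ⟨rfl, rfl⟩ | ⟨rfl, rfl⟩ | ⟨rfl, rfl⟩ <;>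
        norm_num [abs_le]
    set w := (if (blk p.ty n j f).f = true then psi ⟨u.y, u.x, false⟩ else psi u) with hw
    have h5 : p.vl + κ * p.sl + p.sl * psi (blk p.ty n' j' (xor f u.f)) -
        (p.vl + p.sl * psi (blk p.ty n j f)) = p.sl * w := by
      have : psi (blk p.ty n' j' (xor f u.f)) = psi (blk p.ty n j f) + w - κ := by linarith
      rw [this]; ring
    rw [h5, abs_mul, abs_of_nonneg hb.1]
    nlinarith [abs_nonneg w]

theorem Mv.sG (e : Bool) : Mv ℓ (sG e) := by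
  refine ⟨2, 0, fun c hc => ?_⟩
  rcases c with ⟨p, n, j, f⟩
  obtain ⟨hp, hj⟩ := hc
  by_cases hcan : n = 0 ∧ j = 0 ∧ f = false ∧ p.ls = some (!e)
  · -- cancellation
    obtain ⟨rfl, rfl, rfl, hls⟩ := hcan
    cases p with
    | start k => simp [Pre.ls] at hls
    | cross q n₀ j₀ f₀ e₀ =>
      simp only [Pre.ls, Option.some.injEq] at hls
      subst hls
      refine ⟨⟨q, n₀, j₀, f₀⟩, ⟨hp.1, hp.2.1⟩, ?_, ?_, ?_⟩
      · simp only [Code.toG, Pre.toG]
        have h1 : blk (Pre.cross q n₀ j₀ f₀ (!e)).ty 0 0 false = 1 := by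
          cases e <;> rfl
        rw [h1, map_one, mul_one]
        cases e <;> simp [Run7.h463.sG]
      · simp only [Code.wd, Pre.wd]
        have := ft_common hℓ (q.wd ++ (rep (Lt.d q.ty) n₀ ++ [Lt.g q.ty j₀ f₀]))
          [Lt.s (!e), Lt.g (Pre.cross q n₀ j₀ f₀ (!e)).ty 0 false] []
        simp only [List.append_assoc, List.cons_append, List.nil_append, List.append_nil,
          List.length_cons, List.length_nil] at this
        simpa [rep] using this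
      · simp only [Code.val, Pre.vl, Pre.sl]
        have h1 : psi (blk (Pre.cross q n₀ j₀ f₀ (!e)).ty 0 0 false) = 0 := by
          cases e <;> simp [psi, blk, dir, dig, Pre.ty]
        rw [h1]; simp
  · refine ⟨⟨.cross p n j f e, 0, 0, false⟩, ⟨⟨hp, hj, hcan⟩, ?_⟩, ?_, ?_, ?_⟩
    · cases e <;> simp [dok, Pre.ty]
    · simp only [Code.toG, Pre.toG]
      have h1 : blk (Pre.cross p n j f e).ty 0 0 false = 1 := by
        cases e <;> rfl
      rw [h1, map_one, mul_one]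
    · simp only [Code.wd, Pre.wd]
      have := ft_common hℓ (p.wd ++ (rep (Lt.d p.ty) n ++ [Lt.g p.ty j f])) []
        [Lt.s e, Lt.g (Pre.cross p n j f e).ty 0 false]
      simp only [List.append_assoc, List.cons_append, List.nil_append, List.append_nil,
        List.length_cons, List.length_nil] at this
      simpa [rep] using this
    · simp only [Code.val, Pre.vl, Pre.sl]
      have h1 : psi (blk (Pre.cross p n j f e).ty 0 0 false) = 0 := by
        cases e <;> simp [psi, blk, dir, dig, Pre.ty]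
      rw [h1]; simp

theorem Mv.vec (x y : ℤ) : Mv ℓ (vec x y) := by
  have h1 : ∀ n : ℕ, Mv ℓ (Run7.h463.vec n 0) := by
    intro n
    induction n with
    | zero => simpa using Mv.one hℓ
    | succ n ih =>
      have := ih.mul hℓ (Mv.small hℓ ⟨1, 0, false⟩ (by simp))
      have e : Run7.h463.vec n 0 * ofB ⟨1, 0, false⟩ = Run7.h463.vec ((n + 1 : ℕ) : ℤ) 0 := by
        rw [← Run7.h463.vec, vec_mul]; congr 1
      rwa [e] at this
  have h2 : ∀ n : ℕ, Mv ℓ (Run7.h463.vec (-n) 0) := by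
    intro n
    induction n with
    | zero => simpa using Mv.one hℓ
    | succ n ih =>
      have := ih.mul hℓ (Mv.small hℓ ⟨-1, 0, false⟩ (by simp))
      have e : Run7.h463.vec (-n) 0 * ofB ⟨-1, 0, false⟩ = Run7.h463.vec (-((n + 1 : ℕ) : ℤ)) 0 := by
        rw [← Run7.h463.vec, vec_mul]; congr 1; push_cast; ring
      rwa [e] at this
  have h3 : ∀ n : ℕ, Mv ℓ (Run7.h463.vec 0 n) := by
    intro n
    induction n with
    | zero => simpa using Mv.one hℓ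
    | succ n ih =>
      have := ih.mul hℓ (Mv.small hℓ ⟨0, 1, false⟩ (by simp))
      have e : Run7.h463.vec 0 n * ofB ⟨0, 1, false⟩ = Run7.h463.vec 0 ((n + 1 : ℕ) : ℤ) := by
        rw [← Run7.h463.vec, vec_mul]; congr 1
      rwa [e] at this
  have h4 : ∀ n : ℕ, Mv ℓ (Run7.h463.vec 0 (-n)) := by
    intro n
    induction n with
    | zero => simpa using Mv.one hℓ
    | succ n ih =>
      have := ih.mul hℓ (Mv.small hℓ ⟨0, -1, false⟩ (by simp))
      have e : Run7.h463.vec 0 (-n) * ofB ⟨0, -1, false⟩ = Run7.h463.vec 0 (-((n + 1 : ℕ) : ℤ)) := by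
        rw [← Run7.h463.vec, vec_mul]; congr 1; push_cast; ring
      rwa [e] at this
  have h5 : Mv ℓ (Run7.h463.vec x 0) := by
    obtain ⟨n, rfl | rfl⟩ := Int.eq_nat_or_neg x
    · exact h1 n
    · exact h2 n
  have h6 : Mv ℓ (Run7.h463.vec 0 y) := by
    obtain ⟨n, rfl | rfl⟩ := Int.eq_nat_or_neg y
    · exact h3 n
    · exact h4 n
  have := h5.mul hℓ h6
  rwa [vec_mul, add_zero, zero_add] at this

theorem Mv.ofB (u : Base) : Mv ℓ (ofB u) := by
  rw [ofB_eq]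
  apply Mv.mul hℓ (Mv.vec hℓ _ _)
  split_ifs
  · exact Mv.small hℓ _ (by simp)
  · exact Mv.one hℓ

theorem Mv.all (x : G) : Mv ℓ x := by
  have key : Mv ℓ x ∧ Mv ℓ x⁻¹ := by
    induction x using HNNExtension.induction_on with
    | of u =>
      refine ⟨Mv.ofB hℓ u, ?_⟩
      have := Mv.ofB hℓ u⁻¹
      rwa [map_inv] at this
    | t => exact ⟨Mv.sG hℓ true, Mv.sG hℓ false⟩
    | mul x y hx hy =>
      refine ⟨hx.1.mul hℓ hy.1, ?_⟩
      rw [mul_inv_rev]; exact hy.2.mul hℓ hx.2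
    | inv x hx => exact ⟨hx.2, by rw [inv_inv]; exact hx.1⟩
  exact key.1

/-- every element has a code -/
theorem exists_code (g : G) : ∃ c : Code, c.valid ∧ c.toG = g := by
  obtain ⟨K, C, h⟩ := Mv.all hℓ g
  obtain ⟨c', h1, h2, -, -⟩ := h ⟨.start 0, 0, 0, false⟩ ⟨trivial, by simp [dok]⟩
  refine ⟨c', h1, ?_⟩
  rw [h2]
  have : (⟨.start 0, 0, 0, false⟩ : Code).toG = 1 := by
    simp only [Code.toG, Pre.toG, pw_zero, map_one, one_mul]
    exact map_one ofB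
  rw [this, one_mul]

/-- fellow travelling of codes which differ by `x` -/
theorem ft_all (x : G) : ∃ K : ℕ, ∀ c c' : Code, c.valid → c'.valid → c'.toG = c.toG * x →
    FT ℓ K c.wd c'.wd := by
  obtain ⟨K, C, h⟩ := Mv.all hℓ x
  refine ⟨K, fun c c' hc hc' he => ?_⟩
  obtain ⟨c₁, h1, h2, h3, -⟩ := h c hc
  have : c₁ = c' := code_inj h1 hc' (by rw [h2, he])
  rwa [this] at h3

/-- `c` is undistorted -/
theorem undist : ∃ Φ : G → ℝ, (∀ x, ∃ C : ℝ, ∀ g, |Φ (g * x) - Φ g| ≤ C) ∧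
      ∀ m : ℤ, Φ (Run7.h463.vec (2 * m) (2 * m)) = m := by
  choose cd hv hc using exists_code hℓ
  refine ⟨fun g => (cd g).val, fun x => ?_, fun m => ?_⟩
  · obtain ⟨K, C, h⟩ := Mv.all hℓ x
    refine ⟨C, fun g => ?_⟩
    obtain ⟨c₁, h1, h2, -, h3⟩ := h (cd g) (hv g)
    have : c₁ = cd (g * x) := code_inj h1 (hv _) (by rw [h2, hc, hc])
    rwa [this] at h3
  · obtain ⟨k, n, j, hj, h⟩ := decomp false ⟨2 * m, 2 * m, false⟩
    have e : cd (Run7.h463.vec (2 * m) (2 * m)) = ⟨.start k, n, j, false⟩ := by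
      apply code_inj (c' := ⟨.start k, n, j, false⟩) (hv _) ⟨trivial, hj⟩
      rw [hc]
      simp only [Code.toG, Pre.toG, Pre.ty]
      rw [← map_mul, Run7.h463.vec]
      exact congrArg _ h
    have h2 := congrArg psi h
    rw [psi_pw_mul] at h2
    simp only [e, Code.val, Pre.vl, Pre.sl, Pre.ty, one_mul]
    rw [← h2]
    simp only [psi]
    push_cast; ring

end

end Run7.h463
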