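import Pool.Agent.Run7.h463.HalfPlane

set_option autoImplicit false

/-! The pairing argument: finitely many slopes. -/

namespace Run7.h463

open Filter Topology

/-- an element commuting with `c` which turns the half-space away -/
def zz : G := s⁻¹ * vec 0 1 * s

theorem zz_comm (m : ℤ) : zz * cc m = cc m * zz := by
  have h1 : s⁻¹ * vec (3 * m) 0 = cc m * s⁻¹ := sinv_mul_vec m
  calc zz * cc m = s⁻¹ * vec 0 1 * (s * cc m) := by rw [zz]; group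
    _ = s⁻¹ * (vec 0 1 * vec (3 * m) 0) * s := by rw [s_mul_cc]; group
    _ = (s⁻¹ * vec (3 * m) 0) * vec 0 1 * s := by rw [vec_comm]; group
    _ = cc m * zz := by rw [h1, zz]; group

theorem F_s_zz {h : G} (hh : G0 h) : F (s * (h * zz)⁻¹) = 0 := by
  have e : s * (h * zz)⁻¹ = ofB ⟨0, -1, false⟩ * (s * h⁻¹) := by
    have : (vec 0 1)⁻¹ = ofB ⟨0, -1, false⟩ := by rw [vec_inv]; rfl
    rw [← this, zz]; group
  rw [e]
  apply H7' _ hh.2.2
  rintro ⟨m, hm⟩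
  rw [Base.ext_iff] at hm
  simp at hm

/-- sources and targets along `c` -/
def RealC (ℓ : G → ℝ) (σ : ℝ) : Prop :=
  ∀ ε : ℝ, 0 < ε → ∃ K : ℝ, ∃ L₀ : ℕ, ∀ L : ℕ, L₀ ≤ L → ∃ g : G, G0 g ∧ ℓ g ≤ K * L ∧
    (∀ m : ℤ, ℓ g + m * σ - ε * L ≤ ℓ (g * cc m)) ∧
    (∀ m : ℤ, |(m : ℝ)| ≤ L → ℓ (g * cc m) ≤ ℓ g + m * σ + ε * L)

theorem realC_of_real2 {ℓ : G → ℝ} {p q : ℝ} (h : Real2 ℓ p q) : RealC ℓ (2 * (p + q)) := by
  intro ε hε
  obtain ⟨K, L₀, hK⟩ := h (ε / 2) (by linarith)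
  refine ⟨2 * K, L₀, fun L hL => ?_⟩
  obtain ⟨g, hg, hgK, hlo, hup⟩ := hK (2 * L) (by omega)
  have hcast : ((2 * L : ℕ) : ℝ) = 2 * L := by push_cast; ring
  rw [hcast] at hgK hlo hup
  refine ⟨g, hg, by linarith, fun m => ?_, fun m hm => ?_⟩
  · have := hlo (2 * m) (2 * m)
    push_cast at this
    rw [cc]; linarith
  · have h3 : |((2 * m : ℤ) : ℝ)| ≤ 2 * L := by
      push_cast; rw [abs_mul]; norm_num; exact hm
    have := hup (2 * m) (2 * m) h3 h3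
    push_cast at this
    rw [cc]; linarith

namespace Len

variable {ℓ : G → ℝ} (hℓ : Len ℓ)
include hℓ

theorem cr2 : ∃ F' : Finset G, ∀ g h, G0 g → G0 h → ∃ m : ℤ, ∃ f ∈ F',
    ℓ (g * (h * zz)⁻¹) = ℓ (g * cc m * f) + ℓ (f⁻¹ * cc (-m) * (h * zz)⁻¹) := by
  classical
  obtain ⟨Q, hQ⟩ := hℓ.cross
  refine ⟨Q.image (fun q => s⁻¹ * q⁻¹), fun g h hg hh => ?_⟩
  have hF : F (s * g⁻¹) ≠ F (s * (h * zz)⁻¹) := by
    rw [hg.2.2, F_s_zz hh]; norm_num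
  obtain ⟨m, q, hq, hm⟩ := hQ _ _ hF
  refine ⟨m, s⁻¹ * q⁻¹, Finset.mem_image.2 ⟨q, hq, rfl⟩, ?_⟩
  have e1 : (s * g⁻¹)⁻¹ * (s * (h * zz)⁻¹) = g * (h * zz)⁻¹ := by group
  have e2 : (s * g⁻¹)⁻¹ * vec (3 * m) 0 * q⁻¹ = g * cc m * (s⁻¹ * q⁻¹) := by
    have h1 : s⁻¹ * vec (3 * m) 0 = cc m * s⁻¹ := sinv_mul_vec m
    calc (s * g⁻¹)⁻¹ * vec (3 * m) 0 * q⁻¹ = g * (s⁻¹ * vec (3 * m) 0) * q⁻¹ := by group
      _ = _ := by rw [h1]; group
  have e3 : q * vec (3 * (-m)) 0 * (s * (h * zz)⁻¹) =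
      (s⁻¹ * q⁻¹)⁻¹ * cc (-m) * (h * zz)⁻¹ := by
    have h1 : vec (3 * (-m)) 0 * s = s * cc (-m) := (s_mul_cc (-m)).symm
    calc q * vec (3 * (-m)) 0 * (s * (h * zz)⁻¹) = q * (vec (3 * (-m)) 0 * s) * (h * zz)⁻¹ := by
          group
      _ = _ := by rw [h1]; group
  rw [e1, e2, e3] at hm
  exact hm

theorem target_eq (h : G) (m : ℤ) : ℓ (cc (-m) * (h * zz)⁻¹) = ℓ (h * cc m * zz) := by
  have : cc (-m) * (h * zz)⁻¹ = (h * cc m * zz)⁻¹ := by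
    rw [mul_assoc h, ← zz_comm, ← cc_inv]; group
  rw [this, hℓ.inv]

/-- the size bound on the crossing parameter -/
theorem size_bound {g h f : G} {σ E κ : ℝ} {m : ℤ} (hκ : |σ| ≤ tc ℓ - κ)
    (hlo : ∀ m : ℤ, ℓ g + m * σ - E ≤ ℓ (g * cc m))
    (hcr : ℓ (g * (h * zz)⁻¹) = ℓ (g * cc m * f) + ℓ (f⁻¹ * cc (-m) * (h * zz)⁻¹)) :
    κ * |(m : ℝ)| ≤ 2 * (ℓ h + ℓ zz) + E + 2 * ℓ f := by
  have h1 := hℓ.mul g (h * zz)⁻¹
  rw [hℓ.inv] at h1
  have h2 := hℓ.mul h zz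
  have h3 := hℓ.sub_le (g * cc m) f
  have h4 := hlo m
  have h5 := hℓ.sub_le' f⁻¹ (cc (-m) * (h * zz)⁻¹)
  rw [← mul_assoc, hℓ.inv] at h5
  have h6 := hℓ.sub_le (cc (-m)) (h * zz)⁻¹
  rw [hℓ.inv, hℓ.cc_neg] at h6
  have h7 := hℓ.tc_le m
  have h8 : -(m * σ) ≤ |(m : ℝ)| * (tc ℓ - κ) := by
    have := neg_abs_le (m * σ)
    rw [abs_mul] at this
    have h9 : |(m : ℝ)| * |σ| ≤ |(m : ℝ)| * (tc ℓ - κ) :=
      mul_le_mul_of_nonneg_left hκ (abs_nonneg _)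
    linarith
  linarith

/-- the key inequality -/
theorem key_ineq {g h f : G} {σ σ' E E' : ℝ} {m m' i : ℤ} {Λ T : ℝ}
    (hlo : ∀ m : ℤ, ℓ g + m * σ - E ≤ ℓ (g * cc m))
    (hup : ∀ m : ℤ, |(m : ℝ)| ≤ Λ → ℓ (g * cc m) ≤ ℓ g + m * σ + E)
    (tlo : ∀ m : ℤ, ℓ h + m * (-σ') - E' ≤ ℓ (h * cc m))
    (tup : ∀ m : ℤ, |(m : ℝ)| ≤ T → ℓ (h * cc m) ≤ ℓ h + m * (-σ') + E')
    (hcone : ℓ (g * cc m * f * (f⁻¹ * cc (-m') * (h * zz)⁻¹)) =
      ℓ (g * cc m * f) + ℓ (f⁻¹ * cc (-m') * (h * zz)⁻¹))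
    (hi : |((m + i : ℤ) : ℝ)| ≤ Λ) (hi' : |((m' + i : ℤ) : ℝ)| ≤ T) :
    0 ≤ i * (σ - σ') + 2 * E + 2 * E' + 2 * ℓ zz + 2 * ℓ f := by
  have e : g * cc m * f * (f⁻¹ * cc (-m') * (h * zz)⁻¹) =
      (g * cc (m + i)) * (cc (-(m' + i)) * (h * zz)⁻¹) := by
    have h1 : cc m * cc (-m') = cc (m + i) * cc (-(m' + i)) := by
      rw [cc_mul, cc_mul]; congr 1; ring
    calc g * cc m * f * (f⁻¹ * cc (-m') * (h * zz)⁻¹) =
        g * (cc m * cc (-m')) * (h * zz)⁻¹ := by group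
      _ = _ := by rw [h1]; group
  have a1 := hℓ.mul (g * cc (m + i)) (cc (-(m' + i)) * (h * zz)⁻¹)
  rw [← e, hcone, hℓ.target_eq] at a1
  have a2 := hup (m + i) hi
  have a3 := hℓ.mul (h * cc (m' + i)) zz
  have a4 := tup (m' + i) hi'
  have a5 := hℓ.sub_le (g * cc m) f
  have a6 := hlo m
  have a7 := hℓ.sub_le' f⁻¹ (cc (-m') * (h * zz)⁻¹)
  rw [← mul_assoc, hℓ.inv, hℓ.target_eq] at a7
  have a8 := hℓ.sub_le (h * cc m') zz
  have a9 := tlo m'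
  push_cast at a2 a4
  linarith

end Len

/-- a finite set of positive reals has a positive lower bound -/
theorem exists_pos_lb (T : Finset ℝ) (hT : ∀ t ∈ T, 0 < t) : ∃ γ : ℝ, 0 < γ ∧ ∀ t ∈ T, γ ≤ t := by
  classical
  induction T using Finset.induction_on with
  | empty => exact ⟨1, one_pos, by simp⟩
  | insert a T _ ih =>
    obtain ⟨γ, h0, h1⟩ := ih (fun t ht => hT t (Finset.mem_insert_of_mem ht))
    refine ⟨min a γ, lt_min (hT a (Finset.mem_insert_self _ _)) h0, fun t ht => ?_⟩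
    rcases Finset.mem_insert.1 ht with rfl | ht
    · exact min_le_left _ _
    · exact le_trans (min_le_right _ _) (h1 t ht)

/-- uniform constants over a finite set -/
theorem uniform {ℓ : G → ℝ} (S : Finset ℝ) (sgn : ℝ) (hS : ∀ σ ∈ S, RealC ℓ (sgn * σ))
    (ε : ℝ) (hε : 0 < ε) :
    ∃ K : ℝ, 0 ≤ K ∧ ∃ L₀ : ℕ, ∀ σ ∈ S, ∀ L : ℕ, L₀ ≤ L → ∃ g : G, G0 g ∧ ℓ g ≤ K * L ∧
    (∀ m : ℤ, ℓ g + m * (sgn * σ) - ε * L ≤ ℓ (g * cc m)) ∧
    (∀ m : ℤ, |(m : ℝ)| ≤ L → ℓ (g * cc m) ≤ ℓ g + m * (sgn * σ) + ε * L) := by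
  classical
  induction S using Finset.induction_on with
  | empty => exact ⟨0, le_rfl, 0, by simp⟩
  | insert a T _ ih =>
    obtain ⟨K, hK0, L₀, h⟩ := ih (fun t ht => hS t (Finset.mem_insert_of_mem ht))
    obtain ⟨K', L₀', h'⟩ := hS a (Finset.mem_insert_self _ _) ε hε
    refine ⟨max K K', le_trans hK0 (le_max_left _ _), max L₀ L₀', fun σ hσ L hL => ?_⟩
    have hL0 : (0 : ℝ) ≤ L := Nat.cast_nonneg L
    rcases Finset.mem_insert.1 hσ with rfl | hσ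
    · obtain ⟨g, h1, h2, h3⟩ := h' L (le_trans (le_max_right _ _) hL)
      exact ⟨g, h1, le_trans h2 (mul_le_mul_of_nonneg_right (le_max_right _ _) hL0), h3⟩
    · obtain ⟨g, h1, h2, h3⟩ := h σ hσ L (le_trans (le_max_left _ _) hL)
      exact ⟨g, h1, le_trans h2 (mul_le_mul_of_nonneg_right (le_max_left _ _) hL0), h3⟩

namespace Len

variable {ℓ : G → ℝ} (hℓ : Len ℓ)
include hℓ

theorem card_bound : ∃ N : ℕ, ∀ S : Finset ℝ,
    (∀ σ ∈ S, RealC ℓ (1 * σ) ∧ RealC ℓ (-1 * σ) ∧ |σ| < tc ℓ) → S.card ≤ N := by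
  classical
  obtain ⟨F', hF'⟩ := hℓ.cr2
  obtain ⟨St, _, st, hst⟩ := hℓ.cones
  refine ⟨(F' ×ˢ (Finset.univ : Finset Bool) ×ˢ (Finset.univ : Finset St)).card, fun S hS => ?_⟩
  -- constants
  obtain ⟨γ, hγ0, hγ⟩ : ∃ γ : ℝ, 0 < γ ∧ ∀ σ ∈ S, ∀ σ' ∈ S, σ' < σ → γ ≤ σ - σ' := by
    obtain ⟨γ, h0, h1⟩ := exists_pos_lb
      (((S ×ˢ S).filter (fun p => p.2 < p.1)).image (fun p => p.1 - p.2)) (by
        intro t ht
        rw [Finset.mem_image] at ht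
        obtain ⟨p, hp, rfl⟩ := ht
        rw [Finset.mem_filter] at hp
        linarith [hp.2])
    refine ⟨γ, h0, fun σ hσ σ' hσ' hlt => h1 _ ?_⟩
    rw [Finset.mem_image]
    exact ⟨(σ, σ'), by rw [Finset.mem_filter, Finset.mem_product]; exact ⟨⟨hσ, hσ'⟩, hlt⟩, rfl⟩
  obtain ⟨κ, hκ0, hκ⟩ : ∃ κ : ℝ, 0 < κ ∧ ∀ σ ∈ S, |σ| ≤ tc ℓ - κ := by
    obtain ⟨κ, h0, h1⟩ := exists_pos_lb (S.image (fun σ => tc ℓ - |σ|)) (by
        intro t ht
        rw [Finset.mem_image] at ht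
        obtain ⟨σ, hσ, rfl⟩ := ht
        linarith [(hS σ hσ).2.2])
    refine ⟨κ, h0, fun σ hσ => ?_⟩
    have := h1 _ (Finset.mem_image.2 ⟨σ, hσ, rfl⟩)
    linarith
  set ε := γ / 8 with hε
  have hε0 : 0 < ε := by positivity
  obtain ⟨K₁, hK₁0, L₁, hT⟩ := uniform S (-1) (fun σ hσ => (hS σ hσ).2.1) ε hε0
  set Cf := ∑ f ∈ F', ℓ f with hCf
  have hCf0 : 0 ≤ Cf := Finset.sum_nonneg fun f _ => hℓ.nonneg f
  have hCf1 : ∀ f ∈ F', ℓ f ≤ Cf := fun f hf =>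
    Finset.single_le_sum (f := fun f => ℓ f) (fun i _ => hℓ.nonneg _) hf
  have hz0 := hℓ.nonneg zz
  -- K₃
  obtain ⟨K₃, hK₃⟩ := exists_nat_ge (1 + 2 * (2 * K₁ + 1 + ε) / κ)
  have hK₃1 : (1 : ℝ) ≤ K₃ := by
    have : 0 ≤ 2 * (2 * K₁ + 1 + ε) / κ := by positivity
    linarith
  have hK₃0 : (0 : ℝ) < K₃ := by linarith
  obtain ⟨_, _, L₂, hSrc⟩ := uniform S 1 (fun σ hσ => (hS σ hσ).1) (ε / K₃) (by positivity)
  obtain ⟨N₁, hN₁⟩ := exists_nat_gt (2 * ℓ zz + 2 * Cf)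
  obtain ⟨N₂, hN₂⟩ := exists_nat_gt ((2 * ℓ zz + 2 * Cf) * 2 / γ)
  set T := L₁ + L₂ + N₁ + N₂ + 1 with hTdef
  have hT1 : (1 : ℝ) ≤ T := by
    have : 1 ≤ T := by omega
    exact_mod_cast this
  have hTN₁ : (N₁ : ℝ) ≤ T := by
    have : N₁ ≤ T := by omega
    exact_mod_cast this
  have hTN₂ : (N₂ : ℝ) ≤ T := by
    have : N₂ ≤ T := by omega
    exact_mod_cast this
  have hK₃1' : 1 ≤ K₃ := by exact_mod_cast hK₃1
  -- choose data
  have data : ∀ σ : S, ∃ g h f : G, ∃ m : ℤ, G0 g ∧ G0 h ∧ f ∈ F' ∧ ℓ h ≤ K₁ * T ∧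
      (∀ m : ℤ, ℓ g + m * σ - ε * T ≤ ℓ (g * cc m)) ∧
      (∀ m : ℤ, |(m : ℝ)| ≤ K₃ * T → ℓ (g * cc m) ≤ ℓ g + m * σ + ε * T) ∧
      (∀ m : ℤ, ℓ h + m * (-σ) - ε * T ≤ ℓ (h * cc m)) ∧
      (∀ m : ℤ, |(m : ℝ)| ≤ T → ℓ (h * cc m) ≤ ℓ h + m * (-σ) + ε * T) ∧
      ℓ (g * (h * zz)⁻¹) = ℓ (g * cc m * f) + ℓ (f⁻¹ * cc (-m) * (h * zz)⁻¹) ∧
      2 * |(m : ℝ)| + T ≤ K₃ * T := by
    rintro ⟨σ, hσ⟩
    obtain ⟨g, hg, -, g1, g2⟩ := hSrc σ hσ (K₃ * T) (by nlinarith)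
    obtain ⟨h, hh, hhK, h1, h2⟩ := hT σ hσ T (by omega)
    obtain ⟨m, f, hf, hcr⟩ := hF' g h hg hh
    have hc : ε / K₃ * ((K₃ * T : ℕ) : ℝ) = ε * T := by
      push_cast; field_simp
    have hc2 : ((K₃ * T : ℕ) : ℝ) = K₃ * T := by push_cast; ring
    rw [hc] at g1 g2
    rw [hc2] at g2
    have hs := hℓ.size_bound (κ := κ) (hκ σ hσ) (fun m => by
        have := g1 m
        rwa [one_mul] at this) hcr
    have hf1 := hCf1 f hf
    refine ⟨g, h, f, m, hg, hh, hf, hhK, ?_, ?_, ?_, ?_, hcr, ?_⟩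
    · intro m; have := g1 m; rwa [one_mul] at this
    · intro m hm; have := g2 m hm; rwa [one_mul] at this
    · intro m; have := h1 m; rwa [neg_one_mul] at this
    · intro m hm; have := h2 m hm; rwa [neg_one_mul] at this
    · have a1 : κ * |(m : ℝ)| ≤ (2 * K₁ + 1 + ε) * T := by
        have : 2 * ℓ zz + 2 * Cf ≤ T := le_trans hN₁.le hTN₁
        nlinarith
      have a2 : 2 * |(m : ℝ)| ≤ 2 * (2 * K₁ + 1 + ε) / κ * T := by
        rw [div_mul_eq_mul_div, le_div_iff₀ hκ0]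
        linarith
      have a3 : (1 + 2 * (2 * K₁ + 1 + ε) / κ) * T ≤ K₃ * T :=
        mul_le_mul_of_nonneg_right hK₃ (by linarith)
      linarith
  choose g h f m hg hh hf hhK gl gu hl hu hcr hsz using data
  -- the invariant
  let inv : S → G × Bool × St := fun σ => (f σ, decide (0 < m σ), st (g σ * cc (m σ) * f σ))
  have hinj : ∀ σ σ' : S, (σ' : ℝ) < σ → inv σ ≠ inv σ' := by
    intro σ σ' hlt heq
    simp only [inv, Prod.mk.injEq, decide_eq_decide] at heq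
    obtain ⟨e1, e2, e3⟩ := heq
    have hgap := hγ σ σ.2 σ' σ'.2 hlt
    have hTc : (2 * ℓ zz + 2 * Cf) * 2 < γ * T := by
      have := lt_of_lt_of_le hN₂ hTN₂
      rw [div_lt_iff₀ hγ0] at this
      linarith
    -- cone transfers
    have cone : ∀ a b : S, f a = f b → st (g a * cc (m a) * f a) = st (g b * cc (m b) * f b) →
        ℓ (g b * cc (m b) * f b * ((f b)⁻¹ * cc (-(m a)) * (h a * zz)⁻¹)) =
        ℓ (g b * cc (m b) * f b) + ℓ ((f b)⁻¹ * cc (-(m a)) * (h a * zz)⁻¹) := by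
      intro a b hfab hstab
      apply hst _ _ _ hstab
      rw [← hfab]
      have : g a * cc (m a) * f a * ((f a)⁻¹ * cc (-(m a)) * (h a * zz)⁻¹) =
          g a * (h a * zz)⁻¹ := by
        rw [← cc_inv]; group
      rw [this]
      exact hcr a
    have size : ∀ a : S, 2 * |(m a : ℝ)| + T ≤ K₃ * T := hsz
    by_cases hpos : 0 < m σ
    · -- both positive: use i = -T - m σ'
      have hpos' : 0 < m σ' := e2.1 hpos
      have c := cone σ' σ e1.symm e3.symm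
      have k := hℓ.key_ineq (i := -(T : ℤ) - m σ') (gl σ) (gu σ) (hl σ') (hu σ') c
        (by
          have s1 := size σ
          have s2 := size σ'
          have t1 : |((m σ + (-(T : ℤ) - m σ') : ℤ) : ℝ)| ≤ |(m σ : ℝ)| + T + |(m σ' : ℝ)| := by
            push_cast
            rw [abs_le]
            have := neg_abs_le (m σ : ℝ)
            have := le_abs_self (m σ : ℝ)
            have := neg_abs_le (m σ' : ℝ)
            have := le_abs_self (m σ' : ℝ)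
            constructor <;> linarith
          linarith)
        (by
          push_cast
          have : (m σ' : ℝ) + (-(T : ℝ) - m σ') = -T := by ring
          rw [this, abs_neg, Nat.abs_cast])
      have hfb := hCf1 (f σ) (hf σ)
      have hm' : (0 : ℝ) < m σ' := by exact_mod_cast hpos'
      push_cast at k
      have b1 : (-(T : ℝ) - m σ') * (σ - σ') ≤ -T * γ := by nlinarith
      nlinarith
    · -- both nonpositive: use i = T - m σ
      have hpos' : ¬ 0 < m σ' := fun hh => hpos (e2.2 hh)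
      have c := cone σ σ' e1 e3
      have k := hℓ.key_ineq (i := (T : ℤ) - m σ) (gl σ') (gu σ') (hl σ) (hu σ) c
        (by
          have s1 := size σ
          have s2 := size σ'
          have t1 : |((m σ' + ((T : ℤ) - m σ) : ℤ) : ℝ)| ≤ |(m σ : ℝ)| + T + |(m σ' : ℝ)| := by
            push_cast
            rw [abs_le]
            have := neg_abs_le (m σ : ℝ)
            have := le_abs_self (m σ : ℝ)
            have := neg_abs_le (m σ' : ℝ)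
            have := le_abs_self (m σ' : ℝ)
            constructor <;> linarith
          linarith)
        (by
          push_cast
          have : (m σ : ℝ) + ((T : ℝ) - m σ) = T := by ring
          rw [this, Nat.abs_cast])
      have hfb := hCf1 (f σ') (hf σ')
      have hm' : (m σ : ℝ) ≤ 0 := by
        have : m σ ≤ 0 := by omega
        exact_mod_cast this
      push_cast at k
      have b1 : ((T : ℝ) - m σ) * (σ' - σ) ≤ -T * γ := by nlinarith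
      nlinarith
  have hinj' : Function.Injective inv := by
    intro a b hab
    by_contra hne
    rcases lt_or_gt_of_ne (fun hh : (a : ℝ) = b => hne (Subtype.ext hh)) with h1 | h1
    · exact hinj b a h1 hab.symm
    · exact hinj a b h1 hab
  have hcard : (Finset.univ.image inv).card = S.card := by
    rw [Finset.card_image_of_injective _ hinj', Finset.card_univ, Fintype.card_coe]
  rw [← hcard]
  apply Finset.card_le_card
  intro p hp
  rw [Finset.mem_image] at hp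
  obtain ⟨σ, -, rfl⟩ := hp
  simp only [inv, Finset.mem_product, Finset.mem_univ, and_true]
  exact hf σ

end Len

end Run7.h463
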