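import Mathlib
import Pool.Agent.Helper270.QA

/-!
# Affine actions over an arbitrary field

The affine actions of helper270 (`Pool.Agent.Helper270.QB`) with an arbitrary field `K` instead of `ℂ`; for a
finite field they are actions on a finite set.
-/

set_option autoImplicit false
set_option linter.unusedSectionVars false

namespace Pool.Agent.Run7.h463.QNF

open H270Q (nielsen nielsenHom Q ab ab_of_ne ab_auto_ne nielsen_zero nielsen_ne nielsen_pow_zero nielsen_pow_ne)


open Finset

variable {G : Type*} [Group G] {K : Type} [Field K]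

/-- functions transforming by `ω` under the central element `c` -/
def InV (c : G) (ω : K) (f : G → K) : Prop := ∀ x, f (c * x) = ω * f x

/-- left translation -/
def L (g : G) (f : G → K) : G → K := fun x => f (g⁻¹ * x)

theorem L_one (f : G → K) : L 1 f = f := by funext x; simp [L]
theorem L_mul (g h : G) (f : G → K) : L (g * h) f = L g (L h f) := by
  funext x; simp [L, mul_assoc]
theorem L_add (g : G) (f f' : G → K) : L g (f + f') = L g f + L g f' := by funext x; simp [L]
theorem L_sub (g : G) (f f' : G → K) : L g (f - f') = L g f - L g f' := by funext x; simp [L]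
theorem L_zero (g : G) : L g (0 : G → K) = 0 := by funext x; simp [L]

theorem InV.zero (c : G) (ω : K) : InV c ω 0 := by intro x; simp
theorem InV.add {c : G} {ω : K} {f f' : G → K} (h : InV c ω f) (h' : InV c ω f') :
    InV c ω (f + f') := by
  intro x; simp only [Pi.add_apply, h x, h' x, mul_add]
theorem InV.sub {c : G} {ω : K} {f f' : G → K} (h : InV c ω f) (h' : InV c ω f') :
    InV c ω (f - f') := by
  intro x; simp only [Pi.sub_apply, h x, h' x, mul_sub]
theorem InV.smul {c : G} {ω : K} {f : G → K} (a : K) (h : InV c ω f) :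
    InV c ω (a • f) := by
  intro x; simp only [Pi.smul_apply, h x, smul_eq_mul]; ring
theorem InV.L {c : G} {ω : K} (hc : ∀ g, c * g = g * c) {f : G → K} (h : InV c ω f) (g : G) :
    InV c ω (L g f) := by
  intro x
  have e : g⁻¹ * (c * x) = c * (g⁻¹ * x) := by rw [← mul_assoc, ← hc, mul_assoc]
  simp only [QNF.L, e]
  exact h _

theorem InV.pow {c : G} {ω : K} (hω0 : ω ≠ 0) {f : G → K} (h : InV c ω f) (s : ℕ) :
    QNF.L (c ^ s) f = (ω⁻¹) ^ s • f := by
  have h1 : ∀ s : ℕ, ∀ y, f (c ^ s * y) = ω ^ s * f y := by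
    intro s
    induction s with
    | zero => intro y; simp
    | succ s ih => intro y; rw [pow_succ', mul_assoc, h, ih, pow_succ']; ring
  funext x
  have h2 := h1 s ((c ^ s)⁻¹ * x)
  rw [mul_inv_cancel_left] at h2
  simp only [QNF.L, Pi.smul_apply, smul_eq_mul]
  rw [h2, inv_pow, ← mul_assoc, inv_mul_cancel₀ (pow_ne_zero s hω0), one_mul]

/-- affine maps -/
def aff (g : G) (b : G → K) : Equiv.Perm (G → K) where
  toFun f := L g f + b
  invFun f := L g⁻¹ (f - b)
  left_inv f := by
    simp only [add_sub_cancel_right]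
    rw [← L_mul, inv_mul_cancel, L_one]
  right_inv f := by
    simp only
    rw [← L_mul, mul_inv_cancel, L_one, sub_add_cancel]

theorem aff_apply (g : G) (b f : G → K) : aff g b f = L g f + b := rfl
theorem aff_inv_apply (g : G) (b f : G → K) : (aff g b)⁻¹ f = L g⁻¹ (f - b) := rfl

open Classical in
/-- the basic vector supported on the powers of `c` -/
noncomputable def v0 (c : G) (ω : K) (p : ℕ) : G → K := fun x =>
  ∑ j ∈ range p, if x = c ^ j then ω ^ j else 0

theorem v0_inV {c : G} {ω : K} {p : ℕ} (hcp : c ^ p = 1) (hω : ω ^ p = 1) :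
    InV c ω (v0 c ω p) := by
  classical
  intro x
  have h1 := Finset.sum_range_succ (fun j => if c * x = c ^ j then ω ^ j else (0 : K)) p
  have h2 := Finset.sum_range_succ' (fun j => if c * x = c ^ j then ω ^ j else (0 : K)) p
  have h3 : (if c * x = c ^ p then ω ^ p else (0 : K)) = if c * x = c ^ 0 then ω ^ 0 else 0 := by
    rw [hcp, hω, pow_zero, pow_zero]
  rw [h2, h3] at h1
  have h4 := add_right_cancel h1
  simp only [v0]
  rw [← h4, Finset.mul_sum]
  apply Finset.sum_congr rfl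
  intro j _
  by_cases h : x = c ^ j
  · rw [if_pos h, if_pos (by rw [h, pow_succ']), pow_succ']
  · rw [if_neg h, if_neg (fun h' => h (by rw [pow_succ'] at h'; exact mul_left_cancel h')), mul_zero]

theorem v0_one {c : G} {ω : K} {p : ℕ} (hp : 0 < p) (ho : orderOf c = p) : v0 c ω p 1 = 1 := by
  classical
  simp only [v0]
  rw [Finset.sum_eq_single 0]
  · simp
  · intro j hj hj0
    rw [if_neg]
    intro h
    have := orderOf_dvd_of_pow_eq_one h.symm
    rw [ho] at this
    exact absurd (Nat.le_of_dvd (Nat.pos_of_ne_zero hj0) this) (by simpa using hj)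
  · intro h; exact absurd (Finset.mem_range.2 hp) h

theorem v0_inv {c : G} {ω : K} {p : ℕ} (hcp : c ^ p = 1) (y : G) (hy : y ^ p ≠ 1) :
    v0 c ω p (y⁻¹) = 0 := by
  classical
  simp only [v0]
  apply Finset.sum_eq_zero
  intro j _
  rw [if_neg]
  intro h
  apply hy
  have h2 : (y⁻¹) ^ p = 1 := by rw [h, ← pow_mul, mul_comm, pow_mul, hcp, one_pow]
  rwa [inv_pow, inv_eq_one] at h2

variable {n : ℕ} (hn : 2 ≤ n) (c : G) (ω : K) (p : ℕ) (μ : FreeGroup (Fin n) →* G)

/-- the affine action -/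
noncomputable def rho : FreeGroup (Fin n) →* Equiv.Perm (G → K) :=
  FreeGroup.lift (fun i => aff (μ (FreeGroup.of i))
    (if i = ⟨0, by omega⟩ then v0 c ω p else 0))

theorem rho_of (i : Fin n) (f : G → K) : rho hn c ω p μ (FreeGroup.of i) f =
    L (μ (FreeGroup.of i)) f + (if i = ⟨0, by omega⟩ then v0 c ω p else 0) := by
  simp [rho, aff_apply]

variable {c ω p}

theorem rho_form (hc : ∀ g, c * g = g * c) (hcp : c ^ p = 1) (hω : ω ^ p = 1)
    (w : FreeGroup (Fin n)) : ∃ b, InV c ω b ∧ ∀ f, rho hn c ω p μ w f = L (μ w) f + b := by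
  induction w using FreeGroup.induction_on with
  | C1 => exact ⟨0, InV.zero c ω, fun f => by simp [L_one]⟩
  | of i =>
    refine ⟨_, ?_, fun f => rho_of hn c ω p μ i f⟩
    split_ifs
    · exact v0_inV hcp hω
    · exact InV.zero c ω
  | inv_of i ih =>
    obtain ⟨b, hb, hf⟩ := ih
    refine ⟨- L (μ (FreeGroup.of i))⁻¹ b, ?_, fun f => ?_⟩
    · have := (InV.zero c ω).sub (hb.L hc (μ (FreeGroup.of i))⁻¹)
      simpa using this
    · rw [map_inv, map_inv, Equiv.Perm.inv_eq_iff_eq, hf, L_add, ← L_mul, mul_inv_cancel, L_one]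
      have : L (μ (FreeGroup.of i)) (-L (μ (FreeGroup.of i))⁻¹ b) = - b := by
        have e : (-L (μ (FreeGroup.of i))⁻¹ b) = 0 - L (μ (FreeGroup.of i))⁻¹ b := by simp
        rw [e, L_sub, L_zero, ← L_mul, mul_inv_cancel, L_one, zero_sub]
      rw [this]; simp
  | mul x y hx hy =>
    obtain ⟨b, hb, hf⟩ := hx
    obtain ⟨b', hb', hf'⟩ := hy
    refine ⟨L (μ x) b' + b, (hb'.L hc _).add hb, fun f => ?_⟩
    rw [map_mul, map_mul, Equiv.Perm.mul_apply, hf', hf, L_add, L_mul, add_assoc]

theorem rho_inV (hc : ∀ g, c * g = g * c) (hcp : c ^ p = 1) (hω : ω ^ p = 1)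
    (w : FreeGroup (Fin n)) {f : G → K} (hf : InV c ω f) : InV c ω (rho hn c ω p μ w f) := by
  obtain ⟨b, hb, h⟩ := rho_form hn μ hc hcp hω w
  rw [h]
  exact (hf.L hc _).add hb

theorem scal_pow (T : Equiv.Perm (G → K)) (τ : K) (b : G → K) (hb : InV c ω b)
    (hT : ∀ f, InV c ω f → T f = τ • f + b) (j : ℕ) :
    ∀ f, InV c ω f → (T ^ j) f = τ ^ j • f + (∑ i ∈ range j, τ ^ i) • b := by
  induction j with
  | zero => intro f _; simp
  | succ j ih =>
    intro f hf
    rw [pow_succ', Equiv.Perm.mul_apply, ih f hf,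
      hT _ ((hf.smul _).add (hb.smul _)), Finset.sum_range_succ', pow_succ']
    rw [smul_add, smul_smul, smul_smul, add_assoc, add_smul, pow_zero, one_smul, Finset.mul_sum]
    simp only [pow_succ']

/-- the crucial relation -/
theorem good_pow [Fact p.Prime] {k : ℕ} (hc : ∀ g, c * g = g * c) (hcp : c ^ p = 1)
    (hω : IsPrimitiveRoot ω p)
    (H : ∀ g, ab n p g ≠ 1 → ∃ s : ℕ, ¬ p ∣ s ∧ μ g ^ (p ^ k) = c ^ s)
    (g : FreeGroup (Fin n)) (hg : ab n p g ≠ 1) {f : G → K} (hf : InV c ω f) :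
    rho hn c ω p μ (g ^ (p ^ (k + 1))) f = f := by
  obtain ⟨s, hs, e⟩ := H g hg
  obtain ⟨b, hb, h⟩ := rho_form hn μ hc hcp hω.pow_eq_one (g ^ (p ^ k))
  have hp0 : ω ≠ 0 := hω.ne_zero (Fact.out : p.Prime).ne_zero
  have hT : ∀ f, InV c ω f → rho hn c ω p μ (g ^ (p ^ k)) f = ((ω⁻¹) ^ s) • f + b := by
    intro f hf
    rw [h, map_pow, e, hf.pow hp0]
  have h1 := scal_pow (c := c) (ω := ω) _ _ b hb hT p f hf
  rw [← map_pow, ← pow_mul, ← pow_succ] at h1
  rw [h1]
  have h2 : ((ω⁻¹) ^ s) ^ p = 1 := by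
    rw [← pow_mul, mul_comm, pow_mul, inv_pow, hω.pow_eq_one, inv_one, one_pow]
  have h3 : (ω⁻¹) ^ s ≠ 1 := by
    rw [inv_pow, Ne, inv_eq_one]
    intro h'
    exact hs ((hω.pow_eq_one_iff_dvd s).1 h')
  have h4 : ∑ i ∈ range p, ((ω⁻¹) ^ s) ^ i = 0 := by
    have := mul_neg_geom_sum ((ω⁻¹) ^ s) p
    rw [h2, sub_self] at this
    rcases mul_eq_zero.1 this with h5 | h5
    · exact absurd (sub_eq_zero.1 h5).symm h3
    · exact h5
  rw [h2, h4, one_smul, zero_smul, add_zero]

variable (c ω p)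

/-- automorphisms which do not change the affine actions -/
def Krho (c : G) (ω : K) (p : ℕ) : Subgroup (MulAut (FreeGroup (Fin n))) where
  carrier := {α | ∀ (β : MulAut (FreeGroup (Fin n))) (x : FreeGroup (Fin n)) (f : G → K),
    InV c ω f → rho hn c ω p μ (β (α x)) f = rho hn c ω p μ (β x) f}
  one_mem' := by intro β x f _; simp
  mul_mem' := by
    intro a b ha hb β x f hf
    rw [MulAut.mul_apply, ha β (b x) f hf, hb β x f hf]
  inv_mem' := by
    intro a ha β x f hf
    have := ha β (a⁻¹ x) f hf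
    rw [← this]; simp

theorem Krho_normal : (Krho hn μ c ω p).Normal := by
  constructor
  intro a ha g β x f hf
  have := ha (β * g) (g⁻¹ x) f hf
  simp only [MulAut.mul_apply] at this ⊢
  rw [this]; simp

variable {c ω p}

theorem nielsen_mem [Fact p.Prime] {k m : ℕ} (hc : ∀ g, c * g = g * c) (hcp : c ^ p = 1)
    (hω : IsPrimitiveRoot ω p)
    (H : ∀ g, ab n p g ≠ 1 → ∃ s : ℕ, ¬ p ∣ s ∧ μ g ^ (p ^ k) = c ^ s)
    (hm : p ^ (k + 1) ∣ m) : (nielsen n hn) ^ m ∈ Krho hn μ c ω p := by
  intro β x f hf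
  induction x using FreeGroup.induction_on generalizing f with
  | C1 => simp
  | of i =>
    by_cases hi : i = ⟨0, by omega⟩
    · subst hi
      rw [nielsen_pow_zero, map_mul, map_mul, Equiv.Perm.mul_apply, map_pow]
      obtain ⟨t, rfl⟩ := hm
      rw [pow_mul]
      have h1 : ∀ f, InV c ω f → rho hn c ω p μ
          (β (FreeGroup.of ⟨1, by omega⟩) ^ p ^ (k + 1)) f = f := fun f hf =>
        good_pow hn μ hc hcp hω H (β (FreeGroup.of ⟨1, by omega⟩)) (ab_auto_ne p β _) hf
      have h2 : ∀ t : ℕ, ∀ f, InV c ω f →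
          rho hn c ω p μ ((β (FreeGroup.of ⟨1, by omega⟩) ^ p ^ (k + 1)) ^ t) f = f := by
        intro t
        induction t with
        | zero => intro f _; simp
        | succ t ih =>
          intro f hf
          rw [pow_succ', map_mul, Equiv.Perm.mul_apply, ih f hf, h1 f hf]
      exact h2 t _ (rho_inV hn μ hc hcp hω.pow_eq_one _ hf)
    · rw [nielsen_pow_ne hn m i hi]
  | inv_of i ih =>
    have h1 := ih (rho hn c ω p μ (β (FreeGroup.of i)⁻¹) f)
      (rho_inV hn μ hc hcp hω.pow_eq_one _ hf)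
    rw [map_inv, map_inv, map_inv, Equiv.Perm.inv_eq_iff_eq]
    rw [map_inv, map_inv] at h1
    rw [map_inv, map_inv, h1]
    simp
  | mul x y hx hy =>
    rw [map_mul, map_mul, map_mul, map_mul, map_mul, Equiv.Perm.mul_apply, Equiv.Perm.mul_apply,
      hy f hf, hx _ (rho_inV hn μ hc hcp hω.pow_eq_one _ hf)]

end Pool.Agent.Run7.h463.QNF
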