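import Pool.Agent.Run7.h463.QNM2

/-!
# `Aut (F_3)` modulo the ninth powers of the Nielsen moves has infinitely many finite quotients
(MP_73474e_al)
-/

set_option autoImplicit false

namespace Pool.Agent.Run7.h463.QNM

abbrev F3 := FreeGroup (Fin 3)

/-- homomorphisms to `H` sending all primitive elements to elements of order dividing nine -/
def X (H : Type) [Group H] : Type :=
  {ψ : F3 →* H // ∀ (β : MulAut F3) (i : Fin 3), ψ (β (FreeGroup.of i)) ^ 9 = 1}

instance (H : Type) [Group H] [Finite H] : Finite (X H) := by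
  refine Finite.of_injective (fun ψ : X H => fun i => ψ.1 (FreeGroup.of i)) ?_
  intro ψ χ h
  apply Subtype.ext
  apply FreeGroup.ext_hom
  intro i
  exact congrFun h i

instance (H : Type) [Group H] : MulAction (MulAut F3) (X H) where
  smul α ψ := ⟨ψ.1.comp (α⁻¹ : MulAut F3).toMonoidHom, fun β i => ψ.2 (α⁻¹ * β) i⟩
  one_smul ψ := by
    apply Subtype.ext
    apply MonoidHom.ext
    intro w
    rfl
  mul_smul α β ψ := by
    apply Subtype.ext
    apply MonoidHom.ext
    intro w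
    change ψ.1 ((α * β)⁻¹ w) = ψ.1 (β⁻¹ (α⁻¹ w))
    rw [mul_inv_rev]; rfl

theorem smul_apply {H : Type} [Group H] (α : MulAut F3) (ψ : X H) (w : F3) :
    (α • ψ).1 w = ψ.1 (α⁻¹ w) := rfl

/-- the Nielsen move `a₀ ↦ a₁ a₀` -/
def fwd : F3 →* F3 := FreeGroup.lift fun k =>
  if k = 0 then FreeGroup.of 1 * FreeGroup.of 0 else FreeGroup.of k

/-- its inverse -/
def bwd : F3 →* F3 := FreeGroup.lift fun k =>
  if k = 0 then (FreeGroup.of 1)⁻¹ * FreeGroup.of 0 else FreeGroup.of k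

theorem fwd_zero : fwd (FreeGroup.of 0) = FreeGroup.of 1 * FreeGroup.of 0 := by simp [fwd]

theorem fwd_ne (k : Fin 3) (hk : k ≠ 0) : fwd (FreeGroup.of k) = FreeGroup.of k := by
  simp [fwd, hk]

theorem bwd_zero : bwd (FreeGroup.of 0) = (FreeGroup.of 1)⁻¹ * FreeGroup.of 0 := by simp [bwd]

theorem bwd_ne (k : Fin 3) (hk : k ≠ 0) : bwd (FreeGroup.of k) = FreeGroup.of k := by
  simp [bwd, hk]

theorem bwd_fwd : bwd.comp fwd = MonoidHom.id F3 := by
  apply FreeGroup.ext_hom
  intro k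
  rw [MonoidHom.comp_apply, MonoidHom.id_apply]
  by_cases hk : k = 0
  · rw [hk, fwd_zero, map_mul, bwd_zero, bwd_ne 1 (by decide)]; group
  · rw [fwd_ne k hk, bwd_ne k hk]

theorem fwd_bwd : fwd.comp bwd = MonoidHom.id F3 := by
  apply FreeGroup.ext_hom
  intro k
  rw [MonoidHom.comp_apply, MonoidHom.id_apply]
  by_cases hk : k = 0
  · rw [hk, bwd_zero, map_mul, map_inv, fwd_zero, fwd_ne 1 (by decide)]; group
  · rw [bwd_ne k hk, fwd_ne k hk]

/-- the Nielsen move -/
def sg : MulAut F3 := MonoidHom.toMulEquiv fwd bwd bwd_fwd fwd_bwd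

theorem sg_zero : sg (FreeGroup.of 0) = FreeGroup.of 1 * FreeGroup.of 0 := fwd_zero

theorem sg_ne (k : Fin 3) (hk : k ≠ 0) : sg (FreeGroup.of k) = FreeGroup.of k := fwd_ne k hk

theorem sg_pow_ne (n : ℕ) (k : Fin 3) (hk : k ≠ 0) :
    (sg ^ n) (FreeGroup.of k) = FreeGroup.of k := by
  induction n with
  | zero => rfl
  | succ n ih => rw [pow_succ, MulAut.mul_apply, sg_ne k hk, ih]

theorem sg_pow_zero (n : ℕ) :
    (sg ^ n) (FreeGroup.of 0) = FreeGroup.of 1 ^ n * FreeGroup.of 0 := by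
  induction n with
  | zero => simp
  | succ n ih =>
    rw [pow_succ, MulAut.mul_apply, sg_zero, map_mul, sg_pow_ne n 1 (by decide), ih, pow_succ',
      mul_assoc]

theorem sg_smul {H : Type} [Group H] (ψ : X H) : (sg ^ 9) • ψ = ψ := by
  have h : ψ.1.comp ((sg ^ 9 : MulAut F3)).toMonoidHom = ψ.1 := by
    apply FreeGroup.ext_hom
    intro k
    change ψ.1 ((sg ^ 9 : MulAut F3) (FreeGroup.of k)) = _
    by_cases hk : k = 0
    · rw [hk, sg_pow_zero, map_mul, map_pow]
      have := ψ.2 1 1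
      rw [MulAut.one_apply] at this
      rw [this, one_mul]
    · rw [sg_pow_ne 9 k hk]
  apply Subtype.ext
  apply MonoidHom.ext
  intro w
  rw [smul_apply]
  have h2 := DFunLike.congr_fun h ((sg ^ 9 : MulAut F3)⁻¹ w)
  change ψ.1 ((sg ^ 9 : MulAut F3) ((sg ^ 9 : MulAut F3)⁻¹ w)) = _ at h2
  rw [MulAut.apply_inv_self] at h2
  exact h2.symm

/-- the finite quotient -/
noncomputable def Th (H : Type) [Group H] :
    MulAut F3 ⧸ Subgroup.normalClosure ({sg ^ 9} : Set (MulAut F3)) →* Equiv.Perm (X H) :=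
  QuotientGroup.lift _ (MulAction.toPermHom (MulAut F3) (X H)) (by
    intro α hα
    have hle : Subgroup.normalClosure ({sg ^ 9} : Set (MulAut F3)) ≤
        (MulAction.toPermHom (MulAut F3) (X H)).ker := by
      apply Subgroup.normalClosure_le_normal
      intro y hy
      rw [Set.mem_singleton_iff] at hy
      rw [hy]
      change MulAction.toPermHom (MulAut F3) (X H) (sg ^ 9) = 1
      ext1 ψ
      exact sg_smul ψ
    exact hle hα)

theorem infinite_of_hom {Q : Type} [Group Q] (q : Q)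
    (h : ∀ M : ℕ, 0 < M → ∃ (P : Type) (_ : Group P) (_ : Finite P) (θ : Q →* P), θ (q ^ M) ≠ 1) :
    Set.Infinite {N : Subgroup Q | N.Normal ∧ N.FiniteIndex} := by
  intro hfin
  let s := hfin.toFinset
  let M : ℕ := ∏ N ∈ s, N.index
  have hs : ∀ N ∈ s, N.Normal ∧ N.FiniteIndex := fun N hN => hfin.mem_toFinset.1 hN
  have hM : 0 < M := Finset.prod_pos fun N hN => Nat.pos_of_ne_zero (hs N hN).2.index_ne_zero
  obtain ⟨P, _, _, θ, hθ⟩ := h M hM
  have hk : θ.ker ∈ s := by
    rw [hfin.mem_toFinset]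
    exact ⟨inferInstance, inferInstance⟩
  apply hθ
  obtain ⟨e, he⟩ : θ.ker.index ∣ M := Finset.dvd_prod_of_mem _ hk
  have h1 := Subgroup.pow_index_mem θ.ker q
  have h2 : q ^ M ∈ θ.ker := by
    rw [he, pow_mul]
    exact Subgroup.pow_mem _ h1 e
  exact h2

end Pool.Agent.Run7.h463.QNM
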