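import Pool.Agent.Run7.h463.QNF2
import Pool.Agent.Run7.h463.QNM3
import Pool.Agent.Helper270.QD

/-!
# Finite quotients of `Q(n, m)` in which a given power of an inner automorphism survives

The group `G` and the homomorphism `μ` with a central element met by the `p ^ k`-th powers are those of
helper270 (`Pool.Agent.Helper270.QD`).
-/

set_option autoImplicit false
set_option linter.unusedSectionVars false

namespace Pool.Agent.Run7.h463.QNF

open H270Q (nielsen Q ab ab_of_ne ab_auto_ne MM KK c0 mu0 mu0_comm mu0_pow c0_pow c0_val corner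
  corner_injective ell dpos)

/-- the action of `Aut(F_n)` on the homomorphisms to `P` -/
def act (n : ℕ) (P : Type) [Group P] :
    MulAut (FreeGroup (Fin n)) →* Equiv.Perm (FreeGroup (Fin n) →* P) where
  toFun α :=
    { toFun := fun ψ => ψ.comp (α⁻¹ : MulAut (FreeGroup (Fin n))).toMonoidHom
      invFun := fun ψ => ψ.comp (α : MulAut (FreeGroup (Fin n))).toMonoidHom
      left_inv := by
        intro ψ
        apply MonoidHom.ext
        intro w
        change ψ ((α⁻¹ : MulAut (FreeGroup (Fin n))) (α w)) = ψ w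
        rw [MulAut.inv_apply_self]
      right_inv := by
        intro ψ
        apply MonoidHom.ext
        intro w
        change ψ (α ((α⁻¹ : MulAut (FreeGroup (Fin n))) w)) = ψ w
        rw [MulAut.apply_inv_self] }
  map_one' := by
    ext1 ψ
    apply MonoidHom.ext
    intro w
    change ψ ((1⁻¹ : MulAut (FreeGroup (Fin n))) w) = ψ w
    rw [inv_one, MulAut.one_apply]
  map_mul' α β := by
    ext1 ψ
    apply MonoidHom.ext
    intro w
    change ψ (((α * β)⁻¹ : MulAut (FreeGroup (Fin n))) w) =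
      ψ ((β⁻¹ : MulAut (FreeGroup (Fin n))) ((α⁻¹ : MulAut (FreeGroup (Fin n))) w))
    rw [mul_inv_rev, MulAut.mul_apply]

theorem act_fix {n : ℕ} {P : Type} [Group P] {α : MulAut (FreeGroup (Fin n))}
    (h : act n P α = 1) (ψ : FreeGroup (Fin n) →* P) (x : FreeGroup (Fin n)) : ψ (α x) = ψ x := by
  have h1 : act n P α ψ = ψ := by rw [h]; rfl
  have h2 := DFunLike.congr_fun h1 (α x)
  change ψ ((α⁻¹ : MulAut (FreeGroup (Fin n))) (α x)) = ψ (α x) at h2
  rw [MulAut.inv_apply_self] at h2
  exact h2.symm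

instance fin_hom (n : ℕ) (P : Type) [Group P] [Finite P] : Finite (FreeGroup (Fin n) →* P) := by
  refine Finite.of_injective (fun ψ : FreeGroup (Fin n) →* P => fun i => ψ (FreeGroup.of i)) ?_
  intro ψ χ h
  apply FreeGroup.ext_hom
  intro i
  exact congrFun h i

theorem krho_index {n : ℕ} (hn : 2 ≤ n) {G : Type} [Group G] [Finite G] {K : Type} [Field K]
    [Finite K] (μ : FreeGroup (Fin n) →* G) (c : G) (ω : K) (p : ℕ) :
    (Krho hn μ c ω p).FiniteIndex := by
  classical
  have : Finite (G → K) := inferInstance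
  have : Finite (Equiv.Perm (G → K)) := inferInstance
  have h : (act n (Equiv.Perm (G → K))).ker ≤ Krho hn μ c ω p := by
    intro α hα β x f _
    have h1 := act_fix (MonoidHom.mem_ker.1 hα)
      ((rho hn c ω p μ).comp (β : MulAut (FreeGroup (Fin n))).toMonoidHom) x
    change rho hn c ω p μ (β (α x)) = rho hn c ω p μ (β x) at h1
    rw [h1]
  exact Subgroup.finiteIndex_of_le h

theorem exists_root (p M : ℕ) (hp : p.Prime) : ∃ (q : ℕ) (_ : Fact q.Prime) (ω : ZMod q),
    M < q ∧ IsPrimitiveRoot ω p := by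
  obtain ⟨q, hq, hM, hmod⟩ := Nat.exists_prime_gt_modEq_one M hp.ne_zero
  have : Fact q.Prime := ⟨hq⟩
  obtain ⟨g, hg⟩ := IsCyclic.exists_ofOrder_eq_natCard (α := (ZMod q)ˣ)
  have hcard : Nat.card (ZMod q)ˣ = q - 1 := by
    rw [Nat.card_eq_fintype_card, ZMod.card_units]
  have hd : p ∣ orderOf g := by
    rw [hg, hcard]
    exact (Nat.modEq_iff_dvd' hq.one_lt.le).1 hmod.symm
  have h0 : orderOf g ≠ 0 := by
    rw [hg, hcard]
    have := hq.one_lt
    omega
  have h1 := orderOf_pow_orderOf_div h0 hd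
  have h2 := IsPrimitiveRoot.orderOf (g ^ (orderOf g / p))
  rw [h1] at h2
  exact ⟨q, this, _, hM, (IsPrimitiveRoot.coe_units_iff).2 h2⟩

theorem surv_abs {n : ℕ} (hn : 2 ≤ n) {G : Type} [Group G] [Finite G] {c : G} {p : ℕ}
    (μ : FreeGroup (Fin n) →* G) [Fact p.Prime] {k m : ℕ} (hc : ∀ g, c * g = g * c)
    (hcp : c ^ p = 1) (hc1 : c ≠ 1)
    (H : ∀ g, ab n p g ≠ 1 → ∃ s : ℕ, ¬ p ∣ s ∧ μ g ^ (p ^ k) = c ^ s)
    (hm : p ^ (k + 1) ∣ m) (M : ℕ) (hM : 0 < M) :
    ∃ (P : Type) (_ : Group P) (_ : Finite P) (θ : Q n m hn →* P),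
      θ ((QuotientGroup.mk (MulAut.conj (ww hn p k)) : Q n m hn) ^ M) ≠ 1 := by
  obtain ⟨q, _, ω, hMq, hω⟩ := exists_root p M Fact.out
  have : (Krho hn μ c ω p).Normal := Krho_normal hn c ω p μ
  have : (Krho hn μ c ω p).FiniteIndex := krho_index hn μ c ω p
  have hle : Subgroup.normalClosure {(nielsen n hn) ^ m} ≤ Krho hn μ c ω p := by
    apply Subgroup.normalClosure_le_normal
    intro y hy
    rw [Set.mem_singleton_iff] at hy
    rw [hy]
    exact nielsen_mem hn μ hc hcp hω H hm
  refine ⟨MulAut (FreeGroup (Fin n)) ⧸ Krho hn μ c ω p, inferInstance,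
    Subgroup.finite_quotient_of_finiteIndex,
    QuotientGroup.lift _ (QuotientGroup.mk' (Krho hn μ c ω p)) (by
      intro y hy
      exact (QuotientGroup.eq_one_iff y).2 (hle hy)), ?_⟩
  intro h
  have h2 : ((QuotientGroup.mk ((MulAut.conj (ww hn p k)) ^ M) :
      MulAut (FreeGroup (Fin n)) ⧸ Krho hn μ c ω p)) = 1 := h
  have h3 : (MulAut.conj (ww hn p k)) ^ M ∈ Krho hn μ c ω p := (QuotientGroup.eq_one_iff _).1 h2
  rw [← map_pow] at h3
  have h4 := cast_eq_zero hn μ hc hcp hc1 hω H M h3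
  rw [ZMod.natCast_eq_zero_iff] at h4
  have := Nat.le_of_dvd hM h4
  omega

theorem surv (p k n m : ℕ) (hp : p.Prime) (hn : 2 ≤ n) (hnk : n ≤ p ^ k)
    (hm : p ^ (k + 1) ∣ m) (M : ℕ) (hM : 0 < M) :
    ∃ (P : Type) (_ : Group P) (_ : Finite P) (θ : Q n m hn →* P),
      θ ((QuotientGroup.mk (MulAut.conj (ww hn p k)) : Q n m hn) ^ M) ≠ 1 := by
  have : Fact p.Prime := ⟨hp⟩
  have hfr : Module.finrank (ZMod p) (KK p k) = p ^ k := GaloisField.finrank p (dpos p k).ne'
  let bs : Module.Basis (Fin (p ^ k)) (ZMod p) (KK p k) := Module.finBasisOfFinrankEq _ _ hfr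
  let x : Fin n → KK p k := fun i => bs (Fin.castLE hnk i)
  have hli : LinearIndependent (ZMod p) x :=
    bs.linearIndependent.comp _ (Fin.castLE_injective hnk)
  have hell : ∀ v : Fin n → ZMod p, v ≠ 0 → ell x v ≠ 0 := by
    intro v hv h
    apply hv
    funext i
    exact Fintype.linearIndependent_iff.1 hli v h i
  let G : Subgroup (MM p k)ˣ := Subgroup.centralizer {c0 p k}
  have hG : ∀ w, mu0 x w ∈ G := by
    intro w
    rw [Subgroup.mem_centralizer_iff]
    intro h hh
    rw [Set.mem_singleton_iff] at hh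
    rw [hh]
    exact mu0_comm x w
  have hcG : c0 p k ∈ G := by
    rw [Subgroup.mem_centralizer_iff]
    intro h hh
    rw [Set.mem_singleton_iff] at hh
    rw [hh]
  let μ : FreeGroup (Fin n) →* G := (mu0 x).codRestrict G hG
  let c : G := ⟨c0 p k, hcG⟩
  have hc : ∀ g : G, c * g = g * c := by
    intro g
    apply Subtype.ext
    exact Subgroup.mem_centralizer_iff.1 g.2 _ (Set.mem_singleton _)
  have hcp : c ^ p = 1 := by
    apply Subtype.ext
    apply Units.ext
    change ((c0 p k ^ p : (MM p k)ˣ) : MM p k) = 1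
    rw [c0_pow, CharP.cast_eq_zero]
    have : corner (p ^ k) (KK p k) (0 : KK p k) = 0 := by ext i j; simp [corner]
    rw [this, add_zero]
  have hc1 : c ≠ 1 := by
    intro h
    have h1 : c0 p k = 1 := congrArg Subtype.val h
    have h2 : (1 : MM p k) + corner (p ^ k) (KK p k) 1 = 1 := by
      rw [← c0_val, h1]; rfl
    have h3 : corner (p ^ k) (KK p k) 1 = corner (p ^ k) (KK p k) 0 := by
      have : corner (p ^ k) (KK p k) (0 : KK p k) = 0 := by ext i j; simp [corner]
      rw [this]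
      simpa using h2
    exact one_ne_zero (corner_injective h3)
  have hfK : Finite (KK p k) := inferInstance
  have hfM : Finite (MM p k) := by
    change Finite (Matrix _ _ (KK p k))
    unfold Matrix
    infer_instance
  have hfU : Finite (MM p k)ˣ := inferInstance
  have hfG : Finite G := inferInstance
  refine surv_abs (G := G) hn (c := c) (p := p) (k := k) μ hc hcp hc1 ?_ hm M hM
  intro g hg
  obtain ⟨s, hs, e⟩ := mu0_pow x g hfr (hell _ (fun h => hg (by
    apply Multiplicative.toAdd.injective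
    rw [h]; rfl)))
  refine ⟨s, hs, ?_⟩
  apply Subtype.ext
  exact e

end Pool.Agent.Run7.h463.QNF
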