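import Mathlib

/-!
# A finite 3-group in which all primitive elements have central cubes (MP_73474e_al)

`T K` is the group of the elements `1 + x τ + u τ² + c τ³` of the truncated skew polynomial ring
`K{τ} / τ⁴`, `τ x = x³ τ`, over a field `K` of characteristic three.  The cube of such an element is
`1 + x^13 τ³`.
-/

set_option autoImplicit false

namespace Pool.Agent.Run7.h463.QNM

/-- `1 + x τ + u τ² + c τ³` -/
@[ext] structure T (K : Type) where
  x : K
  u : K
  c : K

namespace T

variable {K : Type} [Field K] [CharP K 3]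

theorem cube_add (a b : K) : (a + b) ^ 3 = a ^ 3 + b ^ 3 := by
  have : Fact (Nat.Prime 3) := ⟨by norm_num⟩
  exact add_pow_char a b 3

theorem ninth_add (a b : K) : (a + b) ^ 9 = a ^ 9 + b ^ 9 := by
  have h : ∀ y : K, y ^ 9 = (y ^ 3) ^ 3 := fun y => by ring
  rw [h, cube_add, cube_add, ← h, ← h]

theorem three : (3 : K) = 0 := by
  have := CharP.cast_eq_zero K 3
  simpa using this

instance : Mul (T K) :=
  ⟨fun a b => ⟨a.x + b.x, a.u + b.u + a.x * b.x ^ 3,
    a.c + b.c + a.x * b.u ^ 3 + a.u * b.x ^ 9⟩⟩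

instance : One (T K) := ⟨⟨0, 0, 0⟩⟩

instance : Inv (T K) :=
  ⟨fun a => ⟨-a.x, -a.u + a.x ^ 4, -a.c + a.x * a.u ^ 3 + a.u * a.x ^ 9 - a.x ^ 13⟩⟩

theorem mul_def (a b : T K) : a * b = ⟨a.x + b.x, a.u + b.u + a.x * b.x ^ 3,
    a.c + b.c + a.x * b.u ^ 3 + a.u * b.x ^ 9⟩ := rfl

theorem one_def : (1 : T K) = ⟨0, 0, 0⟩ := rfl

theorem inv_def (a : T K) : a⁻¹ = ⟨-a.x, -a.u + a.x ^ 4,
    -a.c + a.x * a.u ^ 3 + a.u * a.x ^ 9 - a.x ^ 13⟩ := rfl

instance : Group (T K) :=
  Group.ofLeftAxioms
    (by
      intro a b d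
      simp only [mul_def]
      ext
      · simp only; ring
      · simp only [cube_add]; ring
      · simp only [cube_add, ninth_add, mul_pow]; ring)
    (by
      intro a
      rw [one_def, mul_def]
      ext <;> simp)
    (by
      intro a
      rw [one_def, mul_def, inv_def]
      ext <;> simp only <;> ring)

theorem cube (a : T K) : a ^ 3 = ⟨0, 0, a.x ^ 13⟩ := by
  have h3 : (3 : K) = 0 := three
  rw [pow_succ, pow_two]
  simp only [mul_def]
  ext
  · simp only; linear_combination a.x * h3
  · simp only; linear_combination (a.u + a.x ^ 4) * h3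
  · simp only
    linear_combination (a.c + a.x * a.u ^ 3 + a.u * a.x ^ 9) * h3

/-- the central element `1 + τ³` -/
def z : T K := ⟨0, 0, 1⟩

theorem z_comm (a : T K) : z * a = a * z := by
  simp only [z, mul_def]
  ext <;> simp only <;> ring

theorem z_cube : (z : T K) ^ 3 = 1 := by
  rw [cube, one_def]
  simp [z]

theorem z_ne : (z : T K) ≠ 1 := by
  intro h
  have := congrArg T.c h
  simp [z, one_def] at this

theorem z_sq : (z : T K) ^ 2 = ⟨0, 0, -1⟩ := by
  have h3 : (3 : K) = 0 := three
  rw [pow_two]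
  simp only [z, mul_def]
  ext
  · simp only; ring
  · simp only; ring
  · simp only; linear_combination h3

/-- first coordinate -/
def fst : T K →* Multiplicative K where
  toFun a := Multiplicative.ofAdd a.x
  map_one' := rfl
  map_mul' a b := rfl

end T

instance : Fact (Nat.Prime 3) := ⟨by norm_num⟩

/-- the field with 27 elements -/
abbrev K27 := GaloisField 3 3

theorem card27 : Nat.card K27 = 27 := by
  rw [GaloisField.card 3 3 (by norm_num)]; norm_num

theorem pow13 (a : K27) (ha : a ≠ 0) : a ^ 13 = 1 ∨ a ^ 13 = -1 := by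
  have : Fintype K27 := Fintype.ofFinite _
  have h : a ^ 26 = 1 := by
    have := FiniteField.pow_card_sub_one_eq_one a ha
    rwa [show Fintype.card K27 - 1 = 26 by
      rw [← Nat.card_eq_fintype_card, card27]] at this
  have h2 : (a ^ 13 - 1) * (a ^ 13 + 1) = 0 := by
    ring_nf
    ring_nf at h
    rw [h]; ring
  rcases mul_eq_zero.1 h2 with h3 | h3
  · left; exact sub_eq_zero.1 h3
  · right; exact eq_neg_of_add_eq_zero_left h3

theorem cube_eq (a : T K27) (ha : a.x ≠ 0) : a ^ 3 = T.z ∨ a ^ 3 = T.z ^ 2 := by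
  rw [T.cube, T.z_sq]
  rcases pow13 a.x ha with h | h
  · left; rw [h]; rfl
  · right; rw [h]

/-- a basis of the field with 27 elements over the prime field -/
noncomputable def bs : Module.Basis (Fin 3) (ZMod 3) K27 :=
  (Module.finBasis (ZMod 3) K27).reindex (finCongr (GaloisField.finrank 3 (by norm_num)))

/-- the homomorphism of the free group to `T K27` -/
noncomputable def phi : FreeGroup (Fin 3) →* T K27 := FreeGroup.lift fun i => ⟨bs i, 0, 0⟩

theorem phi_x (α : MulAut (FreeGroup (Fin 3))) (i : Fin 3) :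
    (phi (α (FreeGroup.of i))).x ≠ 0 := by
  intro h0
  -- coordinate hom
  let χi : FreeGroup (Fin 3) →* Multiplicative (ZMod 3) :=
    FreeGroup.lift fun j => Multiplicative.ofAdd (if j = i then (1 : ZMod 3) else 0)
  let χ : FreeGroup (Fin 3) →* Multiplicative (ZMod 3) := χi.comp (α⁻¹ : MulAut _).toMonoidHom
  let L : K27 →ₗ[ZMod 3] ZMod 3 := bs.constr (ZMod 3) fun j => (χ (FreeGroup.of j)).toAdd
  let Lm : Multiplicative K27 →* Multiplicative (ZMod 3) := AddMonoidHom.toMultiplicative L.toAddMonoidHom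
  have key : Lm.comp (T.fst.comp phi) = χ := by
    apply FreeGroup.ext_hom
    intro j
    have h1 : phi (FreeGroup.of j) = ⟨bs j, 0, 0⟩ := by simp [phi]
    change Lm (T.fst (phi (FreeGroup.of j))) = χ (FreeGroup.of j)
    rw [h1]
    change Multiplicative.ofAdd (L (bs j)) = χ (FreeGroup.of j)
    rw [Module.Basis.constr_basis]
    rfl
  have h1 : χ (α (FreeGroup.of i)) = Multiplicative.ofAdd (1 : ZMod 3) := by
    change χi ((α⁻¹ : MulAut _) (α (FreeGroup.of i))) = _
    rw [MulAut.inv_apply_self]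
    simp [χi]
  have h2 : χ (α (FreeGroup.of i)) = Multiplicative.ofAdd (0 : ZMod 3) := by
    rw [← key]
    change Multiplicative.ofAdd (L ((phi (α (FreeGroup.of i))).x)) = _
    rw [h0, map_zero]
  rw [h1] at h2
  have h3 : (1 : ZMod 3) = 0 := Multiplicative.ofAdd.injective h2
  exact absurd h3 (by decide)

end Pool.Agent.Run7.h463.QNM
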