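import Pool.Agent.Run7.h463.QNM1

/-!
# Finite quotients of `Aut (F_3)` killing the ninth powers of the Nielsen moves (MP_73474e_al)

For a group `G` with a central element `z` of order three and `A = ZMod N` the permutations
`(t, s) ↦ (g t, s + f t)` of `G × A` with `f t + f (z t) + f (z² t) = 0` form a group in which
every element over an element of `G` with cube `z` or `z²` has order dividing nine.
-/

set_option autoImplicit false

namespace Pool.Agent.Run7.h463.QNM

variable {G : Type} [Group G] {N : ℕ}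

/-- the permutation `(t, s) ↦ (g t, s + f t)` -/
def pm (g : G) (f : G → ZMod N) : Equiv.Perm (G × ZMod N) where
  toFun p := (g * p.1, p.2 + f p.1)
  invFun p := (g⁻¹ * p.1, p.2 - f (g⁻¹ * p.1))
  left_inv p := by simp
  right_inv p := by simp

theorem pm_apply (g : G) (f : G → ZMod N) (t : G) (s : ZMod N) :
    pm g f (t, s) = (g * t, s + f t) := rfl

theorem pm_inv_apply (g : G) (f : G → ZMod N) (t : G) (s : ZMod N) :
    (pm g f)⁻¹ (t, s) = (g⁻¹ * t, s - f (g⁻¹ * t)) := rfl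

/-- the condition on `f` -/
def Star (z : G) (f : G → ZMod N) : Prop := ∀ t, f t + f (z * t) + f (z * (z * t)) = 0

theorem lift_form (z : G) (hz : ∀ g, z * g = g * z) (φ : FreeGroup (Fin 3) →* G)
    (ψ : FreeGroup (Fin 3) →* Equiv.Perm (G × ZMod N))
    (h : ∀ i, ∃ f : G → ZMod N, Star z f ∧ ψ (FreeGroup.of i) = pm (φ (FreeGroup.of i)) f)
    (w : FreeGroup (Fin 3)) :
    ∃ f : G → ZMod N, Star z f ∧ ψ w = pm (φ w) f := by
  have hz' : ∀ g, z * g⁻¹ = g⁻¹ * z := fun g => hz g⁻¹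
  have hinv : ∀ w : FreeGroup (Fin 3), (∃ f : G → ZMod N, Star z f ∧ ψ w = pm (φ w) f) →
      ∃ f : G → ZMod N, Star z f ∧ ψ w⁻¹ = pm (φ w⁻¹) f := by
    rintro w ⟨f, hf, hw⟩
    refine ⟨fun t => - f ((φ w)⁻¹ * t), ?_, ?_⟩
    · intro t
      have := hf ((φ w)⁻¹ * t)
      have e1 : (φ w)⁻¹ * (z * t) = z * ((φ w)⁻¹ * t) := by
        rw [← mul_assoc, ← hz', mul_assoc]
      have e2 : (φ w)⁻¹ * (z * (z * t)) = z * (z * ((φ w)⁻¹ * t)) := by
        rw [← mul_assoc, ← hz', mul_assoc, e1]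
      simp only [e1, e2]
      linear_combination -this
    · rw [map_inv, hw, map_inv]
      ext1 ⟨t, s⟩
      rw [pm_inv_apply, pm_apply, sub_eq_add_neg]
  have hmul : ∀ v w : FreeGroup (Fin 3), (∃ f : G → ZMod N, Star z f ∧ ψ v = pm (φ v) f) →
      (∃ f : G → ZMod N, Star z f ∧ ψ w = pm (φ w) f) →
      ∃ f : G → ZMod N, Star z f ∧ ψ (v * w) = pm (φ (v * w)) f := by
    rintro v w ⟨f, hf, hv⟩ ⟨k, hk, hw⟩
    refine ⟨fun t => k t + f (φ w * t), ?_, ?_⟩
    · intro t
      have h1 := hk t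
      have h2 := hf (φ w * t)
      have e1 : φ w * (z * t) = z * (φ w * t) := by rw [← mul_assoc, ← hz, mul_assoc]
      have e2 : φ w * (z * (z * t)) = z * (z * (φ w * t)) := by
        rw [← mul_assoc, ← hz, mul_assoc, e1]
      simp only [e1, e2]
      linear_combination h1 + h2
    · rw [map_mul, hv, hw, map_mul]
      ext1 ⟨t, s⟩
      rw [Equiv.Perm.mul_apply, pm_apply, pm_apply, pm_apply, mul_assoc, add_assoc]
  induction w using FreeGroup.induction_on with
  | C1 =>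
    refine ⟨fun _ => 0, fun t => by simp, ?_⟩
    rw [map_one, map_one]
    ext1 ⟨t, s⟩
    rw [pm_apply]; simp
  | of i => exact h i
  | inv_of i _ => exact hinv _ (h i)
  | mul v w hv hw => exact hmul v w hv hw

theorem pow_nine (z : G) (hz : ∀ g, z * g = g * z) (hz3 : z ^ 3 = 1)
    (φ : FreeGroup (Fin 3) →* G) (ψ : FreeGroup (Fin 3) →* Equiv.Perm (G × ZMod N))
    (h : ∀ i, ∃ f : G → ZMod N, Star z f ∧ ψ (FreeGroup.of i) = pm (φ (FreeGroup.of i)) f)
    (w : FreeGroup (Fin 3)) (hw : φ w ^ 3 = z ∨ φ w ^ 3 = z ^ 2) : ψ w ^ 9 = 1 := by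
  obtain ⟨f, hf, hψ⟩ := lift_form z hz φ ψ h (w ^ 3)
  rw [map_pow, map_pow] at hψ
  have h9 : ψ w ^ 9 = (ψ w ^ 3) ^ 3 := by rw [← pow_mul]
  have hz3' : z * (z * z) = 1 := by rw [← hz3, pow_succ, pow_two, mul_assoc]
  have e : ∀ t, z * (z * (z * t)) = t := fun t => by
    rw [← mul_assoc z z t, ← mul_assoc z (z * z) t, hz3', one_mul]
  rw [h9, hψ]
  ext1 ⟨t, s⟩
  rw [pow_succ, pow_two, Equiv.Perm.mul_apply, Equiv.Perm.mul_apply, pm_apply, pm_apply, pm_apply,
    Equiv.Perm.one_apply]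
  have hft := hf t
  rcases hw with hw | hw
  · rw [hw, e]
    refine Prod.ext rfl ?_
    simp only
    linear_combination hft
  · have e1 : ∀ t, z ^ 2 * t = z * (z * t) := fun t => by rw [pow_two, mul_assoc]
    rw [hw, e1, e1, e1, e, e]
    refine Prod.ext rfl ?_
    simp only
    linear_combination hft

end Pool.Agent.Run7.h463.QNM
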