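import Pool.Agent.Run7.h463.QNM3

/-!
# `Aut (F_3)` modulo the ninth powers of the Nielsen moves has infinitely many finite quotients:
the unbounded inner automorphism (MP_73474e_al)
-/

set_option autoImplicit false

namespace Pool.Agent.Run7.h463.QNM

open Classical in
/-- indicator of `1` minus indicator of `z` -/
noncomputable def DD {G : Type} [Group G] (z : G) (N : ℕ) (t : G) : ZMod N :=
  (if t = 1 then 1 else 0) - (if t = z then 1 else 0)

theorem DD_star {G : Type} [Group G] (z : G) (z3 : z * (z * z) = 1) (N : ℕ) :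
    Star z (DD z N) := by
  classical
  intro t
  have e1 : z * t = 1 ↔ t = z * z := by
    constructor
    · intro h
      have : z * z * (z * t) = z * z * 1 := by rw [h]
      rw [mul_one, ← mul_assoc, mul_assoc z z z, z3, one_mul] at this
      exact this
    · intro h; rw [h, z3]
  have e2 : z * t = z ↔ t = 1 := mul_eq_left
  have e3 : z * (z * t) = 1 ↔ t = z := by
    constructor
    · intro h
      have : z * (z * (z * t)) = z * 1 := by rw [h]
      rw [mul_one, ← mul_assoc, ← mul_assoc, mul_assoc z z z, z3, one_mul] at this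
      exact this
    · intro h; rw [h, z3]
  have e4 : z * (z * t) = z ↔ t = z * z := by
    rw [mul_eq_left, e1]
  unfold DD
  simp only [e1, e2, e3, e4]
  ring

/-- indicator of `1` minus indicator of `z` -/
noncomputable def D (N : ℕ) : T K27 → ZMod N := DD T.z N

theorem z3' : (T.z : T K27) * (T.z * T.z) = 1 := by
  rw [← T.z_cube, pow_succ, pow_two, mul_assoc]

theorem D_star (N : ℕ) : Star T.z (D N) := DD_star T.z z3' N

theorem D_one (N : ℕ) : D N 1 = 1 := by
  unfold D DD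
  rw [if_pos rfl, if_neg (Ne.symm T.z_ne), sub_zero]

/-- the homomorphism with unbounded image -/
noncomputable def ps (N : ℕ) : F3 →* Equiv.Perm (T K27 × ZMod N) :=
  FreeGroup.lift fun i => pm (phi (FreeGroup.of i)) (if i = 0 then D N else fun _ => 0)

theorem ps_of (N : ℕ) (i : Fin 3) : ps N (FreeGroup.of i) =
    pm (phi (FreeGroup.of i)) (if i = 0 then D N else fun _ => 0) := by
  simp [ps]

theorem ps_form (N : ℕ) (i : Fin 3) : ∃ f : T K27 → ZMod N, Star T.z f ∧
    ps N (FreeGroup.of i) = pm (phi (FreeGroup.of i)) f := by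
  refine ⟨_, ?_, ps_of N i⟩
  by_cases hi : i = 0
  · rw [if_pos hi]; exact D_star N
  · rw [if_neg hi]; intro t; simp

/-- the homomorphism as an element of `X` -/
noncomputable def psX (N : ℕ) : X (Equiv.Perm (T K27 × ZMod N)) :=
  ⟨ps N, fun β i => pow_nine T.z T.z_comm T.z_cube phi (ps N) (ps_form N) _ (by
    rw [← map_pow]
    rw [map_pow]
    exact cube_eq _ (phi_x β i))⟩

instance : Finite (T K27) := by
  refine Finite.of_injective (fun a : T K27 => (a.x, a.u, a.c)) ?_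
  intro a b h
  simp only [Prod.mk.injEq] at h
  exact T.ext h.1 h.2.1 h.2.2

theorem pm_cube_zero {G : Type} [Group G] {N : ℕ} (g : G) :
    pm g (fun _ => (0 : ZMod N)) ^ 3 = pm (g ^ 3) (fun _ => (0 : ZMod N)) := by
  ext1 ⟨t, s⟩
  rw [pow_succ, pow_two, Equiv.Perm.mul_apply, Equiv.Perm.mul_apply, pm_apply, pm_apply, pm_apply,
    pm_apply, pow_succ, pow_two]
  simp [mul_assoc]

/-- the commutator `[a₀, a₂³]` -/
def uu : F3 := FreeGroup.of 0 * FreeGroup.of 2 ^ 3 * (FreeGroup.of 0)⁻¹ * (FreeGroup.of 2 ^ 3)⁻¹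

theorem ps_c (N : ℕ) (t : T K27) (s : ZMod N) :
    ps N (FreeGroup.of 2 ^ 3) (t, s) = (phi (FreeGroup.of 2) ^ 3 * t, s) := by
  rw [map_pow, ps_of, if_neg (by decide), pm_cube_zero, pm_apply, add_zero]

theorem ps_c_inv (N : ℕ) (t : T K27) (s : ZMod N) :
    (ps N (FreeGroup.of 2 ^ 3))⁻¹ (t, s) = ((phi (FreeGroup.of 2) ^ 3)⁻¹ * t, s) := by
  rw [Equiv.Perm.inv_eq_iff_eq, ps_c, mul_inv_cancel_left]

/-- the value of the commutator -/
noncomputable def E (N : ℕ) (t : T K27) : ZMod N :=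
  D N ((phi (FreeGroup.of 0))⁻¹ * t) -
    D N ((phi (FreeGroup.of 0))⁻¹ * ((phi (FreeGroup.of 2) ^ 3)⁻¹ * t))

theorem ps_u (N : ℕ) (hc : ∀ g : T K27, phi (FreeGroup.of 2) ^ 3 * g = g * phi (FreeGroup.of 2) ^ 3)
    (t : T K27) (s : ZMod N) : ps N uu (t, s) = (t, s + E N t) := by
  unfold uu
  rw [map_mul, map_mul, map_mul, map_inv, map_inv, Equiv.Perm.mul_apply, Equiv.Perm.mul_apply,
    Equiv.Perm.mul_apply, ps_c_inv, ps_of, if_pos rfl, pm_inv_apply, ps_c, pm_apply]
  have e : phi (FreeGroup.of 2) ^ 3 * ((phi (FreeGroup.of 0))⁻¹ *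
      ((phi (FreeGroup.of 2) ^ 3)⁻¹ * t)) = (phi (FreeGroup.of 0))⁻¹ * t := by
    rw [← mul_assoc, hc, mul_assoc, mul_inv_cancel_left]
  rw [e, mul_inv_cancel_left]
  refine Prod.ext rfl ?_
  simp only [E]
  ring

theorem ps_u_pow (N : ℕ)
    (hc : ∀ g : T K27, phi (FreeGroup.of 2) ^ 3 * g = g * phi (FreeGroup.of 2) ^ 3) (M : ℕ)
    (t : T K27) (s : ZMod N) : ps N (uu ^ M) (t, s) = (t, s + M * E N t) := by
  induction M with
  | zero => simp
  | succ M ih =>
    rw [pow_succ', map_mul, Equiv.Perm.mul_apply, ih, ps_u N hc]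
    refine Prod.ext rfl ?_
    simp only
    push_cast
    ring

theorem final : Set.Infinite {N : Subgroup (MulAut F3 ⧸
    Subgroup.normalClosure ({sg ^ 9} : Set (MulAut F3))) | N.Normal ∧ N.FiniteIndex} := by
  apply infinite_of_hom (QuotientGroup.mk (MulAut.conj uu))
  intro M hM
  set N : ℕ := 3 * M + 1 with hN
  have : NeZero N := ⟨by omega⟩
  refine ⟨Equiv.Perm (X (Equiv.Perm (T K27 × ZMod N))), inferInstance, inferInstance,
    Th (Equiv.Perm (T K27 × ZMod N)), ?_⟩
  intro h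
  have h1 : ((MulAut.conj uu) ^ M : MulAut F3) • psX N = psX N := by
    have h2 := DFunLike.congr_fun h (psX N)
    exact h2
  -- the commutation
  have hcomm : ∀ w : F3, ps N (uu ^ M) * ps N w = ps N w * ps N (uu ^ M) := by
    intro w
    have h2 : (((MulAut.conj uu) ^ M : MulAut F3) • psX N).1 (uu ^ M * w * (uu ^ M)⁻¹) =
        (psX N).1 (uu ^ M * w * (uu ^ M)⁻¹) := by rw [h1]
    rw [smul_apply] at h2
    have h3 : ((MulAut.conj uu) ^ M : MulAut F3)⁻¹ (uu ^ M * w * (uu ^ M)⁻¹) = w := by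
      rw [← map_pow, ← map_inv, MulAut.conj_apply]; group
    rw [h3] at h2
    change ps N w = ps N (uu ^ M * w * (uu ^ M)⁻¹) at h2
    rw [map_mul, map_mul, map_inv] at h2
    exact (eq_mul_inv_iff_mul_eq.1 h2).symm
  have hx : (phi (FreeGroup.of 2)).x ≠ 0 := phi_x 1 2
  have hcz := cube_eq (phi (FreeGroup.of 2)) hx
  have hc : ∀ g : T K27, phi (FreeGroup.of 2) ^ 3 * g = g * phi (FreeGroup.of 2) ^ 3 := by
    intro g
    rcases hcz with hcz | hcz
    · rw [hcz, T.z_comm]
    · rw [hcz, pow_two, mul_assoc, T.z_comm g, ← mul_assoc, T.z_comm g, mul_assoc]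
  have h4 := hcomm (FreeGroup.of 2 ^ 3)
  have h5 := DFunLike.congr_fun h4 (phi (FreeGroup.of 0), (0 : ZMod N))
  rw [Equiv.Perm.mul_apply, Equiv.Perm.mul_apply, ps_c, ps_u_pow N hc, ps_u_pow N hc, ps_c] at h5
  have h6 := congrArg Prod.snd h5
  simp only [zero_add] at h6
  unfold E at h6
  have e1 : (phi (FreeGroup.of 0))⁻¹ * (phi (FreeGroup.of 2) ^ 3 * phi (FreeGroup.of 0)) =
      phi (FreeGroup.of 2) ^ 3 := by rw [hc]; group
  have e2 : (phi (FreeGroup.of 2) ^ 3)⁻¹ * (phi (FreeGroup.of 2) ^ 3 * phi (FreeGroup.of 0)) =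
      phi (FreeGroup.of 0) := by group
  have e3 : (phi (FreeGroup.of 0))⁻¹ * ((phi (FreeGroup.of 2) ^ 3)⁻¹ * phi (FreeGroup.of 0)) =
      (phi (FreeGroup.of 2) ^ 3)⁻¹ := by
    have := hc (phi (FreeGroup.of 0))
    rw [inv_mul_eq_iff_eq_mul, inv_mul_eq_iff_eq_mul, ← mul_assoc, this]; group
  rw [e1, e2, e3, inv_mul_cancel, D_one] at h6
  -- sum over the coset of `z`
  have hs := D_star N 1
  rw [D_one, mul_one] at hs
  have h7 : D N (phi (FreeGroup.of 2) ^ 3) + D N (phi (FreeGroup.of 2) ^ 3)⁻¹ = -1 := by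
    have hzi : (T.z : T K27)⁻¹ = T.z * T.z := by
      rw [inv_eq_iff_mul_eq_one]; exact z3'
    have hzi2 : (T.z * T.z : T K27)⁻¹ = T.z := by
      rw [← hzi, inv_inv]
    rcases hcz with hcz | hcz
    · rw [hcz, hzi]; linear_combination hs
    · rw [hcz, pow_two, hzi2]; linear_combination hs
  have h8 : ((3 * M : ℕ) : ZMod N) = 0 := by
    push_cast
    linear_combination (-1 : ZMod N) * h6 + (M : ZMod N) * h7
  rw [ZMod.natCast_eq_zero_iff] at h8
  have h9 := Nat.le_of_dvd (by omega) h8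
  omega

end Pool.Agent.Run7.h463.QNM
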