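import Pool.Agent.Run7.h463.APair
import Pool.Agent.Run7.h463.Auto

set_option autoImplicit false

/-! No regular language of geodesics over a finite monoid generating set maps onto `G`. -/

namespace Run7.h463

section general

variable {H : Type} [Group H] {α : Type} (ι : α → H)

/-- the element represented by a word -/
def val (w : List α) : H := (w.map ι).prod

@[simp] theorem val_nil : val ι [] = 1 := rfl
@[simp] theorem val_cons (a : α) (w : List α) : val ι (a :: w) = ι a * val ι w := by simp [val]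
@[simp] theorem val_append (u v : List α) : val ι (u ++ v) = val ι u * val ι v := by simp [val]

theorem exists_val (h : Submonoid.closure (Set.range ι) = ⊤) (g : H) : ∃ w, val ι w = g := by
  have hg : g ∈ Submonoid.closure (Set.range ι) := by rw [h]; trivial
  induction hg using Submonoid.closure_induction with
  | mem x hx =>
    obtain ⟨a, rfl⟩ := hx
    exact ⟨[a], by simp⟩
  | one => exact ⟨[], rfl⟩
  | mul x y _ _ hx hy =>
    obtain ⟨u, hu⟩ := hx
    obtain ⟨v, hv⟩ := hy
    exact ⟨u ++ v, by rw [val_append, hu, hv]⟩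

/-- word length -/
noncomputable def ml (g : H) : ℕ := sInf {n | ∃ w : List α, w.length = n ∧ val ι w = g}

theorem ml_le (w : List α) : ml ι (val ι w) ≤ w.length := Nat.sInf_le ⟨w, rfl, rfl⟩

theorem exists_min (h : Submonoid.closure (Set.range ι) = ⊤) (g : H) :
    ∃ w : List α, w.length = ml ι g ∧ val ι w = g := by
  obtain ⟨w, hw⟩ := exists_val ι h g
  exact Nat.sInf_mem (s := {n | ∃ w : List α, w.length = n ∧ val ι w = g}) ⟨w.length, w, rfl, hw⟩

theorem ml_one : ml ι (1 : H) = 0 := by
  have := ml_le ι []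
  simpa using this

theorem ml_mul (h : Submonoid.closure (Set.range ι) = ⊤) (g k : H) :
    ml ι (g * k) ≤ ml ι g + ml ι k := by
  obtain ⟨u, hu, rfl⟩ := exists_min ι h g
  obtain ⟨v, hv, rfl⟩ := exists_min ι h k
  rw [← hu, ← hv, ← val_append, ← List.length_append]
  exact ml_le ι _

theorem ml_inv (h : Submonoid.closure (Set.range ι) = ⊤) [Fintype α] :
    ∃ C : ℕ, ∀ g : H, ml ι g ≤ C * ml ι g⁻¹ := by
  refine ⟨∑ a : α, ml ι (ι a)⁻¹, fun g => ?_⟩
  obtain ⟨w, hw, hw'⟩ := exists_min ι h g⁻¹
  rw [← hw]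
  have e : g = (val ι w)⁻¹ := by rw [hw', inv_inv]
  rw [e]
  clear hw hw' e
  induction w with
  | nil => simp [ml_one]
  | cons a w ih =>
    rw [val_cons, mul_inv_rev, List.length_cons]
    have h1 := ml_mul ι h (val ι w)⁻¹ (ι a)⁻¹
    have h2 : ml ι (ι a)⁻¹ ≤ ∑ a : α, ml ι (ι a)⁻¹ :=
      Finset.single_le_sum (f := fun a => ml ι (ι a)⁻¹) (fun i _ => Nat.zero_le _)
        (Finset.mem_univ a)
    nlinarith

end general

/-- the crossing property for words -/
theorem cross_words {α : Type} [Fintype α] (ι : α → G) : ∃ Q : Finset G, ∀ w : List α, ∀ g : G,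
    F g ≠ F (g * val ι w) → ∃ w₁ w₂, w = w₁ ++ w₂ ∧ ∃ q ∈ Q, InA (g * val ι w₁ * q) := by
  classical
  choose Q hQ using exists_Q
  let QQ : Finset G := Finset.univ.biUnion (fun a => Q (ι a))
  refine ⟨QQ, fun w => ?_⟩
  induction w with
  | nil => intro g h; simp at h
  | cons a w ih =>
    intro g h
    rw [val_cons] at h
    by_cases h1 : F g = F (g * ι a)
    · have h2 : F (g * ι a) ≠ F (g * ι a * val ι w) := by
        rw [← h1, mul_assoc]; exact h
      obtain ⟨w₁, w₂, e, q, hq, hA⟩ := ih _ h2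
      refine ⟨a :: w₁, w₂, by rw [e]; rfl, q, hq, ?_⟩
      rw [val_cons, ← mul_assoc g]; exact hA
    · obtain ⟨q, hq, hA⟩ := hQ (ι a) g h1
      refine ⟨[], a :: w, rfl, q, ?_, by simpa using hA⟩
      simp only [QQ, Finset.mem_biUnion, Finset.mem_univ, true_and]
      exact ⟨a, hq⟩

/-- `c` is undistorted for every word length -/
theorem undist_words {α : Type} [Fintype α] (ι : α → G)
    (h : Submonoid.closure (Set.range ι) = ⊤) :
    ∃ κ : ℝ, 0 < κ ∧ ∀ m : ℤ, κ * |(m : ℝ)| ≤ ml ι (vec (2 * m) (2 * m)) := by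
  obtain ⟨Φ, h1, h2⟩ := undist XX_LF
  choose C hC using h1
  set CC : ℝ := 1 + ∑ a : α, |C (ι a)| with hCC
  have hs0 : 0 ≤ ∑ a : α, |C (ι a)| := Finset.sum_nonneg fun i _ => abs_nonneg _
  have hCC0 : 0 < CC := by linarith
  have hCx : ∀ a, C (ι a) ≤ CC := by
    intro a
    have := Finset.single_le_sum (f := fun a => |C (ι a)|)
      (fun i _ => abs_nonneg (C (ι i))) (Finset.mem_univ a)
    have := le_abs_self (C (ι a))
    linarith
  have key : ∀ w : List α, ∀ g, |Φ (g * val ι w) - Φ g| ≤ CC * w.length := by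
    intro w
    induction w with
    | nil => intro g; simp
    | cons a w ih =>
      intro g
      rw [val_cons, ← mul_assoc]
      have a1 := ih (g * ι a)
      have a2 := hC (ι a) g
      have a3 := hCx a
      have a4 := abs_sub_le (Φ (g * ι a * val ι w)) (Φ (g * ι a)) (Φ g)
      rw [List.length_cons]
      push_cast
      nlinarith
  refine ⟨1 / CC, by positivity, fun m => ?_⟩
  obtain ⟨w, hw1, hw2⟩ := exists_min ι h (vec (2 * m) (2 * m))
  have a1 := key w 1
  rw [one_mul, hw2, h2] at a1
  have a2 : Φ 1 = 0 := by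
    have := h2 0
    simpa using this
  rw [a2, sub_zero, hw1] at a1
  rw [one_div, inv_mul_le_iff₀ hCC0]
  exact a1

theorem AL_words {α : Type} [Fintype α] (ι : α → G)
    (h : Submonoid.closure (Set.range ι) = ⊤) : AL (fun g => (ml ι g : ℝ)) where
  one := by simp [ml_one]
  nonneg g := Nat.cast_nonneg _
  mul g k := by exact_mod_cast ml_mul ι h g k
  cross := by
    obtain ⟨Q, hQ⟩ := cross_words ι
    refine ⟨Q, fun g k hgk => ?_⟩
    obtain ⟨w, hw1, hw2⟩ := exists_min ι h (g⁻¹ * k)
    obtain ⟨w₁, w₂, e, q, hq, m, hm⟩ := hQ w g (by rw [hw2, mul_inv_cancel_left]; exact hgk)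
    refine ⟨m, q, hq, ?_⟩
    have e1 : g⁻¹ * vec (3 * m) 0 * q⁻¹ = val ι w₁ := by
      rw [← hm]; group
    have e2 : q * vec (3 * (-m)) 0 * k = val ι w₂ := by
      have h3 : val ι w₁ * val ι w₂ = g⁻¹ * k := by rw [← val_append, ← e, hw2]
      have h4 : vec (3 * (-m)) 0 = (vec (3 * m) 0)⁻¹ := by
        rw [vec_inv, mul_neg, neg_zero]
      have h5 : val ι w₂ = (val ι w₁)⁻¹ * g⁻¹ * k := by
        rw [mul_assoc, ← h3]; group
      rw [h4, h5, ← hm]; group
    rw [e1, e2, ← hw1, e, List.length_append]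
    have b1 := ml_le ι w₁
    have b2 := ml_le ι w₂
    have b3 := ml_mul ι h (val ι w₁) (val ι w₂)
    rw [← val_append, ← e, hw2, ← hw1, e, List.length_append] at b3
    have b4 : ml ι (val ι w₁) = w₁.length := by omega
    have b5 : ml ι (val ι w₂) = w₂.length := by omega
    rw [b4, b5]; push_cast; ring
  undist := undist_words ι h

/-- **Main theorem**: no regular language of geodesics (with respect to a finite monoid generating
set) maps onto `G`. -/
theorem no_geodesic_section {α : Type} [Fintype α] (ι : α → G)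
    (h : Submonoid.closure (Set.range ι) = ⊤) {σ : Type} [Fintype σ] (M : DFA α σ)
    (hon : ∀ g : G, ∃ w : List α, M.eval w ∈ M.accept ∧ val ι w = g)
    (hge : ∀ w : List α, M.eval w ∈ M.accept → ∀ v : List α, val ι v = val ι w →
      w.length ≤ v.length) : False := by
  have hge' : ∀ w : List α, M.eval w ∈ M.accept → w.length = ml ι (val ι w) := by
    intro w hw
    apply le_antisymm _ (ml_le ι w)
    obtain ⟨u, hu, hu'⟩ := exists_min ι h (val ι w)
    rw [← hu]
    exact hge w hw u hu'
  apply (AL_words ι h).contra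
  · obtain ⟨C, hC⟩ := ml_inv ι h
    exact ⟨C, Nat.cast_nonneg C, fun g => by exact_mod_cast hC g⟩
  · obtain ⟨Q, hQ⟩ := cross_words ι
    refine ⟨Q, σ, inferInstance, fun q x y => ∃ u v : List α, val ι u = x ∧ val ι v = y ∧
      M.eval u = q ∧ M.eval (u ++ v) ∈ M.accept, ?_, ?_, ?_⟩
    · rintro q x y ⟨u, v, rfl, rfl, -, hac⟩
      have b0 := hge' _ hac
      have b1 := ml_le ι u
      have b2 := ml_le ι v
      have b3 := ml_mul ι h (val ι u) (val ι v)
      rw [val_append, List.length_append] at b0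
      have : ml ι (val ι u * val ι v) = ml ι (val ι u) + ml ι (val ι v) := by omega
      change (ml ι (val ι u * val ι v) : ℝ) = (ml ι (val ι u) : ℝ) + (ml ι (val ι v) : ℝ)
      exact_mod_cast this
    · rintro q x y x' y' ⟨u, v, rfl, rfl, hu, hac⟩ ⟨u', v', rfl, rfl, hu', hac'⟩
      have hac2 : M.eval (u ++ v') ∈ M.accept := by
        have e : M.eval (u ++ v') = M.eval (u' ++ v') := by
          rw [DFA.eval, DFA.evalFrom_of_append, DFA.evalFrom_of_append]
          have e3 : M.evalFrom M.start u = M.evalFrom M.start u' := by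
            change M.eval u = M.eval u'
            rw [hu, hu']
          rw [e3]
        rw [e]; exact hac'
      have b0 := hge' _ hac2
      have b1 := ml_le ι u
      have b2 := ml_le ι v'
      have b3 := ml_mul ι h (val ι u) (val ι v')
      rw [val_append, List.length_append] at b0
      have : ml ι (val ι u * val ι v') = ml ι (val ι u) + ml ι (val ι v') := by omega
      change (ml ι (val ι u * val ι v') : ℝ) = (ml ι (val ι u) : ℝ) + (ml ι (val ι v') : ℝ)
      exact_mod_cast this
    · intro g k hgk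
      obtain ⟨w, hw1, hw2⟩ := hon (g⁻¹ * k)
      obtain ⟨w₁, w₂, e, q, hq, m, hm⟩ := hQ w g (by rw [hw2, mul_inv_cancel_left]; exact hgk)
      refine ⟨m, q, hq, M.eval w₁, w₁, w₂, ?_, ?_, rfl, by rw [← e]; exact hw1⟩
      · rw [← hm]; group
      · have h3 : val ι w₁ * val ι w₂ = g⁻¹ * k := by rw [← val_append, ← e, hw2]
        have h4 : vec (3 * (-m)) 0 = (vec (3 * m) 0)⁻¹ := by
          rw [vec_inv, mul_neg, neg_zero]
        have h5 : val ι w₂ = (val ι w₁)⁻¹ * g⁻¹ * k := by
          rw [mul_assoc, ← h3]; group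
        rw [h4, h5, ← hm]; group

end Run7.h463
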