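import Pool.Agent.Run7.h463.Grp

set_option autoImplicit false

/-! Slopes of horofunction-like sources. -/

namespace Run7.h463

open Filter Topology

/-- The hypotheses on a length function used in the analysis. -/
structure Len (ℓ : G → ℝ) : Prop where
  one : ℓ 1 = 0
  nonneg : ∀ g, 0 ≤ ℓ g
  mul : ∀ g h, ℓ (g * h) ≤ ℓ g + ℓ h
  inv : ∀ g, ℓ g⁻¹ = ℓ g
  cross : ∃ Q : Finset G, ∀ g k, F g ≠ F k → ∃ m : ℤ, ∃ q ∈ Q,
    ℓ (g⁻¹ * k) = ℓ (g⁻¹ * vec (3 * m) 0 * q⁻¹) + ℓ (q * vec (3 * (-m)) 0 * k)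
  undist : ∃ κ : ℝ, 0 < κ ∧ ∀ m : ℤ, κ * |(m : ℝ)| ≤ ℓ (vec (2 * m) (2 * m))
  cones : ∃ (S : Type) (_ : Fintype S) (st : G → S), ∀ g g' h, st g = st g' →
    ℓ (g * h) = ℓ g + ℓ h → ℓ (g' * h) = ℓ g' + ℓ h

/-- the powers of `c` -/
def cc (m : ℤ) : G := vec (2 * m) (2 * m)

theorem cc_zero : cc 0 = 1 := by simp [cc]
theorem cc_mul (m n : ℤ) : cc m * cc n = cc (m + n) := by
  rw [cc, cc, vec_mul, cc]; congr 1 <;> ring
theorem cc_inv (m : ℤ) : (cc m)⁻¹ = cc (-m) := by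
  rw [cc, vec_inv, cc]; congr 1 <;> ring
theorem cc_mul_vec (m x y : ℤ) : cc m * vec x y = vec (x + 2 * m) (y + 2 * m) := by
  rw [cc, vec_mul]; congr 1 <;> ring
theorem s_mul_cc (m : ℤ) : s * cc m = vec (3 * m) 0 * s := s_mul_vec m

namespace Len

variable {ℓ : G → ℝ} (hℓ : Len ℓ)
include hℓ

theorem sub_le (g h : G) : ℓ g - ℓ h ≤ ℓ (g * h) := by
  have := hℓ.mul (g * h) h⁻¹
  rw [mul_inv_cancel_right, hℓ.inv] at this
  linarith

theorem sub_le' (g h : G) : ℓ h - ℓ g ≤ ℓ (g * h) := by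
  have := hℓ.mul g⁻¹ (g * h)
  rw [inv_mul_cancel_left, hℓ.inv] at this
  linarith

theorem vec_neg (x y : ℤ) : ℓ (vec (-x) (-y)) = ℓ (vec x y) := by
  rw [← vec_inv, hℓ.inv]

theorem cc_neg (m : ℤ) : ℓ (cc (-m)) = ℓ (cc m) := by
  rw [← cc_inv, hℓ.inv]

theorem vec_mul_nat (x y : ℤ) (n : ℕ) : ℓ (vec (n * x) (n * y)) ≤ n * ℓ (vec x y) := by
  induction n with
  | zero => simp [hℓ.one]
  | succ n ih =>
    have h := hℓ.mul (vec (n * x) (n * y)) (vec x y)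
    rw [vec_mul] at h
    have e1 : ((n + 1 : ℕ) : ℤ) * x = n * x + x := by push_cast; ring
    have e2 : ((n + 1 : ℕ) : ℤ) * y = n * y + y := by push_cast; ring
    rw [e1, e2]
    push_cast
    linarith

theorem vec_bound (x y : ℤ) :
    ℓ (vec x y) ≤ (|(x : ℝ)| + |(y : ℝ)|) * (ℓ (vec 1 0) + ℓ (vec 0 1)) := by
  have hx : ℓ (vec x 0) ≤ |(x : ℝ)| * ℓ (vec 1 0) := by
    obtain ⟨n, rfl | rfl⟩ := Int.eq_nat_or_neg x
    · have := hℓ.vec_mul_nat 1 0 n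
      simpa using this
    · have := hℓ.vec_mul_nat 1 0 n
      have h2 := hℓ.vec_neg n 0
      rw [neg_zero] at h2
      rw [h2]
      simpa using this
  have hy : ℓ (vec 0 y) ≤ |(y : ℝ)| * ℓ (vec 0 1) := by
    obtain ⟨n, rfl | rfl⟩ := Int.eq_nat_or_neg y
    · have := hℓ.vec_mul_nat 0 1 n
      simpa using this
    · have := hℓ.vec_mul_nat 0 1 n
      have h2 := hℓ.vec_neg 0 n
      rw [neg_zero] at h2
      rw [h2]
      simpa using this
  have h := hℓ.mul (vec x 0) (vec 0 y)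
  rw [vec_mul, add_zero, zero_add] at h
  have h1 := hℓ.nonneg (vec 1 0)
  have h2 := hℓ.nonneg (vec 0 1)
  have h3 := abs_nonneg (x : ℝ)
  have h4 := abs_nonneg (y : ℝ)
  nlinarith [mul_nonneg h3 h2, mul_nonneg h4 h1]

/-- the sequence of lengths of powers of `c` is subadditive -/
theorem subadd : Subadditive (fun n : ℕ => ℓ (cc n)) := by
  intro m n
  have := hℓ.mul (cc m) (cc n)
  rw [cc_mul] at this
  push_cast
  exact this

theorem bdd : BddBelow (Set.range fun n : ℕ => ℓ (cc n) / n) := by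
  refine ⟨0, ?_⟩
  rintro _ ⟨n, rfl⟩
  exact div_nonneg (hℓ.nonneg _) (Nat.cast_nonneg n)

end Len

/-- the translation length of `c` -/
noncomputable def tc (ℓ : G → ℝ) : ℝ := sInf ((fun n : ℕ => ℓ (cc n) / n) '' Set.Ici 1)

namespace Len

variable {ℓ : G → ℝ} (hℓ : Len ℓ)
include hℓ

theorem tc_eq : tc ℓ = hℓ.subadd.lim := by
  rw [Subadditive.lim, tc]

theorem tc_le (m : ℤ) : tc ℓ * |(m : ℝ)| ≤ ℓ (cc m) := by
  have key : ∀ n : ℕ, tc ℓ * n ≤ ℓ (cc n) := by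
    intro n
    rcases Nat.eq_zero_or_pos n with rfl | hn
    · simpa using hℓ.nonneg _
    · have h := hℓ.subadd.lim_le_div hℓ.bdd (n := n) (by omega)
      rw [← hℓ.tc_eq] at h
      rwa [le_div_iff₀ (by exact_mod_cast hn)] at h
  obtain ⟨n, rfl | rfl⟩ := Int.eq_nat_or_neg m
  · simpa using key n
  · rw [hℓ.cc_neg]
    simpa using key n

theorem tc_ge (δ : ℝ) (hδ : 0 < δ) : ∃ C : ℝ, 0 ≤ C ∧ ∀ m : ℤ, ℓ (cc m) ≤ (tc ℓ + δ) * |(m : ℝ)| + C := by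
  have h := hℓ.subadd.tendsto_lim hℓ.bdd
  rw [← hℓ.tc_eq] at h
  have h2 : ∀ᶠ n : ℕ in atTop, ℓ (cc n) / n < tc ℓ + δ :=
    h.eventually_lt_const (by linarith)
  obtain ⟨N, hN⟩ := eventually_atTop.1 h2
  have tc0 : 0 ≤ tc ℓ := by
    apply Real.sInf_nonneg
    rintro _ ⟨n, _, rfl⟩
    exact div_nonneg (hℓ.nonneg _) (Nat.cast_nonneg n)
  have key : ∀ n : ℕ, ℓ (cc n) ≤ (tc ℓ + δ) * n + ∑ i ∈ Finset.range (N + 1), ℓ (cc i) := by
    intro n
    have hs : 0 ≤ ∑ i ∈ Finset.range (N + 1), ℓ (cc i) := Finset.sum_nonneg fun i _ => hℓ.nonneg _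
    by_cases hn : n < N + 1
    · have : ℓ (cc n) ≤ ∑ i ∈ Finset.range (N + 1), ℓ (cc i) :=
        Finset.single_le_sum (f := fun i : ℕ => ℓ (cc i)) (fun i _ => hℓ.nonneg _)
          (Finset.mem_range.2 hn)
      have : 0 ≤ (tc ℓ + δ) * n := mul_nonneg (by linarith) (Nat.cast_nonneg n)
      linarith
    · have h3 := hN n (by omega)
      have hn0 : (0 : ℝ) < n := by
        have : 0 < n := by omega
        exact_mod_cast this
      rw [div_lt_iff₀ hn0] at h3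
      linarith
  refine ⟨∑ i ∈ Finset.range (N + 1), ℓ (cc i), Finset.sum_nonneg fun i _ => hℓ.nonneg _,
    fun m => ?_⟩
  obtain ⟨n, rfl | rfl⟩ := Int.eq_nat_or_neg m
  · simpa using key n
  · rw [hℓ.cc_neg]
    simpa using key n

theorem tc_pos : 0 < tc ℓ := by
  obtain ⟨κ, hκ, h⟩ := hℓ.undist
  apply lt_of_lt_of_le hκ
  apply le_csInf
  · exact ⟨_, 1, by simp, rfl⟩
  · rintro _ ⟨n, hn, rfl⟩
    have hn1 : (1 : ℕ) ≤ n := hn
    have hn0 : (0 : ℝ) < n := by exact_mod_cast hn1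
    change κ ≤ ℓ (cc n) / n
    rw [le_div_iff₀ hn0]
    have := h n
    simpa [cc] using this

end Len

/-- good elements -/
def G0 (g : G) : Prop := F g⁻¹ = 0 ∧ F (tau * g⁻¹) = 0 ∧ F (s * g⁻¹) = 1

/-- every nonzero translate along `a` is good -/
def Mem (g : G) : Prop := ∀ ρ : ℤ, ρ ≠ 0 → G0 (g * vec ρ 0)

theorem G0_vec (x y : ℤ) : G0 (vec x y) := by
  refine ⟨?_, ?_, ?_⟩
  · rw [vec_inv, F_vec]
  · rw [vec_inv, tau_mul_vec, tau, vec, ← map_mul, F_ofB]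
  · rw [vec_inv, F_mul_vec, F_s]

theorem Mem_vec (x y : ℤ) : Mem (vec x y) := by
  intro ρ _
  rw [vec_mul]; exact G0_vec _ _

theorem not_mem_Cs {ρ : ℤ} (h : ρ ≠ 0) : (⟨ρ, 0, false⟩ : Base) ∉ Cs := by
  rintro ⟨m, hm⟩
  rw [Base.ext_iff] at hm
  simp at hm
  omega

theorem Mem_s {g : G} (h : F g⁻¹ = 0) : Mem (g * s) := by
  intro ρ hρ
  have e : (g * s * vec ρ 0)⁻¹ = ofB ⟨-ρ, 0, false⟩ * s⁻¹ * g⁻¹ := by
    rw [mul_inv_rev, mul_inv_rev, vec_inv, neg_zero, ← mul_assoc]; rfl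
  refine ⟨?_, ?_, ?_⟩
  · rw [e]; exact H5 _ h
  · rw [e]
    have : tau * (ofB ⟨-ρ, 0, false⟩ * s⁻¹ * g⁻¹) =
        ofB (⟨0, 0, true⟩ * ⟨-ρ, 0, false⟩) * s⁻¹ * g⁻¹ := by
      rw [map_mul, tau]; group
    rw [this]; exact H5 _ h
  · rw [e]
    have : s * (ofB ⟨-ρ, 0, false⟩ * s⁻¹ * g⁻¹) = s * ofB ⟨-ρ, 0, false⟩ * s⁻¹ * g⁻¹ := by
      group
    rw [this]
    exact H6' (not_mem_Cs (by omega)) h

/-- a line source with slope `σ` exists at all scales -/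
def RealL (ℓ : G → ℝ) (σ : ℝ) : Prop :=
  ∀ ε : ℝ, 0 < ε → ∃ K : ℝ, ∃ L₀ : ℕ, ∀ L : ℕ, L₀ ≤ L → ∃ g : G, Mem g ∧ ℓ g ≤ K * L ∧
    (∀ m : ℤ, ℓ g + m * σ - ε * L ≤ ℓ (g * cc m)) ∧
    (∀ m : ℤ, |(m : ℝ)| ≤ L → ℓ (g * cc m) ≤ ℓ g + m * σ + ε * L) ∧
    (∀ x y : ℤ, ∃ m : ℤ, ℓ (g * cc m) + ℓ (vec (x - 2 * m) (y - 2 * m)) - ε * L ≤ ℓ (g * vec x y))

/-- a plane source with linear functional `(p, q)` exists at all scales -/
def Real2 (ℓ : G → ℝ) (p q : ℝ) : Prop :=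
  ∀ ε : ℝ, 0 < ε → ∃ K : ℝ, ∃ L₀ : ℕ, ∀ L : ℕ, L₀ ≤ L → ∃ g : G, G0 g ∧ ℓ g ≤ K * L ∧
    (∀ x y : ℤ, ℓ g + (p * x + q * y) - ε * L ≤ ℓ (g * vec x y)) ∧
    (∀ x y : ℤ, |(x : ℝ)| ≤ L → |(y : ℝ)| ≤ L → ℓ (g * vec x y) ≤ ℓ g + (p * x + q * y) + ε * L)

namespace Len

variable {ℓ : G → ℝ} (hℓ : Len ℓ)
include hℓ

theorem base_aux (δ : ℤ) (hδ : δ = 1 ∨ δ = -1) : RealL ℓ (δ * tc ℓ) := by
  intro ε hε
  obtain ⟨C, hC0, hC⟩ := hℓ.tc_ge (ε / 4) (by linarith)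
  obtain ⟨N, hN⟩ := exists_nat_ge (4 * C / ε)
  have htc := hℓ.tc_pos
  refine ⟨tc ℓ + ε / 4 + C, N + 1, fun L hL => ⟨cc (δ * L), Mem_vec _ _, ?_, ?_, ?_, ?_⟩⟩
  all_goals
    have hL1 : (1 : ℝ) ≤ L := by
      have : 1 ≤ L := by omega
      exact_mod_cast this
    have hLN : (N : ℝ) ≤ L := by
      have : N ≤ L := by omega
      exact_mod_cast this
    have hCL : C ≤ ε / 4 * L := by
      have : 4 * C / ε ≤ L := le_trans hN hLN
      rw [div_le_iff₀ hε] at this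
      linarith
    have habs : |((δ * L : ℤ) : ℝ)| = L := by
      rcases hδ with rfl | rfl <;> simp
    have hg1 : ℓ (cc (δ * L)) ≤ (tc ℓ + ε / 4) * L + C := by
      have := hC (δ * L)
      rwa [habs] at this
    have hg2 : tc ℓ * L ≤ ℓ (cc (δ * L)) := by
      have := hℓ.tc_le (δ * L)
      rwa [habs] at this
  · nlinarith
  · intro m
    rw [cc_mul]
    have h1 := hℓ.tc_le (δ * L + m)
    have h2 : (L : ℝ) + δ * m ≤ |((δ * L + m : ℤ) : ℝ)| := by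
      push_cast
      rcases hδ with rfl | rfl
      · push_cast; have := le_abs_self ((1 : ℝ) * L + m); linarith
      · push_cast; have := neg_le_abs ((-1 : ℝ) * L + m); linarith
    have h3 : tc ℓ * ((L : ℝ) + δ * m) ≤ ℓ (cc (δ * L + m)) :=
      le_trans (mul_le_mul_of_nonneg_left h2 htc.le) h1
    nlinarith
  · intro m hm
    rw [cc_mul]
    have h1 := hC (δ * L + m)
    have h2 : |((δ * L + m : ℤ) : ℝ)| = (L : ℝ) + δ * m := by
      rw [abs_le] at hm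
      push_cast
      rcases hδ with rfl | rfl
      · push_cast; rw [abs_of_nonneg (by linarith)]; ring
      · push_cast; rw [abs_of_nonpos (by linarith)]; ring
    rw [h2] at h1
    have h4 : (L : ℝ) + δ * m ≤ 2 * L := by
      rw [abs_le] at hm
      rcases hδ with rfl | rfl
      · push_cast; linarith
      · push_cast; linarith
    nlinarith
  · intro x y
    refine ⟨-(δ * L), ?_⟩
    rw [cc_mul, add_neg_cancel, cc_zero, hℓ.one, cc_mul_vec]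
    have e1 : x - 2 * -(δ * (L : ℤ)) = x + 2 * (δ * L) := by ring
    have e2 : y - 2 * -(δ * (L : ℤ)) = y + 2 * (δ * L) := by ring
    rw [e1, e2]
    nlinarith

theorem base_pos : RealL ℓ (tc ℓ) := by
  simpa using hℓ.base_aux 1 (Or.inl rfl)

theorem base_neg : RealL ℓ (-tc ℓ) := by
  simpa using hℓ.base_aux (-1) (Or.inr rfl)

/-- slopes are bounded by the translation length -/
theorem slope_le {σ : ℝ} (h : RealL ℓ σ) : |σ| ≤ tc ℓ := by
  obtain ⟨K, L₀, h⟩ := h 1 one_pos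
  obtain ⟨g, -, -, h1, -, -⟩ := h L₀ le_rfl
  have key : ∀ m : ℤ, m * σ ≤ ℓ (cc m) + L₀ := by
    intro m
    have h2 := h1 m
    have h3 := hℓ.mul g (cc m)
    linarith
  by_contra hcon
  push Not at hcon
  set δ := (|σ| - tc ℓ) / 2 with hδdef
  have hδ : 0 < δ := by simp only [hδdef]; linarith
  obtain ⟨C, hC0, hC⟩ := hℓ.tc_ge δ hδ
  obtain ⟨N, hN⟩ := exists_nat_gt ((C + L₀) / δ)
  rw [div_lt_iff₀ hδ] at hN
  have hh : |σ| = tc ℓ + 2 * δ := by simp only [hδdef]; ring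
  rcases abs_cases σ with ⟨h4, h5⟩ | ⟨h4, h5⟩
  · have h6 := key N
    have h7 := hC N
    rw [h4] at hh
    rw [hh] at h6
    have : |((N : ℤ) : ℝ)| = N := by simp
    rw [this] at h7
    push_cast at h6
    nlinarith
  · have h6 := key (-N)
    have h7 := hC (-N)
    rw [h4] at hh
    have : |((-N : ℤ) : ℝ)| = N := by simp
    rw [this] at h7
    push_cast at h6
    have : σ = -(tc ℓ + 2 * δ) := by linarith
    rw [this] at h6
    nlinarith

/-- crossing into the half-space -/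
theorem cr1 : ∃ C : ℝ, 0 ≤ C ∧ ∀ g, F g⁻¹ = 0 → ∀ x y : ℤ, ∃ m : ℤ,
    ℓ (g * s * cc m) + ℓ (vec (x - 2 * m) (y - 2 * m)) - C ≤ ℓ (g * s * vec x y) := by
  obtain ⟨Q, hQ⟩ := hℓ.cross
  refine ⟨2 * ∑ q ∈ Q, ℓ (q * s), by
    have := Finset.sum_nonneg (fun q (_ : q ∈ Q) => hℓ.nonneg (q * s)); linarith,
    fun g hg x y => ?_⟩
  have hF : F g⁻¹ ≠ F (s * vec x y) := by
    rw [hg, F_mul_vec, F_s]; norm_num
  obtain ⟨m, q, hq, h⟩ := hQ _ _ hF
  refine ⟨m, ?_⟩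
  have hsum : ℓ (q * s) ≤ ∑ q ∈ Q, ℓ (q * s) :=
    Finset.single_le_sum (f := fun q => ℓ (q * s)) (fun i _ => hℓ.nonneg _) hq
  have e1 : g⁻¹⁻¹ * (s * vec x y) = g * s * vec x y := by group
  have e2 : q * vec (3 * (-m)) 0 * (s * vec x y) = (q * s) * vec (x - 2 * m) (y - 2 * m) := by
    have h1 : vec (3 * (-m)) 0 * s = s * cc (-m) := (s_mul_cc (-m)).symm
    have h2 : cc (-m) * vec x y = vec (x - 2 * m) (y - 2 * m) := by
      rw [cc_mul_vec]; congr 1 <;> ring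
    rw [← h2]
    calc q * vec (3 * (-m)) 0 * (s * vec x y) = q * (vec (3 * (-m)) 0 * s) * vec x y := by group
      _ = _ := by rw [h1]; group
  have e3 : g * s * cc m = (g⁻¹⁻¹ * vec (3 * m) 0 * q⁻¹) * (q * s) := by
    rw [mul_assoc, s_mul_cc]; group
  rw [e1, e2] at h
  have h3 := hℓ.sub_le' (q * s) (vec (x - 2 * m) (y - 2 * m))
  have h4 := hℓ.mul (g⁻¹⁻¹ * vec (3 * m) 0 * q⁻¹) (q * s)
  rw [← e3] at h4
  linarith

/-- line sources from plane sources -/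
theorem src : ∃ C : ℝ, 0 ≤ C ∧ ∀ g, F g⁻¹ = 0 → ∀ (σ E : ℝ) (L : ℕ),
    (∀ m : ℤ, ℓ g + m * σ - E ≤ ℓ (g * vec (3 * m) 0)) →
    (∀ m : ℤ, |(m : ℝ)| ≤ L → ℓ (g * vec (3 * m) 0) ≤ ℓ g + m * σ + E) →
    Mem (g * s) ∧ ℓ (g * s) ≤ ℓ g + C ∧
    (∀ m : ℤ, ℓ (g * s) + m * σ - (E + C) ≤ ℓ (g * s * cc m)) ∧
    (∀ m : ℤ, |(m : ℝ)| ≤ L → ℓ (g * s * cc m) ≤ ℓ (g * s) + m * σ + (E + C)) ∧
    (∀ x y : ℤ, ∃ m : ℤ,
      ℓ (g * s * cc m) + ℓ (vec (x - 2 * m) (y - 2 * m)) - C ≤ ℓ (g * s * vec x y)) := by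
  obtain ⟨C, hC0, hC⟩ := hℓ.cr1
  have hs := hℓ.nonneg s
  refine ⟨C + 2 * ℓ s, by linarith, fun g hg σ E L h1 h2 => ⟨Mem_s hg, ?_, ?_, ?_, ?_⟩⟩
  · have := hℓ.mul g s; linarith
  · intro m
    have e : g * s * cc m = g * vec (3 * m) 0 * s := by rw [mul_assoc, s_mul_cc]; group
    rw [e]
    have a1 := hℓ.sub_le (g * vec (3 * m) 0) s
    have a2 := hℓ.mul g s
    have a3 := h1 m
    linarith
  · intro m hm
    have e : g * s * cc m = g * vec (3 * m) 0 * s := by rw [mul_assoc, s_mul_cc]; group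
    rw [e]
    have a1 := hℓ.mul (g * vec (3 * m) 0) s
    have a2 := hℓ.sub_le g s
    have a3 := h2 m hm
    linarith
  · intro x y
    obtain ⟨m, hm⟩ := hC g hg x y
    exact ⟨m, by linarith⟩

theorem up {p q : ℝ} (h : Real2 ℓ p q) : RealL ℓ (3 * p) ∧ RealL ℓ (3 * q) := by
  obtain ⟨C, hC0, hC⟩ := hℓ.src
  have ht := hℓ.nonneg tau
  constructor
  · intro ε hε
    obtain ⟨K, L₀, hK⟩ := h (ε / 6) (by linarith)
    obtain ⟨N, hN⟩ := exists_nat_ge (2 * C / ε)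
    refine ⟨3 * K + C, L₀ + N + 1, fun L hL => ?_⟩
    obtain ⟨g, hg, hgK, hlo, hup⟩ := hK (3 * L) (by omega)
    have hL1 : (1 : ℝ) ≤ L := by
      have : 1 ≤ L := by omega
      exact_mod_cast this
    have hLN : (N : ℝ) ≤ L := by
      have : N ≤ L := by omega
      exact_mod_cast this
    have hCL : C ≤ ε / 2 * L := by
      have : 2 * C / ε ≤ L := le_trans hN hLN
      rw [div_le_iff₀ hε] at this
      linarith
    have hcast : ((3 * L : ℕ) : ℝ) = 3 * L := by push_cast; ring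
    rw [hcast] at hgK hlo hup
    obtain ⟨m1, m2, m3, m4, m5⟩ := hC g hg.1 (3 * p) (ε / 2 * L) L
      (fun m => by
        have := hlo (3 * m) 0
        push_cast at this
        linarith)
      (fun m hm => by
        have := hup (3 * m) 0 (by push_cast; rw [abs_mul]; norm_num; exact hm) (by simp)
        push_cast at this
        linarith)
    refine ⟨g * s, m1, ?_, ?_, ?_, ?_⟩
    · nlinarith
    · intro m; have := m3 m; nlinarith
    · intro m hm; have := m4 m hm; nlinarith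
    · intro x y
      obtain ⟨m, hm⟩ := m5 x y
      exact ⟨m, by nlinarith⟩
  · intro ε hε
    obtain ⟨K, L₀, hK⟩ := h (ε / 6) (by linarith)
    obtain ⟨N, hN⟩ := exists_nat_ge (2 * (C + 2 * ℓ tau) / ε)
    refine ⟨3 * K + C + ℓ tau, L₀ + N + 1, fun L hL => ?_⟩
    obtain ⟨g, hg, hgK, hlo, hup⟩ := hK (3 * L) (by omega)
    have hL1 : (1 : ℝ) ≤ L := by
      have : 1 ≤ L := by omega
      exact_mod_cast this
    have hLN : (N : ℝ) ≤ L := by
      have : N ≤ L := by omega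
      exact_mod_cast this
    have hCL : C + 2 * ℓ tau ≤ ε / 2 * L := by
      have : 2 * (C + 2 * ℓ tau) / ε ≤ L := le_trans hN hLN
      rw [div_le_iff₀ hε] at this
      linarith
    have hcast : ((3 * L : ℕ) : ℝ) = 3 * L := by push_cast; ring
    rw [hcast] at hgK hlo hup
    have hF : F (g * tau)⁻¹ = 0 := by rw [mul_inv_rev, tau_inv]; exact hg.2.1
    have e : ∀ m : ℤ, g * tau * vec (3 * m) 0 = g * vec 0 (3 * m) * tau := by
      intro m; rw [mul_assoc, tau_mul_vec]; group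
    have b1 := hℓ.mul g tau
    have b2 := hℓ.sub_le g tau
    obtain ⟨m1, m2, m3, m4, m5⟩ := hC (g * tau) hF (3 * q) (ε / 2 * L + 2 * ℓ tau) L
      (fun m => by
        have := hlo 0 (3 * m)
        push_cast at this
        rw [e]
        have b3 := hℓ.sub_le (g * vec 0 (3 * m)) tau
        linarith)
      (fun m hm => by
        have := hup 0 (3 * m) (by simp) (by push_cast; rw [abs_mul]; norm_num; exact hm)
        push_cast at this
        rw [e]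
        have b3 := hℓ.mul (g * vec 0 (3 * m)) tau
        linarith)
    refine ⟨g * tau * s, m1, ?_, ?_, ?_, ?_⟩
    · nlinarith
    · intro m; have := m3 m; nlinarith
    · intro m hm; have := m4 m hm; nlinarith
    · intro x y
      obtain ⟨m, hm⟩ := m5 x y
      exact ⟨m, by nlinarith⟩

end Len

end Run7.h463
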