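import Pool.Agent.Run7.h463.Code

set_option autoImplicit false

/-! Words of codes and the fellow traveller property. -/

namespace Run7.h463

/-- letters -/
inductive Lt : Type
  | A (e : Bool) : Lt
  | d (ty : Bool) (e : Bool) : Lt
  | g (ty : Bool) (j : Fin 4) (f : Bool) : Lt
  | s (e : Bool) : Lt
deriving DecidableEq, Fintype

/-- sign as an integer -/
def sz (e : Bool) : ℤ := if e then 1 else -1

/-- value of a letter -/
def Lt.val : Lt → G
  | .A e => ofB (pw false (sz e))
  | .d ty e => ofB (dir ty (sz e))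
  | .g ty j f => ofB (dig ty j f)
  | .s e => sG e

/-- evaluation of a list of letters -/
def evL (w : List Lt) : G := (w.map Lt.val).prod

@[simp] theorem evL_nil : evL [] = 1 := rfl
@[simp] theorem evL_cons (l : Lt) (w : List Lt) : evL (l :: w) = l.val * evL w := by simp [evL]
@[simp] theorem evL_append (u v : List Lt) : evL (u ++ v) = evL u * evL v := by simp [evL]

/-- a run of letters -/
def rep (l : Bool → Lt) (n : ℤ) : List Lt := List.replicate n.natAbs (l (decide (0 ≤ n)))

theorem evL_replicate (l : Lt) (n : ℕ) : evL (List.replicate n l) = l.val ^ n := by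
  simp [evL]

theorem pow_pw (ty : Bool) (k : ℤ) (n : ℕ) : (pw ty k) ^ n = pw ty (n * k) := by
  induction n with
  | zero => simp [pw_zero]
  | succ n ih =>
    rw [pow_succ, ih, ← pw_add]; congr 1; push_cast; ring

theorem dir_zero (ty : Bool) : dir ty 0 = 1 := by cases ty <;> rfl

theorem pow_dir (ty : Bool) (k : ℤ) (n : ℕ) : (dir ty k) ^ n = dir ty (n * k) := by
  induction n with
  | zero => simp [dir_zero]
  | succ n ih =>
    rw [pow_succ, ih, ← dir_add]; congr 1; push_cast; ring

theorem natAbs_mul_sz (n : ℤ) : (n.natAbs : ℤ) * sz (decide (0 ≤ n)) = n := by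
  unfold sz
  by_cases h : 0 ≤ n
  · simp only [h, decide_true, if_true]; omega
  · simp only [h, decide_false, Bool.false_eq_true, if_false]; omega

theorem evL_repA (k : ℤ) : evL (rep Lt.A k) = ofB (pw false k) := by
  rw [rep, evL_replicate, Lt.val, ← map_pow, pow_pw, natAbs_mul_sz]

theorem evL_repd (ty : Bool) (k : ℤ) : evL (rep (Lt.d ty) k) = ofB (dir ty k) := by
  rw [rep, evL_replicate, Lt.val, ← map_pow, pow_dir, natAbs_mul_sz]

/-- word of a prefix -/
def Pre.wd : Pre → List Lt
  | .start k => rep Lt.A k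
  | .cross p n j f e => p.wd ++ (rep (Lt.d p.ty) n ++ [Lt.g p.ty j f, Lt.s e])

/-- word of a code -/
def Code.wd (c : Code) : List Lt := c.p.wd ++ (rep (Lt.d c.p.ty) c.n ++ [Lt.g c.p.ty c.j c.f])

theorem Pre.evL_wd (p : Pre) : evL p.wd = p.toG := by
  induction p with
  | start k => exact evL_repA k
  | cross p n j f e ih =>
    simp only [Pre.wd, Pre.toG, evL_append, ih, evL_repd, evL_cons, evL_nil, mul_one, Lt.val, blk,
      map_mul, mul_assoc]

theorem Code.evL_wd (c : Code) : evL c.wd = c.toG := by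
  simp only [Code.wd, Code.toG, evL_append, Pre.evL_wd, evL_repd, evL_cons, evL_nil, mul_one,
    Lt.val, blk, map_mul]

/-- length functions -/
structure LF (ℓ : G → ℕ) : Prop where
  one : ℓ 1 = 0
  mul : ∀ g h, ℓ (g * h) ≤ ℓ g + ℓ h
  inv : ∀ g, ℓ g⁻¹ = ℓ g
  lt : ∀ l : Lt, ℓ l.val ≤ 1

/-- distance -/
def dst (ℓ : G → ℕ) (g h : G) : ℕ := ℓ (g⁻¹ * h)

/-- fellow travelling -/
def FT (ℓ : G → ℕ) (K : ℕ) (u v : List Lt) : Prop :=
  ∀ t : ℕ, dst ℓ (evL (u.take t)) (evL (v.take t)) ≤ K

section

variable {ℓ : G → ℕ} (hℓ : LF ℓ)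
include hℓ

theorem dst_self (g : G) : dst ℓ g g = 0 := by simp [dst, hℓ.one]

theorem dst_symm (g h : G) : dst ℓ g h = dst ℓ h g := by
  unfold dst
  rw [← hℓ.inv (g⁻¹ * h)]; congr 1; group

theorem dst_tri (g h k : G) : dst ℓ g k ≤ dst ℓ g h + dst ℓ h k := by
  unfold dst
  have := hℓ.mul (g⁻¹ * h) (h⁻¹ * k)
  have e : g⁻¹ * h * (h⁻¹ * k) = g⁻¹ * k := by group
  rwa [e] at this

omit hℓ in
theorem dst_left (a g h : G) : dst ℓ (a * g) (a * h) = dst ℓ g h := by
  unfold dst; congr 1; group

theorem evL_le (w : List Lt) : ℓ (evL w) ≤ w.length := by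
  induction w with
  | nil => simp [hℓ.one]
  | cons l w ih =>
    rw [evL_cons, List.length_cons]
    have := hℓ.mul l.val (evL w)
    have := hℓ.lt l
    omega

theorem take_lip (w : List Lt) {i j : ℕ} (h : i ≤ j) :
    dst ℓ (evL (w.take i)) (evL (w.take j)) ≤ j - i := by
  obtain ⟨k, rfl⟩ := Nat.exists_eq_add_of_le h
  rw [List.take_add, evL_append, dst]
  have e : (evL (w.take i))⁻¹ * (evL (w.take i) * evL ((w.drop i).take k)) =
      evL ((w.drop i).take k) := by group
  rw [e]
  have := evL_le hℓ ((w.drop i).take k)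
  have := List.length_take_le k (w.drop i)
  omega

theorem take_lip' (w : List Lt) (i j D : ℕ) (h1 : i ≤ j + D) (h2 : j ≤ i + D) :
    dst ℓ (evL (w.take i)) (evL (w.take j)) ≤ D := by
  rcases le_total i j with h | h
  · have := take_lip hℓ w h; omega
  · have := take_lip hℓ w h
    rw [dst_symm hℓ] at this; omega

theorem take_append_dst (w y : List Lt) (t : ℕ) :
    dst ℓ (evL ((w ++ y).take t)) (evL (w.take t)) ≤ y.length := by
  rw [dst_symm hℓ, List.take_append, evL_append, dst]
  have e : (evL (w.take t))⁻¹ * (evL (w.take t) * evL (y.take (t - w.length))) =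
      evL (y.take (t - w.length)) := by group
  rw [e]
  have := evL_le hℓ (y.take (t - w.length))
  have := List.length_take_le' (t - w.length) y
  omega

theorem FT.refl (u : List Lt) : FT ℓ 0 u u := fun t => by rw [dst_self hℓ]

theorem FT.symm {K : ℕ} {u v : List Lt} (h : FT ℓ K u v) : FT ℓ K v u := fun t => by
  rw [dst_symm hℓ]; exact h t

theorem FT.trans {K K' : ℕ} {u v w : List Lt} (h : FT ℓ K u v) (h' : FT ℓ K' v w) :
    FT ℓ (K + K') u w := fun t => by
  have := h t
  have := h' t
  have := dst_tri hℓ (evL (u.take t)) (evL (v.take t)) (evL (w.take t))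
  omega

omit hℓ in
theorem FT.mono {K K' : ℕ} {u v : List Lt} (h : FT ℓ K u v) (hK : K ≤ K') : FT ℓ K' u v :=
  fun t => le_trans (h t) hK

theorem ft_common (w u v : List Lt) : FT ℓ (u.length + v.length) (w ++ u) (w ++ v) := by
  intro t
  have h1 := take_append_dst hℓ w u t
  have h2 := take_append_dst hℓ w v t
  rw [dst_symm hℓ] at h2
  have := dst_tri hℓ (evL ((w ++ u).take t)) (evL (w.take t)) (evL ((w ++ v).take t))
  omega

theorem rep_ft (l : Bool → Lt) (n n' : ℤ) (w y y' : List Lt) (D : ℕ) (h1 : n ≤ n' + D)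
    (h2 : n' ≤ n + D) :
    FT ℓ (D + y.length + y'.length) (w ++ (rep l n ++ y)) (w ++ (rep l n' ++ y')) := by
  by_cases hs : (0 ≤ n ↔ 0 ≤ n')
  · -- same sign
    have hdec : decide (0 ≤ n) = decide (0 ≤ n') := by simp [hs]
    set m := min n.natAbs n'.natAbs with hm
    obtain ⟨a, ha⟩ := Nat.exists_eq_add_of_le (show m ≤ n.natAbs by omega)
    obtain ⟨b, hb⟩ := Nat.exists_eq_add_of_le (show m ≤ n'.natAbs by omega)
    have hab : a + b ≤ D := by omega
    have e1 : rep l n = List.replicate m (l (decide (0 ≤ n))) ++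
        List.replicate a (l (decide (0 ≤ n))) := by
      rw [rep, ha, List.replicate_add]
    have e2 : rep l n' = List.replicate m (l (decide (0 ≤ n))) ++
        List.replicate b (l (decide (0 ≤ n))) := by
      rw [rep, hb, List.replicate_add, hdec]
    have := ft_common hℓ (w ++ List.replicate m (l (decide (0 ≤ n))))
      (List.replicate a (l (decide (0 ≤ n))) ++ y) (List.replicate b (l (decide (0 ≤ n))) ++ y')
    rw [e1, e2]
    simp only [List.append_assoc] at this ⊢
    refine this.mono ?_
    simp only [List.length_append, List.length_replicate]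
    omega
  · have hab : n.natAbs + n'.natAbs ≤ D := by omega
    have := ft_common hℓ w (rep l n ++ y) (rep l n' ++ y')
    refine this.mono ?_
    simp only [List.length_append, rep, List.length_replicate]
    omega

theorem ft_ext {K D N : ℕ} {u v x y y' : List Lt} {g : G} (h : FT ℓ K u v)
    (h1 : u.length ≤ v.length + D) (h2 : v.length ≤ u.length + D) (hg : evL v = evL u * g)
    (hx : ∀ i, evL (x.take i) * g = g * evL (x.take i)) (hy : y.length ≤ N) (hy' : y'.length ≤ N)
    (hK : ℓ g + 2 * N + 2 * D ≤ K) : FT ℓ K (u ++ (x ++ y)) (v ++ (x ++ y')) := by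
  intro t
  by_cases ht : t ≤ u.length ∧ t ≤ v.length
  · have e1 : (u ++ (x ++ y)).take t = u.take t := List.take_append_of_le_length ht.1
    have e2 : (v ++ (x ++ y')).take t = v.take t := List.take_append_of_le_length ht.2
    rw [e1, e2]; exact h t
  · set μ := min u.length v.length with hμ
    have hμt : μ ≤ t := by omega
    set i := t - μ with hi
    -- drop the tails
    have a1 := take_append_dst hℓ (u ++ x) y t
    have a2 := take_append_dst hℓ (v ++ x) y' t
    rw [List.append_assoc] at a1 a2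
    rw [dst_symm hℓ] at a2
    -- shift the times
    have b1 := take_lip' hℓ (u ++ x) t (u.length + i) D (by omega) (by omega)
    have b2 := take_lip' hℓ (v ++ x) (v.length + i) t D (by omega) (by omega)
    -- compare
    have c : dst ℓ (evL ((u ++ x).take (u.length + i))) (evL ((v ++ x).take (v.length + i))) =
        ℓ g := by
      rw [List.take_length_add_append, List.take_length_add_append, evL_append, evL_append, hg,
        mul_assoc, dst_left, dst, ← hx]
      congr 1; group
    have t1 := dst_tri hℓ (evL ((u ++ (x ++ y)).take t)) (evL ((u ++ x).take t))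
      (evL ((v ++ (x ++ y')).take t))
    have t2 := dst_tri hℓ (evL ((u ++ x).take t)) (evL ((u ++ x).take (u.length + i)))
      (evL ((v ++ (x ++ y')).take t))
    have t3 := dst_tri hℓ (evL ((u ++ x).take (u.length + i)))
      (evL ((v ++ x).take (v.length + i))) (evL ((v ++ (x ++ y')).take t))
    have t4 := dst_tri hℓ (evL ((v ++ x).take (v.length + i))) (evL ((v ++ x).take t))
      (evL ((v ++ (x ++ y')).take t))
    omega

end

theorem rep_take_comm (ty : Bool) (n : ℤ) (i : ℕ) (ty' : Bool) (k : ℤ) :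
    evL ((rep (Lt.d ty) n).take i) * ofB (pw ty' k) =
      ofB (pw ty' k) * evL ((rep (Lt.d ty) n).take i) := by
  rw [rep, List.take_replicate, evL_replicate, Lt.val, ← map_pow, pow_dir, ← map_mul, ← map_mul,
    dir_pw_comm]

/-- The carry computation at a crossing. -/
theorem carry (ty e f : Bool) (n : ℤ) (j : Fin 4) (hj : dok ty j) (δ : ℤ) (hδ : δ = 1 ∨ δ = -1) :
    ∃ (κ n' : ℤ) (j' : Fin 4), dok ty j' ∧
      blk ty n j f * pw (!e) δ = pw ty κ * blk ty n' j' f ∧
      ((κ = 0 ∧ n ≤ n' + 6 ∧ n' ≤ n + 6) ∨ ((κ = 1 ∨ κ = -1) ∧ n' = n)) := by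
  obtain ⟨κ, n', j', hj', h⟩ := decomp ty (blk ty n j f * pw (!e) δ)
  have hf : (blk ty n j f * pw (!e) δ).f = f := by
    cases ty <;> cases e <;> cases f <;> simp [blk, dir, dig, pw]
  rw [hf] at h
  refine ⟨κ, n', j', hj', h, ?_⟩
  have h1 := j.isLt
  have h2 := j'.isLt
  unfold dok at hj hj'
  cases ty <;> cases e <;> cases f <;>
    simp [pw, blk, dir, dig] at h hj hj' ⊢ <;> omega

theorem psi_mul_ff (x y : ℤ) (u : Base) : psi (⟨x, y, false⟩ * u) = psi ⟨x, y, false⟩ + psi u := by
  rcases u with ⟨x', y', f'⟩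
  simp only [psi, Base.mul_ff]
  push_cast; ring

theorem psi_pw (ty : Bool) (k : ℤ) : psi (pw ty k) = k := by
  cases ty
  · simp only [psi, pw, Bool.false_eq_true, if_false]; push_cast; ring
  · simp only [psi, pw, if_true]; push_cast; ring

theorem psi_pw_mul (ty : Bool) (k : ℤ) (u : Base) : psi (pw ty k * u) = k + psi u := by
  rw [← psi_pw ty k]
  cases ty
  · exact psi_mul_ff _ _ u
  · exact psi_mul_ff _ _ u

theorem blk_f (ty : Bool) (n : ℤ) (j : Fin 4) (f : Bool) : (blk ty n j f).f = f := by
  cases ty <;> cases f <;> simp [blk, dir, dig]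

theorem psi_mul_pw (u : Base) (e : Bool) (δ : ℤ) :
    psi (u * pw (!e) δ) = psi u + δ * (if u.f && e then 1 / 2 else 1) := by
  rcases u with ⟨x, y, f⟩
  cases e <;> cases f <;> simp [psi, pw] <;> ring

section

variable {ℓ : G → ℕ} (hℓ : LF ℓ)
include hℓ

/-- the fellow traveller constant for prefixes -/
def KK (ℓ : G → ℕ) : ℕ := ℓ (ofB (pw false 1)) + ℓ (ofB (pw true 1)) + 20

theorem ell_pw (ty : Bool) (κ : ℤ) (h : κ = 1 ∨ κ = -1) : ℓ (ofB (pw ty κ)) + 16 ≤ KK ℓ := by
  have h1 : ℓ (ofB (pw ty κ)) = ℓ (ofB (pw ty 1)) := by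
    rcases h with rfl | rfl
    · rfl
    · rw [pw_neg, map_inv, hℓ.inv]
  rw [h1, KK]
  cases ty <;> omega

theorem inc (p : Pre) : p.valid → ∀ δ : ℤ, (δ = 1 ∨ δ = -1) → ∃ p' : Pre, p'.valid ∧ p'.ls = p.ls ∧
    p'.toG = p.toG * ofB (pw p.ty δ) ∧ p.wd.length ≤ p'.wd.length + 6 ∧
    p'.wd.length ≤ p.wd.length + 6 ∧ FT ℓ (KK ℓ) p.wd p'.wd ∧ p'.sl = p.sl ∧
    p'.vl = p.vl + δ * p.sl := by
  induction p with
  | start k =>
    intro _ δ hδ
    refine ⟨.start (k + δ), trivial, rfl, ?_, ?_, ?_, ?_, rfl, ?_⟩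
    · simp only [Pre.toG, Pre.ty, pw_add, map_mul]
    · simp only [Pre.wd, rep, List.length_replicate]; omega
    · simp only [Pre.wd, rep, List.length_replicate]; omega
    · have := rep_ft hℓ Lt.A k (k + δ) [] [] [] 1 (by push_cast; omega) (by push_cast; omega)
      simp only [List.nil_append, List.append_nil, List.length_nil] at this
      exact this.mono (by unfold KK; omega)
    · simp only [Pre.vl, Pre.sl]; push_cast; ring
  | cross q n j f e ih =>
    rintro ⟨hqv, hj, hnt⟩ δ hδ
    obtain ⟨κ, n', j', hj', hblk, hcase⟩ := carry q.ty e f n j hj δ hδ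
    have hnt' : ∀ q' : Pre, q'.ls = q.ls → ¬ (n' = 0 ∧ j' = 0 ∧ f = false ∧ q'.ls = some (!e)) := by
      rintro q' hq' ⟨rfl, rfl, rfl, h4⟩
      apply hnt
      rw [hq'] at h4
      have hty := Pre.ty_of_ls h4
      have h5 : blk q.ty n j false = pw q.ty (κ - δ) := by
        have h6 : blk q.ty 0 0 false = 1 := by cases q.ty <;> rfl
        rw [h6, mul_one, ← hty] at hblk
        rw [sub_eq_add_neg, pw_add, pw_neg, ← hblk]; group
      have h7 := blk_mem hj h5
      exact ⟨h7.1, h7.2.1, rfl, h4⟩
    -- group element computation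
    have hG : ∀ q' : Pre, q'.ls = q.ls → q'.toG = q.toG * ofB (pw q.ty κ) →
        (Pre.cross q' n' j' f e).toG = (Pre.cross q n j f e).toG * ofB (pw e δ) := by
      intro q' h1 h2
      simp only [Pre.toG]
      rw [h2, Pre.ty_congr h1, mul_assoc q.toG, ← map_mul, ← hblk, map_mul, mul_assoc, mul_assoc,
        pw_sG]
      group
    have hpsi : psi (blk q.ty n j f * pw (!e) δ) = psi (pw q.ty κ * blk q.ty n' j' f) := by
      rw [hblk]
    rw [psi_mul_pw, psi_pw_mul, blk_f] at hpsi
    rcases hcase with ⟨rfl, hn1, hn2⟩ | ⟨hκ, rfl⟩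
    · -- no carry
      refine ⟨.cross q n' j' f e, ⟨hqv, hj', hnt' q rfl⟩, rfl, ?_, ?_, ?_, ?_, rfl, ?_⟩
      · rw [hG q rfl (by rw [pw_zero]; simp)]; rfl
      · simp only [Pre.wd, rep, List.length_append, List.length_replicate, List.length_cons,
          List.length_nil]
        omega
      · simp only [Pre.wd, rep, List.length_append, List.length_replicate, List.length_cons,
          List.length_nil]
        omega
      · have := rep_ft hℓ (Lt.d q.ty) n n' q.wd [Lt.g q.ty j f, Lt.s e] [Lt.g q.ty j' f, Lt.s e] 6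
          (by push_cast; omega) (by push_cast; omega)
        refine this.mono ?_
        simp only [List.length_cons, List.length_nil, KK]
        omega
      · simp only [Pre.vl, Pre.sl]
        push_cast at hpsi
        have : psi (blk q.ty n' j' f) = psi (blk q.ty n j f) + δ * (if f && e then 1 / 2 else 1) := by
          linarith
        rw [this]; ring
    · -- carry
      obtain ⟨q', hq'v, hq'ls, hq'G, hl1, hl2, hft, hsl, hvl⟩ := ih hqv κ hκ
      have hty : q'.ty = q.ty := Pre.ty_congr hq'ls
      refine ⟨.cross q' n' j' f e, ⟨hq'v, by rw [hty]; exact hj', hnt' q' hq'ls⟩, rfl, ?_, ?_, ?_,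
        ?_, ?_, ?_⟩
      · rw [hG q' hq'ls hq'G]; rfl
      · simp only [Pre.wd, rep, List.length_append, List.length_replicate, List.length_cons,
          List.length_nil]
        omega
      · simp only [Pre.wd, rep, List.length_append, List.length_replicate, List.length_cons,
          List.length_nil]
        omega
      · simp only [Pre.wd]
        rw [hty]
        refine ft_ext hℓ (D := 6) (N := 2) (g := ofB (pw q.ty κ)) hft hl1 hl2 ?_ ?_ ?_ ?_ ?_
        · rw [Pre.evL_wd, Pre.evL_wd, hq'G]
        · intro i; exact rep_take_comm _ _ _ _ _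
        · simp
        · simp
        · have := ell_pw hℓ q.ty κ hκ; omega
      · simp only [Pre.sl]; rw [hsl]
      · simp only [Pre.vl, Pre.sl]
        rw [hsl, hvl, hty]
        have : psi (blk q.ty n' j' f) =
            psi (blk q.ty n' j f) + δ * (if f && e then 1 / 2 else 1) - κ := by
          linarith
        rw [this]; ring

end

end Run7.h463
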